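import Pool.Agent.Helper12.NK.Defs

/-!
# Project MA (MP_d63854_co): definitions

THEOREM.  An excluded minor of the class of apex graphs which is 5-connected is isomorphic to `K₆` or to `W8` (two nonadjacent
vertices joined to all six vertices of a prism).

All graphs are finite.  From AJ: `IsMinor`, `Planar` (no `K₅`, no `K₃,₃` minor), `Apex`, `ExMinor`, `Con G S` (`S` induces a
connected subgraph, in particular `S ≠ ∅`), `Tch G S T` (an edge from `S` to `T`).  From NK: `rst G U` (restriction to `U`), `Kc k G U`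
(`G` is `k`-connected on `U`), `add H y N`, `IsFace M U F` (vertex set of an induced cycle with connected complement in `U`),
`Cof M U a b` (some face contains `a` and `b`), `plus M U` (a new vertex in every face).
-/

set_option autoImplicit false

namespace Pool.Agent.Helper12.MA

open Pool.Agent.Helper51.AJ (IsMinor Planar Apex ExMinor Con Tch)
open Pool.Agent.Helper12.NK (rst Kc add cnt Pcy IsFace Cof plus)

variable {V : Type}

/-- `M` is 3-connected and planar on `U` -/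
def Pn (M : SimpleGraph V) (U : Set V) : Prop := Kc 3 M U ∧ Planar (rst M U)

/-- `G` without the edge `x y` -/
def dl (G : SimpleGraph V) (x y : V) : SimpleGraph V where
  Adj a b := G.Adj a b ∧ ¬ (a = x ∧ b = y) ∧ ¬ (a = y ∧ b = x)
  symm := ⟨fun _ _ h => ⟨h.1.symm, fun k => h.2.2 ⟨k.2, k.1⟩, fun k => h.2.1 ⟨k.2, k.1⟩⟩⟩
  loopless := ⟨fun _ h => G.ne_of_adj h.1 rfl⟩

/-- `G` with the edge `x y` (nothing happens if `x = y`) -/
def ae (G : SimpleGraph V) (x y : V) : SimpleGraph V where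
  Adj a b := G.Adj a b ∨ (a ≠ b ∧ ((a = x ∧ b = y) ∨ (a = y ∧ b = x)))
  symm := ⟨fun _ _ h => by
    rcases h with h | ⟨h, h' | h'⟩
    · exact Or.inl h.symm
    · exact Or.inr ⟨h.symm, Or.inr ⟨h'.2, h'.1⟩⟩
    · exact Or.inr ⟨h.symm, Or.inl ⟨h'.2, h'.1⟩⟩⟩
  loopless := ⟨fun _ h => by
    rcases h with h | h
    · exact G.ne_of_adj h rfl
    · exact h.1 rfl⟩

/-- the neighbours of the set `A` -/
def Nb (G : SimpleGraph V) (A : Set V) : Set V := {b | b ∉ A ∧ ∃ a ∈ A, G.Adj a b}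

/-- `s` serves the edge `x y`: `G - s - x y` is planar -/
def Srv (G : SimpleGraph V) (s x y : V) : Prop := s ≠ x ∧ s ≠ y ∧ Planar (rst (dl G x y) {s}ᶜ)

/-- the base hypotheses: 5-connected, at least 8 vertices, no apex vertex, every edge is served -/
structure Bh (G : SimpleGraph V) : Prop where
  kc : ∀ X : Set V, X.ncard ≤ 4 → Con G Xᶜ
  n8 : 8 ≤ Nat.card V
  hn : ∀ x, ¬ Planar (rst G {x}ᶜ)
  hd : ∀ x y, G.Adj x y → ∃ s, Srv G s x y

/-- `x y` is the only edge between `L` and `R`, `L ∪ R` is the complement of the 4-set `Q` -/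
structure Sep (G : SimpleGraph V) (Q : Set V) (x y : V) (L R : Set V) : Prop where
  card : Q.ncard = 4
  cov : L ∪ R = Qᶜ
  dis : Disjoint L R
  xL : x ∈ L
  yR : y ∈ R
  adj : G.Adj x y
  only : ∀ a ∈ L, ∀ b ∈ R, G.Adj a b → a = x ∧ b = y

/-- the edge `x y` is in no nontrivial `Sep` -/
def Good (G : SimpleGraph V) (x y : V) : Prop := ∀ Q L R, Sep G Q x y L R → L = {x} ∨ R = {y}

/-- a double server: `z` has exactly the neighbours `v, p, q, r, r'`, `p q` is an edge, `v` serves `p q` -/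
structure DSc (G : SimpleGraph V) (z v p q r r' : V) : Prop where
  nb : ∀ a, G.Adj z a ↔ a = v ∨ a = p ∨ a = q ∨ a = r ∨ a = r'
  ne : v ≠ p ∧ v ≠ q ∧ v ≠ r ∧ v ≠ r' ∧ p ≠ q ∧ p ≠ r ∧ p ≠ r' ∧ q ≠ r ∧ q ≠ r' ∧ r ≠ r'
  pq : G.Adj p q
  pl : Planar (rst (dl G p q) {v}ᶜ)

/-- a double server with the four faces of `P = G - v - p q` (graph `dl G p q` on `{v}ᶜ`) at `z`, in cyclic order:
`f1` between `p` and `r`, `f2` between `r` and `q`, `f3` between `q` and `r'`, `f4` between `r'` and `p` -/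
structure Cfg (G : SimpleGraph V) (z v p q r r' : V) (f1 f2 f3 f4 : Set V) : Prop where
  bh : Bh G
  ds : DSc G z v p q r r'
  i1 : IsFace (dl G p q) {v}ᶜ f1
  i2 : IsFace (dl G p q) {v}ᶜ f2
  i3 : IsFace (dl G p q) {v}ᶜ f3
  i4 : IsFace (dl G p q) {v}ᶜ f4
  z1 : z ∈ f1
  z2 : z ∈ f2
  z3 : z ∈ f3
  z4 : z ∈ f4
  p1 : p ∈ f1
  r1 : r ∈ f1
  r2 : r ∈ f2
  q2 : q ∈ f2
  q3 : q ∈ f3
  s3 : r' ∈ f3
  s4 : r' ∈ f4
  p4 : p ∈ f4
  x12 : f1 ∩ f2 = {z, r}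
  x23 : f2 ∩ f3 = {z, q}
  x34 : f3 ∩ f4 = {z, r'}
  x41 : f4 ∩ f1 = {z, p}
  x13 : f1 ∩ f3 = {z}
  x24 : f2 ∩ f4 = {z}
  all : ∀ f, IsFace (dl G p q) {v}ᶜ f → z ∈ f → f = f1 ∨ f = f2 ∨ f = f3 ∨ f = f4
  npq : ¬ Cof (dl G p q) {v}ᶜ p q

/-- the set of the vertices of `plus M U` given by the vertices in `A` and the faces in `T` -/
def mk (M : SimpleGraph V) (U : Set V) (A : Set V) (T : Set (Set V)) : Set (V ⊕ {F : Set V // IsFace M U F}) :=
  {x | (∃ a ∈ A, x = Sum.inl a) ∨ (∃ F : {F : Set V // IsFace M U F}, F.1 ∈ T ∧ x = Sum.inr F)}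

/-- the vertices in `A` and the faces in `T` together are connected (in `plus M U`) -/
def PC (M : SimpleGraph V) (U : Set V) (A : Set V) (T : Set (Set V)) : Prop := Con (plus M U) (mk M U A T)

/-- `(A, T)` and `(B, S)` touch in `plus M U` -/
def PT (M : SimpleGraph V) (U : Set V) (A : Set V) (T : Set (Set V)) (B : Set V) (S : Set (Set V)) : Prop :=
  (∃ a ∈ A, ∃ b ∈ B, a ∈ U ∧ b ∈ U ∧ M.Adj a b) ∨ (∃ a ∈ A, ∃ F ∈ S, IsFace M U F ∧ a ∈ F) ∨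
    (∃ F ∈ T, ∃ b ∈ B, IsFace M U F ∧ b ∈ F)

/-- the eight positions around `z` : `p, f1, r, f2, q, f3, r', f4`; the pair `(A, T)` contains position `i` -/
def on (p q r r' : V) (f1 f2 f3 f4 : Set V) (A : Set V) (T : Set (Set V)) (i : Fin 8) : Prop :=
  (i = 0 ∧ p ∈ A) ∨ (i = 1 ∧ f1 ∈ T) ∨ (i = 2 ∧ r ∈ A) ∨ (i = 3 ∧ f2 ∈ T) ∨ (i = 4 ∧ q ∈ A) ∨ (i = 5 ∧ f3 ∈ T) ∨
    (i = 6 ∧ r' ∈ A) ∨ (i = 7 ∧ f4 ∈ T)

/-- `Γ` is a face of `G - t - v` through `z` with the neighbours `r`, `r'` of `z` -/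
structure Ng (G : SimpleGraph V) (z v p q r r' t : V) (Γ : Set V) : Prop where
  tv : t ≠ v
  tz : t ≠ z
  tp : t ≠ p
  tq : t ≠ q
  tr : t ≠ r
  ts : t ≠ r'
  pl : Planar (rst G {t, v}ᶜ)
  fa : IsFace G {t, v}ᶜ Γ
  z : z ∈ Γ
  r : r ∈ Γ
  s : r' ∈ Γ
  p : p ∉ Γ
  q : q ∉ Γ

/-- a cut of `P` of the first kind: `{σ, z, b}` separates `X` (with `p`, `r'`) and `Y` (with `q`, `r`) in `P`, `σ ∈ f1`, `b ∈ f3` -/
structure Cut (G : SimpleGraph V) (z v p q r r' : V) (f1 f3 : Set V) (σ b : V) (X Y : Set V) : Prop where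
  sep : Sep G {v, z, σ, b} p q X Y
  sf : σ ∈ f1
  bf : b ∈ f3
  sX : r' ∈ X
  rY : r ∈ Y

/-- `W8`: the nonadjacent vertices 0, 1 are joined to the prism with triangles 2 3 4, 5 6 7 and the edges 2 5, 3 6, 4 7 -/
def W8 : SimpleGraph (Fin 8) := SimpleGraph.fromRel fun a b =>
  (a.val ≤ 1 ∧ 2 ≤ b.val) ∨ (a.val = 2 ∧ b.val = 3) ∨ (a.val = 2 ∧ b.val = 4) ∨ (a.val = 3 ∧ b.val = 4) ∨
    (a.val = 5 ∧ b.val = 6) ∨ (a.val = 5 ∧ b.val = 7) ∨ (a.val = 6 ∧ b.val = 7) ∨ (2 ≤ a.val ∧ b.val = a.val + 3)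

end Pool.Agent.Helper12.MA
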