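import Pool.Agent.Helper12.NK.Fin
import Pool.Agent.Helper86.NK.M_PTR
import Pool.Agent.Helper45.NK.M_PAR
import Pool.Agent.Helper36.NK.M_KCA
import Pool.Agent.Helper34.NK.M_KCB
import Pool.Agent.Helper61.NK.M_MNR
import Pool.Agent.Helper12.NK.M_CMB
import Pool.Agent.Helper81.NK.M_CMC
import Pool.Agent.Helper29.NK.M_CRX
import Pool.Agent.Helper71.NK.M_RPW
import Pool.Agent.Helper78.NK.M_PLU
import Pool.Agent.Helper16.NK.M_FCY
import Pool.Agent.Helper10.NK.M_PER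
import Pool.Agent.Helper86.NK.M_FAC
import Pool.Agent.Helper7.NK.M_RDL
import Pool.Agent.Helper6.NK.M_RDN
import Pool.Agent.Helper90.NK.M_INT
import Pool.Agent.Helper69.NK.M_CTR
import Pool.Agent.Helper8.NK.M_KUR
import Pool.Agent.Helper38.NK.M_TUT
import Pool.Agent.Helper30.NK.M_INS
import Pool.Agent.Helper64.NK.M_PLS
import Pool.Agent.Helper24.NK.M_EDF
import Pool.Agent.Helper80.NK.M_FDL
import Pool.Agent.Helper47.NK.M_FPA
import Pool.Agent.Helper83.NK.M_FPB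
import Pool.Agent.Helper28.NK.M_FPC
import Pool.Agent.Helper19.NK.M_EXM
import Pool.Agent.Helper58.NK.M_HCN
import Pool.Agent.Helper1.NK.M_STA
import Pool.Agent.Helper79.NK.M_STB
import Pool.Agent.Helper9.NK.M_STC
import Pool.Agent.Helper96.NK.M_STD
import Pool.Agent.Helper12.MA.Defs

/-!
# Project MA: the proved modules of project NK, ready for use
-/

set_option autoImplicit false

namespace Pool.Agent.Helper12.MA

open Pool.Agent.Helper12.NK

theorem nPTR : StPTR := Pool.Agent.Helper86.NK.hPTR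
theorem nPAR : StPAR := Pool.Agent.Helper45.NK.hPAR
theorem nKCA : StKCA := Pool.Agent.Helper36.NK.hKCA nPTR
theorem nKCB : StKCB := Pool.Agent.Helper34.NK.hKCB
theorem nMNR : StMNR := Pool.Agent.Helper61.NK.hMNR
theorem nCMB : StCMB := Pool.Agent.Helper12.NK.hCMB
theorem nCMC : StCMC := Pool.Agent.Helper81.NK.hCMC
theorem nCRX : StCRX := Pool.Agent.Helper29.NK.hCRX nMNR
theorem nRPW : StRPW := Pool.Agent.Helper71.NK.hRPW
theorem nPLU : StPLU := Pool.Agent.Helper78.NK.hPLU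
theorem nFCY : StFCY := Pool.Agent.Helper16.NK.hFCY nKCA
theorem nPER : StPER := Pool.Agent.Helper10.NK.hPER nKCA nKCB nPAR nMNR nCMB nCRX nPLU nRPW nFCY
theorem nFAC : StFAC := Pool.Agent.Helper86.NK.hFAC nKCA nMNR nPLU nRPW nFCY nPER
theorem nRDL : StRDL := Pool.Agent.Helper7.NK.hRDL
theorem nRDN : StRDN := Pool.Agent.Helper6.NK.hRDN nKCA nFCY
theorem nINT : StINT := Pool.Agent.Helper90.NK.hINT
theorem nCTR : StCTR := Pool.Agent.Helper69.NK.hCTR nKCA nKCB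
theorem nKUR : StKUR := Pool.Agent.Helper8.NK.hKUR nKCA nCMB nCRX nFCY nRDN nINT nCTR
theorem nTUT : StTUT := Pool.Agent.Helper38.NK.hTUT nKCA nKCB nKUR nRDN nFCY nPER nINT nRPW
theorem nINS : StINS := Pool.Agent.Helper30.NK.hINS nPTR nKUR nFAC nPLU nRPW
theorem nPLS : StPLS := Pool.Agent.Helper64.NK.hPLS nPTR nKUR nFAC nPLU nRPW
theorem nEDF : StEDF := Pool.Agent.Helper24.NK.hEDF nKCA nKCB nMNR nKUR nFCY nPER nPLU nRPW
theorem nFDL : StFDL := Pool.Agent.Helper80.NK.hFDL nKCA nKUR nRDL nFAC nFCY nPER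
theorem nFPA : StFPA := Pool.Agent.Helper47.NK.hFPA nKCA nKCB nPAR nMNR nPLS
theorem nFPB : StFPB := Pool.Agent.Helper83.NK.hFPB nKCA nKCB nPAR nMNR nPLS
theorem nFPC : StFPC := Pool.Agent.Helper28.NK.hFPC nMNR nPLS
theorem nEXM : StEXM := Pool.Agent.Helper19.NK.hEXM nPTR nKCA
theorem nHCN : StHCN := Pool.Agent.Helper58.NK.hHCN
theorem nSTA : StSTA := Pool.Agent.Helper1.NK.hSTA nKCA nHCN nTUT nINS nFPA
theorem nSTB : StSTB := Pool.Agent.Helper79.NK.hSTB nKCA nHCN nTUT nCMB nCMC nCRX nSTA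
theorem nSTC : StSTC := Pool.Agent.Helper9.NK.hSTC nKCA nFPA nFPB nFPC nEDF
theorem nSTD : StSTD := Pool.Agent.Helper96.NK.hSTD nKCA nHCN nSTB nINS nTUT nFDL nSTC

end Pool.Agent.Helper12.MA
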