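import Pool.Agent.Helper12.MA.StD
import Pool.Agent.Helper12.MA.Lib

set_option autoImplicit false

namespace Pool.Agent.Helper12.MA

open Pool.Agent.Helper51.AJ (IsMinor Planar Apex ExMinor Con Tch)
open Pool.Agent.Helper12.NK (rst Kc add cnt Pcy IsFace Cof plus)

private theorem comp_ex {V : Type} (G : SimpleGraph V) (W : Set V) (d : V) (hd : d ∈ W) :
    ∃ D : Set V, D ⊆ W ∧ d ∈ D ∧ Con G D ∧ ∀ a ∈ D, ∀ b ∈ W, G.Adj a b → b ∈ D := by
  refine ⟨{b | Relation.ReflTransGen (fun a b => G.Adj a b ∧ b ∈ W) d b}, ?_, ?_, ?_, ?_⟩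
  · intro b hb
    rcases Relation.ReflTransGen.cases_tail hb with h | ⟨c, _, h⟩
    · rw [h]; exact hd
    · exact h.2
  · exact Relation.ReflTransGen.refl
  · have key : ∀ b (h : b ∈ {b | Relation.ReflTransGen (fun a b => G.Adj a b ∧ b ∈ W) d b}),
        (G.induce {b | Relation.ReflTransGen (fun a b => G.Adj a b ∧ b ∈ W) d b}).Reachable
          ⟨d, Relation.ReflTransGen.refl⟩ ⟨b, h⟩ := by
      intro b h
      have h' : Relation.ReflTransGen (fun a b => G.Adj a b ∧ b ∈ W) d b := h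
      induction h' with
      | refl => exact SimpleGraph.Reachable.refl _
      | @tail b c h1 h2 ih =>
        refine (ih h1).trans (SimpleGraph.Adj.reachable ?_)
        simpa using h2.1
    refine (SimpleGraph.connected_iff _).2 ⟨?_, ⟨⟨d, Relation.ReflTransGen.refl⟩⟩⟩
    intro a b
    exact (key a.1 a.2).symm.trans (key b.1 b.2)
  · intro a ha b hb hab
    exact Relation.ReflTransGen.tail ha ⟨hab, hb⟩

private theorem card4 {V : Type} [Finite V] (a b c d : V) : ({a, b, c, d} : Set V).ncard ≤ 4 := by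
  have h1 := Set.ncard_insert_le a {b, c, d}
  have h2 := Set.ncard_insert_le b {c, d}
  have h3 := Set.ncard_insert_le c {d}
  rw [Set.ncard_singleton] at h3
  omega

private theorem card5 {V : Type} [Finite V] (a b c d e : V) : ({a, b, c, d, e} : Set V).ncard ≤ 5 := by
  have h1 := Set.ncard_insert_le a {b, c, d, e}
  have h2 := card4 b c d e
  omega

/-- the main step: a vertex `q` which is touched by no component -/
private theorem core {V : Type} [Finite V] (hBAS : StBAS) (G : SimpleGraph V) (x x' y q₁ q₂ q₃ s : V) (hb : Bh G)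
    (hxx : G.Adj x x') (hS : Srv G s x x') (D : Set V)
    (hn : ∀ c, G.Adj q₁ c → c = s ∨ c = x ∨ c = x' ∨ c = q₂ ∨ c = q₃) :
    DSc G q₁ s x x' q₂ q₃ := by
  obtain ⟨-, -, -, hdeg, -, -, -⟩ := hBAS V G hb
  have h5 := hdeg q₁
  have hsub : {a | G.Adj q₁ a} ⊆ {s, x, x', q₂, q₃} := by
    intro c hc
    have := hn c hc
    simpa using this
  have hle := Set.ncard_le_ncard hsub (Set.toFinite _)
  have hc5 := card5 s x x' q₂ q₃
  have heq : {a | G.Adj q₁ a} = {s, x, x', q₂, q₃} := Set.eq_of_subset_of_ncard_le hsub (by omega) (Set.toFinite _)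
  have h55 : ({s, x, x', q₂, q₃} : Set V).ncard = 5 := by rw [← heq] at hc5 ⊢; omega
  refine ⟨?_, ?_, hxx, hS.2.2⟩
  · intro a
    have : a ∈ {a | G.Adj q₁ a} ↔ a ∈ ({s, x, x', q₂, q₃} : Set V) := by rw [heq]
    simpa using this
  · have no : ∀ a b c d : V, ({s, x, x', q₂, q₃} : Set V) ⊆ {a, b, c, d} → False := by
      intro a b c d h
      have h1 := Set.ncard_le_ncard h (Set.toFinite _)
      have h2 := card4 a b c d
      omega
    refine ⟨?_, ?_, ?_, ?_, ?_, ?_, ?_, ?_, ?_, ?_⟩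
    · intro h; subst h; exact no s x' q₂ q₃ (by intro t ht; simp at ht ⊢; tauto)
    · intro h; subst h; exact no s x q₂ q₃ (by intro t ht; simp at ht ⊢; tauto)
    · intro h; subst h; exact no s x x' q₃ (by intro t ht; simp at ht ⊢; tauto)
    · intro h; subst h; exact no s x x' q₂ (by intro t ht; simp at ht ⊢; tauto)
    · intro h; subst h; exact no s x q₂ q₃ (by intro t ht; simp at ht ⊢; tauto)
    · intro h; subst h; exact no s x x' q₃ (by intro t ht; simp at ht ⊢; tauto)
    · intro h; subst h; exact no s x x' q₂ (by intro t ht; simp at ht ⊢; tauto)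
    · intro h; subst h; exact no s x x' q₃ (by intro t ht; simp at ht ⊢; tauto)
    · intro h; subst h; exact no s x x' q₂ (by intro t ht; simp at ht ⊢; tauto)
    · intro h; subst h; exact no s x x' q₂ (by intro t ht; simp at ht ⊢; tauto)

theorem hEXA (hBAS : StBAS) : StEXA := by
  intro V _ G x x' y q₁ q₂ q₃ q₄ s hb hE hS hs1 hs2 hs3
  obtain ⟨-, -, -, hdeg, -, hnb, -⟩ := hBAS V G hb
  have hmono : ∀ H H' : SimpleGraph V, H ≤ H' → Planar H' → Planar H := (nKCA V G Set.univ).2.2.2.2.2.1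
  obtain ⟨hsx, hsx', hpl⟩ := hS
  have hxx : G.Adj x x' := (hE.nx x').2 (by simp)
  have a1 : G.Adj x q₁ := (hE.nx q₁).2 (by simp)
  have a2 : G.Adj x q₂ := (hE.nx q₂).2 (by simp)
  have a3 : G.Adj x q₃ := (hE.nx q₃).2 (by simp)
  have b1 : G.Adj x' q₁ := (hE.nx' q₁).2 (by simp)
  have b2 : G.Adj x' q₂ := (hE.nx' q₂).2 (by simp)
  have b3 : G.Adj x' q₃ := (hE.nx' q₃).2 (by simp)
  have nxx := G.ne_of_adj hxx
  have n1 := G.ne_of_adj a1
  have n2 := G.ne_of_adj a2
  have n3 := G.ne_of_adj a3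
  have m1 := G.ne_of_adj b1
  have m2 := G.ne_of_adj b2
  have m3 := G.ne_of_adj b3
  have no : ∀ a b c d : V, (∀ t, G.Adj x t → t = a ∨ t = b ∨ t = c ∨ t = d) → False := by
    intro a b c d h
    have h0 := hdeg x
    have h1 : {t | G.Adj x t} ⊆ {a, b, c, d} := by
      intro t ht
      simpa using h t ht
    have h2 := Set.ncard_le_ncard h1 (Set.toFinite _)
    have h3 := card4 a b c d
    omega
  have h12 : q₁ ≠ q₂ := by
    intro h
    exact no y x' q₁ q₃ (fun t ht => by have := (hE.nx t).1 ht; rw [← h] at this; tauto)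
  have h13 : q₁ ≠ q₃ := by
    intro h
    exact no y x' q₁ q₂ (fun t ht => by have := (hE.nx t).1 ht; rw [← h] at this; tauto)
  have h23 : q₂ ≠ q₃ := by
    intro h
    exact no y x' q₁ q₂ (fun t ht => by have := (hE.nx t).1 ht; rw [← h] at this; tauto)
  -- a component
  have hW : ∀ W : Set V, W = ({s, x, x', q₁, q₂, q₃} : Set V)ᶜ → ∀ D : Set V, D ⊆ W → D.Nonempty → Con G D →
      (∀ a ∈ D, ∀ b ∈ W, G.Adj a b → b ∈ D) → (q₁ ∉ Nb G D ∨ q₂ ∉ Nb G D ∨ q₃ ∉ Nb G D) ∧ y ∈ D := by
    intro W hWd D hDW hDne hDc hcl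
    have hout : ∀ a ∈ D, a ≠ s ∧ a ≠ x ∧ a ≠ x' ∧ a ≠ q₁ ∧ a ≠ q₂ ∧ a ≠ q₃ := by
      intro a ha
      have := hDW ha
      rw [hWd] at this
      simpa using this
    have hNb : Nb G D ⊆ {s, x, x', q₁, q₂, q₃} := by
      rintro b ⟨hbD, a, ha, hab⟩
      by_contra hcon
      exact hbD (hcl a ha b (by rw [hWd]; exact hcon) hab)
    have hthree : q₁ ∉ Nb G D ∨ q₂ ∉ Nb G D ∨ q₃ ∉ Nb G D := by
      by_contra hcon
      push Not at hcon
      obtain ⟨⟨-, c1, hc1, e1⟩, ⟨-, c2, hc2, e2⟩, ⟨-, c3, hc3, e3⟩⟩ := hcon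
      have hM := (nMNR V (rst (dl G x x') {s}ᶜ) hpl).2
      have adj : ∀ a b, G.Adj a b → a ≠ s → b ≠ s → (a ≠ x ∨ b ≠ x') → (a ≠ x' ∨ b ≠ x) → (rst (dl G x x') {s}ᶜ).Adj a b := by
        intro a b h h1 h2 h3 h4
        refine ⟨⟨h, ?_, ?_⟩, h1, h2⟩
        · rintro ⟨h5, h6⟩; tauto
        · rintro ⟨h5, h6⟩; tauto
      have hDc' : Con (rst (dl G x x') {s}ᶜ) D := by
        have h1 := (nKCA V G Set.univ).2.2.2.2.1 (rst (dl G x x') {s}ᶜ) D ?_
        · exact h1.1 hDc
        · intro a ha b hb'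
          constructor
          · intro h
            exact adj a b h (hout a ha).1 (hout b hb').1 (Or.inl (hout a ha).2.1) (Or.inl (hout a ha).2.2.1)
          · intro h
            exact h.1.1
      have sing : ∀ v : V, Con (rst (dl G x x') {s}ᶜ) {v} := fun v => Pool.Agent.Helper51.AJ.con_singleton _ v
      refine hM ![{x}, {x'}, D] ![{q₁}, {q₂}, {q₃}] ?_ ?_ ?_ ?_ ?_ ?_
      · intro i
        fin_cases i
        · exact sing x
        · exact sing x'
        · exact hDc'
      · intro i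
        fin_cases i
        · exact sing q₁
        · exact sing q₂
        · exact sing q₃
      · intro i j hij
        fin_cases i <;> fin_cases j <;> simp at hij ⊢
        · exact nxx
        · exact fun h => (hout x h).2.1 rfl
        · exact nxx.symm
        · exact fun h => (hout x' h).2.2.1 rfl
        · exact fun h => (hout x h).2.1 rfl
        · exact fun h => (hout x' h).2.2.1 rfl
      · intro i j hij
        fin_cases i <;> fin_cases j <;> simp at hij ⊢
        · exact h12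
        · exact h13
        · exact h12.symm
        · exact h23
        · exact h13.symm
        · exact h23.symm
      · intro i j
        fin_cases i <;> fin_cases j <;> simp
        · exact n1
        · exact n2
        · exact n3
        · exact m1
        · exact m2
        · exact m3
        · exact fun h => (hout q₁ h).2.2.2.1 rfl
        · exact fun h => (hout q₂ h).2.2.2.2.1 rfl
        · exact fun h => (hout q₃ h).2.2.2.2.2 rfl
      · intro i j
        fin_cases i <;> fin_cases j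
        · exact ⟨x, rfl, q₁, rfl, adj _ _ a1 hsx.symm hs1.symm (Or.inr m1.symm) (Or.inl nxx)⟩
        · exact ⟨x, rfl, q₂, rfl, adj _ _ a2 hsx.symm hs2.symm (Or.inr m2.symm) (Or.inl nxx)⟩
        · exact ⟨x, rfl, q₃, rfl, adj _ _ a3 hsx.symm hs3.symm (Or.inr m3.symm) (Or.inl nxx)⟩
        · exact ⟨x', rfl, q₁, rfl, adj _ _ b1 hsx'.symm hs1.symm (Or.inl nxx.symm) (Or.inr n1.symm)⟩
        · exact ⟨x', rfl, q₂, rfl, adj _ _ b2 hsx'.symm hs2.symm (Or.inl nxx.symm) (Or.inr n2.symm)⟩
        · exact ⟨x', rfl, q₃, rfl, adj _ _ b3 hsx'.symm hs3.symm (Or.inl nxx.symm) (Or.inr n3.symm)⟩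
        · exact ⟨c1, hc1, q₁, rfl, adj _ _ e1 (hout c1 hc1).1 hs1.symm (Or.inl (hout c1 hc1).2.1) (Or.inl (hout c1 hc1).2.2.1)⟩
        · exact ⟨c2, hc2, q₂, rfl, adj _ _ e2 (hout c2 hc2).1 hs2.symm (Or.inl (hout c2 hc2).2.1) (Or.inl (hout c2 hc2).2.2.1)⟩
        · exact ⟨c3, hc3, q₃, rfl, adj _ _ e3 (hout c3 hc3).1 hs3.symm (Or.inl (hout c3 hc3).2.1) (Or.inl (hout c3 hc3).2.2.1)⟩
    refine ⟨hthree, ?_⟩
    -- `x` is a neighbour of `D`
    have hx : x ∈ Nb G D := by
      by_contra hxn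
      have h4 : (Nb G D).ncard ≤ 4 := by
        rcases hthree with h | h | h
        · have : Nb G D ⊆ {s, x', q₂, q₃} := by
            intro c hc
            have h1 := hNb hc
            have h2 : c ≠ x := fun h' => hxn (h' ▸ hc)
            have h3 : c ≠ q₁ := fun h' => h (h' ▸ hc)
            simp only [Set.mem_insert_iff, Set.mem_singleton_iff] at h1 ⊢
            tauto
          exact (Set.ncard_le_ncard this (Set.toFinite _)).trans (card4 _ _ _ _)
        · have : Nb G D ⊆ {s, x', q₁, q₃} := by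
            intro c hc
            have h1 := hNb hc
            have h2 : c ≠ x := fun h' => hxn (h' ▸ hc)
            have h3 : c ≠ q₂ := fun h' => h (h' ▸ hc)
            simp only [Set.mem_insert_iff, Set.mem_singleton_iff] at h1 ⊢
            tauto
          exact (Set.ncard_le_ncard this (Set.toFinite _)).trans (card4 _ _ _ _)
        · have : Nb G D ⊆ {s, x', q₁, q₂} := by
            intro c hc
            have h1 := hNb hc
            have h2 : c ≠ x := fun h' => hxn (h' ▸ hc)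
            have h3 : c ≠ q₃ := fun h' => h (h' ▸ hc)
            simp only [Set.mem_insert_iff, Set.mem_singleton_iff] at h1 ⊢
            tauto
          exact (Set.ncard_le_ncard this (Set.toFinite _)).trans (card4 _ _ _ _)
      have h5 := hnb D hDne h4
      have h6 : x ∈ D ∪ Nb G D := by rw [h5]; trivial
      rcases h6 with h6 | h6
      · exact (hout x h6).2.1 rfl
      · exact hxn h6
    obtain ⟨-, a, ha, hax⟩ := hx
    have h7 := (hE.nx a).1 hax.symm
    obtain ⟨o1, o2, o3, o4, o5, o6⟩ := hout a ha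
    rcases h7 with h7 | h7 | h7 | h7 | h7
    · rw [← h7]; exact ha
    · exact absurd h7 o3
    · exact absurd h7 o4
    · exact absurd h7 o5
    · exact absurd h7 o6
  -- `W` is nonempty
  have hWne : (({s, x, x', q₁, q₂, q₃} : Set V)ᶜ).Nonempty := by
    by_contra hemp
    rw [Set.not_nonempty_iff_eq_empty, Set.compl_empty_iff] at hemp
    have h8 := hb.n8
    rw [← Set.ncard_univ, ← hemp] at h8
    have h1 := Set.ncard_insert_le s {x, x', q₁, q₂, q₃}
    have h2 := card5 x x' q₁ q₂ q₃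
    omega
  obtain ⟨w, hw⟩ := hWne
  obtain ⟨D, hDW, hwD, hDc, hDcl⟩ := comp_ex G _ w hw
  obtain ⟨hthree, hyD⟩ := hW _ rfl D hDW ⟨w, hwD⟩ hDc hDcl
  have hall : ∀ b ∈ (({s, x, x', q₁, q₂, q₃} : Set V)ᶜ), b ∈ D := by
    intro b hb'
    obtain ⟨D', hDW', hbD', hDc', hDcl'⟩ := comp_ex G _ b hb'
    obtain ⟨-, hyD'⟩ := hW _ rfl D' hDW' ⟨b, hbD'⟩ hDc' hDcl'
    -- `D'` is contained in `D`
    have key : ∀ (u v : D') (_ : (G.induce D').Walk u v), u.1 ∈ D → v.1 ∈ D := by
      intro u v p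
      induction p with
      | nil => exact id
      | @cons u v w h p ih =>
        intro hu
        exact ih (hDcl _ hu _ (hDW' v.2) (by simpa using h))
    obtain ⟨p⟩ := hDc'.preconnected ⟨y, hyD'⟩ ⟨b, hbD'⟩
    exact key _ _ p hyD
  rcases hthree with h | h | h
  · refine ⟨q₁, s, x, x', q₂, q₃, core hBAS G x x' y q₁ q₂ q₃ s hb hxx ⟨hsx, hsx', hpl⟩ D ?_⟩
    intro c hc
    by_contra hcon
    push Not at hcon
    have hcq : c ≠ q₁ := (G.ne_of_adj hc).symm
    have hcD : c ∈ D := hall c (by simp; tauto)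
    exact h ⟨fun h' => by have := hDW h'; simp at this, c, hcD, hc.symm⟩
  · refine ⟨q₂, s, x, x', q₁, q₃, core hBAS G x x' y q₂ q₁ q₃ s hb hxx ⟨hsx, hsx', hpl⟩ D ?_⟩
    intro c hc
    by_contra hcon
    push Not at hcon
    have hcq : c ≠ q₂ := (G.ne_of_adj hc).symm
    have hcD : c ∈ D := hall c (by simp; tauto)
    exact h ⟨fun h' => by have := hDW h'; simp at this, c, hcD, hc.symm⟩
  · refine ⟨q₃, s, x, x', q₁, q₂, core hBAS G x x' y q₃ q₁ q₂ s hb hxx ⟨hsx, hsx', hpl⟩ D ?_⟩
    intro c hc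
    by_contra hcon
    push Not at hcon
    have hcq : c ≠ q₃ := (G.ne_of_adj hc).symm
    have hcD : c ∈ D := hall c (by simp; tauto)
    exact h ⟨fun h' => by have := hDW h'; simp at this, c, hcD, hc.symm⟩

end Pool.Agent.Helper12.MA
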