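import Pool.Agent.Helper12.MA.StB
import Pool.Agent.Helper12.MA.Lib

set_option autoImplicit false

namespace Pool.Agent.Helper12.MA

open Pool.Agent.Helper51.AJ (IsMinor Planar Apex ExMinor Con Tch)
open Pool.Agent.Helper12.NK (rst Kc add cnt Pcy IsFace Cof plus)

theorem hSVF (hBAS : StBAS) : StSVF := by
  intro V _ G hb
  obtain ⟨-, hK3, -, hdeg, -, -, -⟩ := hBAS V G hb
  have hmono : ∀ H H' : SimpleGraph V, H ≤ H' → Planar H' → Planar H := (nKCA V G Set.univ).2.2.2.2.2.1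
  have h1 : ∀ v t, t ≠ v → Planar (rst G {t, v}ᶜ) → ∀ F, IsFace G {t, v}ᶜ F → ¬ ({a | G.Adj v a} \ {t} ⊆ F) := by
    intro v t htv hp F hF hN
    have h2 := nINS V G {t, v}ᶜ F ({a | G.Adj v a} \ {t}) v (hK3 t v) hp hF hN (by simp)
    refine hb.hn t (hmono _ _ ?_ h2)
    intro a b hab
    obtain ⟨hab, ha, hb'⟩ := hab
    have ha' : a ≠ t := ha
    have hb'' : b ≠ t := hb'
    by_cases hav : a = v
    · right; left
      exact ⟨hav, ⟨by rw [← hav]; exact hab, hb''⟩, by rw [← hav]; exact (G.ne_of_adj hab).symm⟩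
    · by_cases hbv : b = v
      · right; right
        exact ⟨hbv, ⟨by rw [← hbv]; exact hab.symm, ha'⟩, hav⟩
      · left
        exact ⟨hab, by simp [ha', hav], by simp [hb'', hbv]⟩
  refine ⟨h1, ?_⟩
  intro v w t hvw hS
  obtain ⟨htv, htw, hpl⟩ := hS
  have hvw' : v ≠ w := G.ne_of_adj hvw
  have hp : Planar (rst G {t, v}ᶜ) := by
    refine hmono _ _ ?_ hpl
    intro a b hab
    obtain ⟨hab, ha, hb'⟩ := hab
    have hat : a ≠ t := fun h => ha (by simp [h])
    have hav : a ≠ v := fun h => ha (by simp [h])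
    have hbt : b ≠ t := fun h => hb' (by simp [h])
    have hbv : b ≠ v := fun h => hb' (by simp [h])
    exact ⟨⟨hab, fun h => hav h.1, fun h => hbv h.2⟩, hat, hbt⟩
  refine ⟨hp, ?_⟩
  have hN3 : 3 ≤ ({a | G.Adj v a} \ {w, t}).ncard := by
    have h3 := hdeg v
    have h4 := Set.ncard_le_ncard_sdiff_add_ncard {a | G.Adj v a} {w, t} (Set.toFinite _)
    have h5 : ({w, t} : Set V).ncard ≤ 2 := (Set.ncard_insert_le w {t}).trans (by rw [Set.ncard_singleton])
    omega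
  have hNU : {a | G.Adj v a} \ {w, t} ⊆ ({t, v}ᶜ : Set V) := by
    rintro a ⟨ha, ha'⟩
    simp only [Set.mem_setOf_eq] at ha
    have : a ≠ v := (G.ne_of_adj ha).symm
    simp only [Set.mem_insert_iff, Set.mem_singleton_iff, not_or] at ha'
    simp [ha'.2, this]
  have hpa : Planar (add (rst G {t, v}ᶜ) v ({a | G.Adj v a} \ {w, t})) := by
    refine hmono _ _ ?_ hpl
    intro a b hab
    rcases hab with ⟨hab, ha, hb'⟩ | ⟨rfl, ⟨hb1, hb2⟩, hba⟩ | ⟨rfl, ⟨hb1, hb2⟩, hba⟩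
    · have hat : a ≠ t := fun h => ha (by simp [h])
      have hav : a ≠ v := fun h => ha (by simp [h])
      have hbt : b ≠ t := fun h => hb' (by simp [h])
      have hbv : b ≠ v := fun h => hb' (by simp [h])
      exact ⟨⟨hab, fun h => hav h.1, fun h => hbv h.2⟩, hat, hbt⟩
    · have hbw : b ≠ w := fun h => hb2 (by simp [h])
      have hbt : b ≠ t := fun h => hb2 (by simp [h])
      exact ⟨⟨hb1, fun h => hbw h.2, fun h => hvw' h.1⟩, htv.symm, hbt⟩
    · have hbw : a ≠ w := fun h => hb2 (by simp [h])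
      have hbt : a ≠ t := fun h => hb2 (by simp [h])
      exact ⟨⟨hb1.symm, fun h => hvw' h.2, fun h => hbw h.1⟩, hbt, htv.symm⟩
  obtain ⟨m, c, hc, hNc, -⟩ := nTUT V G {t, v}ᶜ ({a | G.Adj v a} \ {w, t}) v (hK3 t v) hNU hN3 (by simp) hpa
  refine ⟨Set.range c, ⟨m, c, hc, rfl⟩, hNc, ?_⟩
  intro hw
  refine h1 v t htv hp (Set.range c) ⟨m, c, hc, rfl⟩ ?_
  rintro a ⟨ha, ha'⟩
  by_cases haw : a = w
  · rw [haw]; exact hw
  · exact hNc ⟨ha, by simp only [Set.mem_insert_iff, Set.mem_singleton_iff, not_or]; exact ⟨haw, ha'⟩⟩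

end Pool.Agent.Helper12.MA
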