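import Pool.Agent.Helper12.MA.StD
import Pool.Agent.Helper12.MA.Lib
import Pool.Agent.Helper32.MA.M_FAX
import Pool.Agent.Helper42.MA.M_FAY
import Pool.Agent.Helper46.MA.M_FNB
import Pool.Agent.Helper56.MA.M_EDG
import Pool.Agent.Helper13.MA.M_MRG
import Pool.Agent.Helper4.MA.M_FUE
import Pool.Agent.Helper80.MA.M_EFL
import Pool.Agent.Helper29.MA.M_EFZ
import Pool.Agent.Helper22.MA.M_PCL
import Pool.Agent.Helper15.MA.M_DGT
import Pool.Agent.Helper37.MA.M_LNV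
import Pool.Agent.Helper68.MA.M_WHE
import Pool.Agent.Helper9.MA.M_BAS
import Pool.Agent.Helper12.MA.M_SVF
import Pool.Agent.Helper99.MA.M_SPB
import Pool.Agent.Helper81.MA.M_CFG
import Pool.Agent.Helper85.MA.M_SYM
import Pool.Agent.Helper85.MA.M_RIM
import Pool.Agent.Helper2.MA.M_CRN
import Pool.Agent.Helper6.MA.M_HFA
import Pool.Agent.Helper94.MA.M_PAI
import Pool.Agent.Helper24.MA.M_OTY
import Pool.Agent.Helper51.MA.M_OTS
import Pool.Agent.Helper58.MA.M_ROT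
import Pool.Agent.Helper30.MA.M_DEG
import Pool.Agent.Helper86.MA.M_TOZ
import Pool.Agent.Helper98.MA.M_TOA
import Pool.Agent.Helper16.MA.M_TOB
import Pool.Agent.Helper27.MA.M_TOC
import Pool.Agent.Helper33.MA.M_TOD
import Pool.Agent.Helper46.MA.M_TOR
import Pool.Agent.Helper74.MA.M_OTT
import Pool.Agent.Helper77.MA.M_TGA
import Pool.Agent.Helper16.MA.M_CLS
import Pool.Agent.Helper41.MA.M_HTR
import Pool.Agent.Helper30.MA.M_PVA
import Pool.Agent.Helper71.MA.M_PVB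
import Pool.Agent.Helper35.MA.M_OTC
import Pool.Agent.Helper69.MA.M_CUA
import Pool.Agent.Helper39.MA.M_CUM
import Pool.Agent.Helper40.MA.M_CUN
import Pool.Agent.Helper43.MA.M_UNX
import Pool.Agent.Helper1.MA.M_ORD
import Pool.Agent.Helper96.MA.M_MIN
import Pool.Agent.Helper72.MA.M_GAA
import Pool.Agent.Helper44.MA.M_GAB
import Pool.Agent.Helper15.MA.M_ENS
import Pool.Agent.Helper84.MA.M_ENT
import Pool.Agent.Helper97.MA.M_MCA
import Pool.Agent.Helper11.MA.M_MCB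
import Pool.Agent.Helper31.MA.M_MCC
import Pool.Agent.Helper61.MA.M_MCD
import Pool.Agent.Helper62.MA.M_MCE
import Pool.Agent.Helper47.MA.M_MCF
import Pool.Agent.Helper74.MA.M_NCU
import Pool.Agent.Helper90.MA.M_WST
import Pool.Agent.Helper83.MA.M_WEM
import Pool.Agent.Helper26.MA.M_WIS
import Pool.Agent.Helper40.MA.M_FUX
import Pool.Agent.Helper32.MA.M_CRT
import Pool.Agent.Helper8.MA.M_DGC
import Pool.Agent.Helper74.MA.M_CNT
import Pool.Agent.Helper42.MA.M_SUM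
import Pool.Agent.Helper10.MA.M_SUX
import Pool.Agent.Helper25.MA.M_SUB
import Pool.Agent.Helper12.MA.M_EXA
import Pool.Agent.Helper84.MA.M_EXB
import Pool.Agent.Helper89.MA.M_UCA
import Pool.Agent.Helper7.MA.M_UCB
import Pool.Agent.Helper88.MA.M_UCC
import Pool.Agent.Helper53.MA.M_UCD
import Pool.Agent.Helper69.MA.M_EXS
import Pool.Agent.Helper37.MA.M_NSV
import Pool.Agent.Helper47.MA.M_HDD
import Pool.Agent.Helper9.MA.M_CVA
import Pool.Agent.Helper22.MA.M_CVN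

/-!
# Project MA: assembly of the modules
-/

set_option autoImplicit false

namespace Pool.Agent.Helper12.MA

theorem mFAX : StFAX := Pool.Agent.Helper32.MA.hFAX
theorem mFAY : StFAY := Pool.Agent.Helper42.MA.hFAY mFAX
theorem mFNB : StFNB := Pool.Agent.Helper46.MA.hFNB mFAX
theorem mEDG : StEDG := Pool.Agent.Helper56.MA.hEDG mFAX
theorem mMRG : StMRG := Pool.Agent.Helper13.MA.hMRG mFAX mFNB
theorem mFUE : StFUE := Pool.Agent.Helper4.MA.hFUE mFAX mFNB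
theorem mEFL : StEFL := Pool.Agent.Helper80.MA.hEFL mFAX mFNB
theorem mEFZ : StEFZ := Pool.Agent.Helper29.MA.hEFZ mFAX mFNB mMRG mEFL
theorem mPCL : StPCL := Pool.Agent.Helper22.MA.hPCL
theorem mDGT : StDGT := Pool.Agent.Helper15.MA.hDGT mPCL
theorem mLNV : StLNV := Pool.Agent.Helper37.MA.hLNV mFAX mFNB
theorem mWHE : StWHE := Pool.Agent.Helper68.MA.hWHE
theorem mBAS : StBAS := Pool.Agent.Helper9.MA.hBAS mEDG
theorem mSVF : StSVF := Pool.Agent.Helper12.MA.hSVF mBAS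
theorem mSPB : StSPB := Pool.Agent.Helper99.MA.hSPB mBAS
theorem mCFG : StCFG := Pool.Agent.Helper81.MA.hCFG mFAX mFNB mBAS
theorem mSYM : StSYM := Pool.Agent.Helper85.MA.hSYM mSPB
theorem mRIM : StRIM := Pool.Agent.Helper85.MA.hRIM mWHE mBAS
theorem mCRN : StCRN := Pool.Agent.Helper2.MA.hCRN mFAX mPCL mSYM mRIM
theorem mHFA : StHFA := Pool.Agent.Helper6.MA.hHFA mFAX mFAY mFNB mFUE mEFL mPCL mSYM mRIM mBAS
theorem mPAI : StPAI := Pool.Agent.Helper94.MA.hPAI mFAX mFAY mFNB mPCL mSYM mRIM mBAS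
theorem mOTY : StOTY := Pool.Agent.Helper24.MA.hOTY mEDG mBAS
theorem mOTS : StOTS := Pool.Agent.Helper51.MA.hOTS mFAY mSPB
theorem mROT : StROT := Pool.Agent.Helper58.MA.hROT mFAX mFAY mFNB mBAS
theorem mDEG : StDEG := Pool.Agent.Helper30.MA.hDEG mFNB mBAS mSYM
theorem mTOZ : StTOZ := Pool.Agent.Helper86.MA.hTOZ mEDG mBAS
theorem mTOA : StTOA := Pool.Agent.Helper98.MA.hTOA mFNB mBAS mSPB
theorem mTOB : StTOB := Pool.Agent.Helper16.MA.hTOB mFNB mEDG mBAS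
theorem mTOC : StTOC := Pool.Agent.Helper27.MA.hTOC mEDG mBAS
theorem mTOD : StTOD := Pool.Agent.Helper33.MA.hTOD mFAX mFNB mMRG mEFZ mBAS
theorem mTOR : StTOR := Pool.Agent.Helper46.MA.hTOR mFNB mBAS mSPB mTOZ mTOA mTOB mTOC mTOD
theorem mOTT : StOTT := Pool.Agent.Helper74.MA.hOTT mSYM mOTY mOTS mROT mTOR mDEG
theorem mTGA : StTGA := Pool.Agent.Helper77.MA.hTGA mFAX mFAY mPCL mRIM mCRN
theorem mCLS : StCLS := Pool.Agent.Helper16.MA.hCLS mFNB mMRG mBAS mSVF mSYM mCRN mHFA mPAI mOTT mTGA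
theorem mHTR : StHTR := Pool.Agent.Helper41.MA.hHTR mFNB mDGT mBAS mHFA mCLS
theorem mPVA : StPVA := Pool.Agent.Helper30.MA.hPVA mFNB mBAS mCRN mHFA mCLS mHTR
theorem mPVB : StPVB := Pool.Agent.Helper71.MA.hPVB mSYM mBAS mCRN mPVA
theorem mOTC : StOTC := Pool.Agent.Helper35.MA.hOTC mSPB mOTY mOTS mTGA mPVB
theorem mCUA : StCUA := Pool.Agent.Helper69.MA.hCUA mFNB mFAX mFAY mBAS mSYM mCRN mPVB
theorem mCUM : StCUM := Pool.Agent.Helper39.MA.hCUM mPCL mRIM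
theorem mCUN : StCUN := Pool.Agent.Helper40.MA.hCUN mBAS mSYM mPVB mCUA
theorem mUNX : StUNX := Pool.Agent.Helper43.MA.hUNX mBAS
theorem mORD : StORD := Pool.Agent.Helper1.MA.hORD mCUA
theorem mMIN : StMIN := Pool.Agent.Helper96.MA.hMIN mUNX mORD
theorem mGAA : StGAA := Pool.Agent.Helper72.MA.hGAA mFAX mFAY mPCL mRIM mCUA
theorem mGAB : StGAB := Pool.Agent.Helper44.MA.hGAB mFAX mFAY mLNV mPCL mBAS mRIM mCUA mGAA
theorem mENS : StENS := Pool.Agent.Helper15.MA.hENS mSYM mOTC mCUM mCUN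
theorem mENT : StENT := Pool.Agent.Helper84.MA.hENT mHFA mCLS mCUA mGAA mENS mSYM
theorem mMCA : StMCA := Pool.Agent.Helper97.MA.hMCA mBAS mFNB mHFA mCLS mENT
theorem mMCB : StMCB := Pool.Agent.Helper11.MA.hMCB mBAS mCRN mCLS mPVB mCUA mGAB mENS mENT mMCA
theorem mMCC : StMCC := Pool.Agent.Helper31.MA.hMCC mHFA mCLS mCUA mGAA mGAB mENS mENT mMCA mMCB mSYM
theorem mMCD : StMCD := Pool.Agent.Helper61.MA.hMCD mFNB mBAS mSYM mPVB mCUA mCUM mUNX mORD mGAA mGAB mMCC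
theorem mMCE : StMCE := Pool.Agent.Helper62.MA.hMCE mFAY mFNB mSYM mBAS mRIM mPCL mCRN mHFA mCLS mPVB mCUA mCUM mUNX mORD mGAA mGAB mENS mMCC mMCD
theorem mMCF : StMCF := Pool.Agent.Helper47.MA.hMCF mBAS mCRN mHFA mCLS mPVB mCUA mGAA mENS mENT mMCE mSYM
theorem mNCU : StNCU := Pool.Agent.Helper74.MA.hNCU mSYM mCUA mMIN mENS mMCE mMCF
theorem mWST : StWST := Pool.Agent.Helper90.MA.hWST mFNB mBAS mCRN mHFA mCLS mHTR mPVB mOTC mNCU
theorem mWEM : StWEM := Pool.Agent.Helper83.MA.hWEM mPCL mBAS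
theorem mWIS : StWIS := Pool.Agent.Helper26.MA.hWIS mBAS mCFG mWST mWEM
theorem mFUX : StFUX := Pool.Agent.Helper40.MA.hFUX mFAX mEDG mFUE
theorem mCRT : StCRT := Pool.Agent.Helper32.MA.hCRT mFNB mEFZ mBAS mSVF
theorem mDGC : StDGC := Pool.Agent.Helper8.MA.hDGC mFNB mMRG mBAS mCRT
theorem mCNT : StCNT := Pool.Agent.Helper74.MA.hCNT mSVF mCRT
theorem mSUM : StSUM := Pool.Agent.Helper42.MA.hSUM mBAS mSPB
theorem mSUX : StSUX := Pool.Agent.Helper10.MA.hSUX mBAS mSPB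
theorem mSUB : StSUB := Pool.Agent.Helper25.MA.hSUB mBAS mSPB mSUM mSUX
theorem mEXA : StEXA := Pool.Agent.Helper12.MA.hEXA mBAS
theorem mEXB : StEXB := Pool.Agent.Helper84.MA.hEXB mFNB mEFL mBAS
theorem mUCA : StUCA := Pool.Agent.Helper89.MA.hUCA mPCL mBAS
theorem mUCB : StUCB := Pool.Agent.Helper7.MA.hUCB mFAY mPCL mBAS
theorem mUCC : StUCC := Pool.Agent.Helper88.MA.hUCC mFUE mPCL mBAS mFUX
theorem mUCD : StUCD := Pool.Agent.Helper53.MA.hUCD mFNB mMRG mBAS mTOR mDGC mCNT mUCA mUCB mUCC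
theorem mEXS : StEXS := Pool.Agent.Helper69.MA.hEXS mSUB mEXA mEXB mUCD
theorem mNSV : StNSV := Pool.Agent.Helper37.MA.hNSV
theorem mHDD : StHDD := Pool.Agent.Helper47.MA.hHDD
theorem mCVA : StCVA := Pool.Agent.Helper9.MA.hCVA
theorem mCVN : StCVN := Pool.Agent.Helper22.MA.hCVN

end Pool.Agent.Helper12.MA
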