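import Pool.Agent.Helper12.MA.StD
import Pool.Agent.Helper12.MA.Lib

/-!
# Project MA: the final steps
-/

set_option autoImplicit false

namespace Pool.Agent.Helper12.MA

open Pool.Agent.Helper51.AJ
open Pool.Agent.Helper12.NK (rst Kc add cnt Pcy IsFace Cof plus)

/-- a 5-connected excluded minor of the class of apex graphs is `K₆` or `W8` -/
theorem fin (hWIS : StWIS) (hEXS : StEXS) (hNSV : StNSV) (hHDD : StHDD) (V : Type) [Finite V] (G : SimpleGraph V)
    (hG : ExMinor G) (h5 : ∀ X : Set V, X.ncard ≤ 4 → (G.induce Xᶜ).Preconnected) :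
    Nonempty ((⊤ : SimpleGraph (Fin 6)) ≃g G) ∨ Nonempty (W8 ≃g G) := by
  by_cases h6 : Nat.card V ≤ 6
  · exact Or.inl (Pool.Agent.Helper12.NK.small G hG.1 h6)
  · right
    have h7 : 7 ≤ Nat.card V := by omega
    obtain ⟨hN, hD, hK⟩ := nEXM V G h7 hG
    have hkc : ∀ X : Set V, X.ncard ≤ 4 → Con G Xᶜ := by
      intro X hX
      have hne : (Xᶜ : Set V).Nonempty := by
        by_contra hemp
        rw [Set.not_nonempty_iff_eq_empty, Set.compl_empty_iff] at hemp
        rw [hemp, Set.ncard_univ] at hX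
        omega
      have : Nonempty (Xᶜ : Set V) := hne.to_subtype
      exact ⟨h5 X hX⟩
    by_cases h8 : Nat.card V = 7
    · exact (hNSV V G h8 hkc hN hK).elim
    · have hb : Bh G := ⟨hkc, by omega, hN, fun x y hxy => hHDD V G hD x y hxy⟩
      obtain ⟨z, v, p, q, r, r', hds⟩ := hEXS V G hb
      exact hWIS V G z v p q r r' hb hds

/-- the vertices of `W8` -/
def e8 : Fin 8 ≃ Fin 2 ⊕ (Fin 3 × Fin 2) where
  toFun := ![Sum.inl 0, Sum.inl 1, Sum.inr (0, 0), Sum.inr (1, 0), Sum.inr (2, 0), Sum.inr (0, 1), Sum.inr (1, 1), Sum.inr (2, 1)]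
  invFun := Sum.elim ![0, 1] (fun x => (![![2, 5], ![3, 6], ![4, 7]] : Fin 3 → Fin 2 → Fin 8) x.1 x.2)
  left_inv := by
    intro a
    fin_cases a <;> rfl
  right_inv := by
    intro a
    rcases a with a | ⟨a, b⟩
    · fin_cases a <;> rfl
    · fin_cases a <;> fin_cases b <;> rfl

/-- `W8` is the join of two isolated vertices with the triangular prism -/
theorem iso8 : Nonempty (W8 ≃g jn (⊥ : SimpleGraph (Fin 2)) ((⊤ : SimpleGraph (Fin 3)) □ (⊤ : SimpleGraph (Fin 2)))) := by
  refine ⟨⟨e8, ?_⟩⟩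
  intro a b
  fin_cases a <;> fin_cases b <;> simp [e8, W8, jn, SimpleGraph.boxProd_adj, SimpleGraph.fromRel_adj]

/-- in a complete graph everything is connected -/
theorem pre6 {V : Type} {G : SimpleGraph V} (e : (⊤ : SimpleGraph (Fin 6)) ≃g G) (X : Set V) : (G.induce Xᶜ).Preconnected := by
  intro a b
  by_cases hab : a = b
  · rw [hab]
  · have h : G.Adj a.1 b.1 := by
      have h1 : (⊤ : SimpleGraph (Fin 6)).Adj (e.symm a.1) (e.symm b.1) := by
        rw [SimpleGraph.top_adj]
        intro h2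
        exact hab (Subtype.ext (e.symm.injective h2))
      exact (e.symm.map_adj_iff).1 h1
    have h2 : (G.induce Xᶜ).Adj a b := h
    exact h2.reachable

/-- 5-connectivity is invariant under isomorphism -/
theorem pre_iso {V : Type} {G : SimpleGraph V} (e : W8 ≃g G) (h : StCVA) (X : Set V) (hX : X.ncard ≤ 4) :
    (G.induce Xᶜ).Preconnected := by
  have hn : (e ⁻¹' X).ncard ≤ 4 := by
    have h1 : (e ⁻¹' X).ncard = X.ncard := by
      have h2 : e ⁻¹' X = e.symm '' X := by
        ext a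
        constructor
        · intro ha
          exact ⟨e a, ha, e.symm_apply_apply a⟩
        · rintro ⟨b, hb, rfl⟩
          show e (e.symm b) ∈ X
          rw [e.apply_symm_apply]
          exact hb
      rw [h2]
      exact Set.ncard_image_of_injective X e.symm.injective
    omega
  have hp := h (e ⁻¹' X) hn
  intro a b
  have ha : e.symm a.1 ∈ (e ⁻¹' X)ᶜ := by
    intro h1
    have h2 : e (e.symm a.1) ∈ X := h1
    rw [e.apply_symm_apply] at h2
    exact a.2 h2
  have hb : e.symm b.1 ∈ (e ⁻¹' X)ᶜ := by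
    intro h1
    have h2 : e (e.symm b.1) ∈ X := h1
    rw [e.apply_symm_apply] at h2
    exact b.2 h2
  have hr := hp ⟨e.symm a.1, ha⟩ ⟨e.symm b.1, hb⟩
  let f : W8.induce (e ⁻¹' X)ᶜ →g G.induce Xᶜ :=
    ⟨fun x => ⟨e x.1, fun h1 => x.2 h1⟩, fun {x y} hxy => (e.map_adj_iff).2 hxy⟩
  have hm := hr.map f
  have ea : f ⟨e.symm a.1, ha⟩ = a := Subtype.ext (e.apply_symm_apply a.1)
  have eb : f ⟨e.symm b.1, hb⟩ = b := Subtype.ext (e.apply_symm_apply b.1)
  rw [ea, eb] at hm
  exact hm

end Pool.Agent.Helper12.MA
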