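import Pool.Agent.Helper51.AJ.Fin
import Pool.Agent.Helper51.AJ.M_FNA
import Pool.Agent.Helper51.AJ.M_FCO
import Pool.Agent.Helper44.AJ.M_TRN
import Pool.Agent.Helper11.AJ.M_JNM
import Pool.Agent.Helper41.AJ.M_CON
import Pool.Agent.Helper80.AJ.M_PTH
import Pool.Agent.Helper98.AJ.M_DEG
import Pool.Agent.Helper29.AJ.M_ACY
import Pool.Agent.Helper75.AJ.M_PLA
import Pool.Agent.Helper22.AJ.M_PLB
import Pool.Agent.Helper84.AJ.M_K4C
import Pool.Agent.Helper97.AJ.M_NFO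
import Pool.Agent.Helper44.AJ.M_ATT
import Pool.Agent.Helper16.AJ.M_SPL
import Pool.Agent.Helper29.AJ.M_THE
import Pool.Agent.Helper90.AJ.M_EDG
import Pool.Agent.Helper40.AJ.M_BBA
import Pool.Agent.Helper80.AJ.M_BBB
import Pool.Agent.Helper32.AJ.M_MTH
import Pool.Agent.Helper42.AJ.M_FEL
import Pool.Agent.Helper54.AJ.M_FCK
import Pool.Agent.Helper72.AJ.M_FEX
import Pool.Agent.Helper44.AJ.M_ASA
import Pool.Agent.Helper90.AJ.M_ASB
import Pool.Agent.Helper66.AJ.M_ASC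
import Pool.Agent.Helper10.AJ.M_ASD
import Pool.Agent.Helper6.AJ.M_DSA
import Pool.Agent.Helper38.AJ.M_DSB

/-!
# Project MA: the excluded minors with disconnected complement (project AJ, see the hand-in JoinExcludedMinors), for the converse
-/

set_option autoImplicit false

namespace Pool.Agent.Helper12.MA

open Pool.Agent.Helper51.AJ

theorem join (V : Type) [Finite V] (G : SimpleGraph V) :
    (ExMinor G ∧ (¬ G.Preconnected ∨ ¬ Gᶜ.Preconnected)) ↔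
      (Nonempty ((⊤ : SimpleGraph (Fin 6)) ≃g G) ∨
        Nonempty (jn (⊤ : SimpleGraph (Fin 1)) (completeBipartiteGraph (Fin 3) (Fin 3)) ≃g G) ∨
        Nonempty (jn (⊥ : SimpleGraph (Fin 3)) ((⊤ : SimpleGraph (Fin 3)) ⊕g (⊤ : SimpleGraph (Fin 1))) ≃g G) ∨
        Nonempty (jn (⊥ : SimpleGraph (Fin 2)) ((⊤ : SimpleGraph (Fin 3)) □ (⊤ : SimpleGraph (Fin 2))) ≃g G) ∨
        Nonempty ((⊤ : SimpleGraph (Fin 5)) ⊕g (⊤ : SimpleGraph (Fin 5)) ≃g G) ∨
        Nonempty ((⊤ : SimpleGraph (Fin 5)) ⊕g completeBipartiteGraph (Fin 3) (Fin 3) ≃g G) ∨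
        Nonempty (completeBipartiteGraph (Fin 3) (Fin 3) ⊕g completeBipartiteGraph (Fin 3) (Fin 3) ≃g G)) := by
  have tTRN : StTrn := Pool.Agent.Helper44.AJ.hTRN
  have tJNM : StJnm := Pool.Agent.Helper11.AJ.hJNM tTRN
  have tCON : StCon := Pool.Agent.Helper41.AJ.hCON
  have tPTH : StPth := Pool.Agent.Helper80.AJ.hPTH tCON
  have tDEG : StDeg := Pool.Agent.Helper98.AJ.hDEG tCON
  have tACY : StAcy := Pool.Agent.Helper29.AJ.hACY tCON
  have tPLA : StPla := Pool.Agent.Helper75.AJ.hPLA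
  have tPLB : StPlb := Pool.Agent.Helper22.AJ.hPLB tCON tDEG tACY
  have tK4C : StK4c := Pool.Agent.Helper84.AJ.hK4C tCON
  have tNFO : StNfo := Pool.Agent.Helper97.AJ.hNFO tCON
  have tATT : StAtt := Pool.Agent.Helper44.AJ.hATT tCON tPTH
  have tSPL : StSpl := Pool.Agent.Helper16.AJ.hSPL tCON tATT
  have tTHE : StThe := Pool.Agent.Helper29.AJ.hTHE tSPL
  have tEDG : StEdg := Pool.Agent.Helper90.AJ.hEDG tCON tATT
  have tBBA : StBba := Pool.Agent.Helper40.AJ.hBBA tSPL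
  have tBBB : StBbb := Pool.Agent.Helper80.AJ.hBBB tSPL
  have tMTH : StMth := Pool.Agent.Helper32.AJ.hMTH tK4C tNFO tTHE tEDG tBBA tBBB
  have tFEL : StFel := Pool.Agent.Helper42.AJ.hFEL
  have tFCK : StFck := Pool.Agent.Helper54.AJ.hFCK tFEL
  have tFEX : StFex := Pool.Agent.Helper72.AJ.hFEX tTRN tJNM tFEL tFCK
  have tFNA : StFna := Pool.Agent.Helper51.AJ.hFNA tTRN tJNM
  have tFCO : StFco := Pool.Agent.Helper51.AJ.hFCO tTRN tJNM tFEX
  have tASA : StAsa := Pool.Agent.Helper44.AJ.hASA tTRN tJNM tFNA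
  have tASB : StAsb := Pool.Agent.Helper90.AJ.hASB tTRN tJNM tPLA tPLB tMTH tFNA tASA
  have tASC : StAsc := Pool.Agent.Helper66.AJ.hASC tTRN tJNM tACY tPLB tFNA
  have tASD : StAsd := Pool.Agent.Helper10.AJ.hASD tTRN tFNA tASA tASB tASC
  have tDSA : StDsa := Pool.Agent.Helper6.AJ.hDSA tTRN tJNM
  have tDSB : StDsb := Pool.Agent.Helper38.AJ.hDSB tTRN tJNM
  exact fin tTRN tJNM tFNA tFCO tASD tDSA tDSB V G


end Pool.Agent.Helper12.MA
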