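import Pool.Agent.Helper12.MA.Defs

/-!
# Project MA, part A: planar graphs (faces of 3-connected planar graphs)

All NK statements are PROVED: import `Pool.Agent.Helper12.MA.Lib`, they are called `nPTR : StPTR`, `nPAR`, `nKCA`, `nKCB`, `nMNR`,
`nCMB`, `nCRX`, `nRPW`, `nPLU`, `nFCY`, `nPER`, `nFAC`, `nRDL`, `nRDN`, `nINT`, `nKUR`, `nTUT`, `nINS`, `nPLS`, `nEDF`, `nFDL`, `nFPA`,
`nFPB`, `nFPC`, `nEXM` (statements and proofs: `Pool/Agent/Helper12/NK/St.lean`).  A module may use every other statement of MA as a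
hypothesis.  `U ∖ F`, `F` etc. as in NK.
-/

set_option autoImplicit false

namespace Pool.Agent.Helper12.MA

open Pool.Agent.Helper51.AJ (IsMinor Planar Apex ExMinor Con Tch)
open Pool.Agent.Helper12.NK (rst Kc add cnt Pcy IsFace Cof plus)

/-- FAX.  Elementary facts on a face `F` = vertex set of an induced cycle `c : ZMod m → V`, `3 ≤ m`.
(1) `F ⊆ U`, `3 ≤ |F|`, the rest is connected.  (2) every `z ∈ F` has exactly two neighbours in `F`.  (3) `F ∖ {z}` is a path: an enumeration
`g 0, ..., g k` without repetition, adjacent exactly if consecutive, and `z` is adjacent exactly to `g 0` and `g k` (`z = c i`, `g j = c (i + 1 + j)`, `k = m - 2`).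
(4) A nonempty `C ⊆ F` in which every element has two different neighbours is `F` (start at some `c i ∈ C` and go around: the neighbours of
`c i` in `F` are `c (i-1)`, `c (i+1)`, so both are in `C`). -/
def StFAX : Prop := ∀ (V : Type) [Finite V] (M : SimpleGraph V) (U F : Set V), IsFace M U F →
  F ⊆ U ∧ 3 ≤ F.ncard ∧ Con M (U \ F) ∧
  (∀ z ∈ F, ∃ a ∈ F, ∃ b ∈ F, a ≠ b ∧ a ≠ z ∧ b ≠ z ∧ ∀ c ∈ F, (M.Adj z c ↔ c = a ∨ c = b)) ∧
  (∀ z ∈ F, ∃ (k : ℕ) (g : ℕ → V), 1 ≤ k ∧ F \ {z} = {x | ∃ j, j ≤ k ∧ x = g j} ∧ (∀ i j, i ≤ k → j ≤ k → g i = g j → i = j) ∧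
    (∀ i j, i ≤ k → j ≤ k → (M.Adj (g i) (g j) ↔ (j = i + 1 ∨ i = j + 1))) ∧ (∀ i, i ≤ k → (M.Adj z (g i) ↔ (i = 0 ∨ i = k)))) ∧
  (∀ C : Set V, C ⊆ F → C.Nonempty → (∀ a ∈ C, ∃ b ∈ C, ∃ c ∈ C, b ≠ c ∧ M.Adj a b ∧ M.Adj a c) → C = F)

/-- FAY.  Paths in a face.  (1) `F ∖ {z}` is connected.  (2) `F ∖ {z, t}` is the union of two (possibly empty) connected sets without edges between them, one with each of the two
neighbours `a ≠ b` of `z` (empty if this neighbour is `t`), and `t` touches each nonempty one.  Proof: StFAX (3): `t = g j`, `A = {g 0, ..., g (j-1)}`, `B = {g (j+1), ..., g k}` (or exchanged). -/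
def StFAY : Prop := ∀ (V : Type) [Finite V] (M : SimpleGraph V) (U F : Set V), IsFace M U F → ∀ z ∈ F,
  Con M (F \ {z}) ∧
  (∀ t ∈ F, t ≠ z → ∀ a ∈ F, ∀ b ∈ F, a ≠ b → M.Adj z a → M.Adj z b →
    ∃ A B : Set V, A ∪ B = F \ {z, t} ∧ Disjoint A B ∧ ¬ Tch M A B ∧
      ((a = t ∧ A = ∅) ∨ (a ≠ t ∧ a ∈ A ∧ Con M A ∧ Tch M {t} A)) ∧
      ((b = t ∧ B = ∅) ∨ (b ≠ t ∧ b ∈ B ∧ Con M B ∧ Tch M {t} B)))

/-- FNB.  Faces and neighbours in a 3-connected planar graph.
(1) An edge lies in exactly two faces (StEDF, StFPA (3)): every face containing both ends is one of them.  (2) If `z` is adjacent to `a` then a face containing the edge `z a`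
contains exactly one further neighbour of `z` (StFAX (2)).  (3) A face containing three mutually adjacent vertices is this triangle (StFAX (4)).
(4) Two faces with two common nonadjacent vertices are equal (StFPA).  (5) Two faces with three common vertices are equal (StFPA).  (6) Adjacent vertices are cofacial (StEDF). -/
def StFNB : Prop := ∀ (V : Type) [Finite V] (M : SimpleGraph V) (U : Set V), Pn M U →
  (∀ a ∈ U, ∀ b ∈ U, M.Adj a b → ∃ F F', IsFace M U F ∧ IsFace M U F' ∧ F ≠ F' ∧ a ∈ F ∧ b ∈ F ∧ a ∈ F' ∧ b ∈ F' ∧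
    ∀ F'', IsFace M U F'' → a ∈ F'' → b ∈ F'' → F'' = F ∨ F'' = F') ∧
  (∀ z ∈ U, ∀ a ∈ U, M.Adj z a → ∀ F, IsFace M U F → z ∈ F → a ∈ F →
    ∃ b ∈ F, b ≠ a ∧ M.Adj z b ∧ ∀ c ∈ F, M.Adj z c → c = a ∨ c = b) ∧
  (∀ F, IsFace M U F → ∀ a ∈ F, ∀ b ∈ F, ∀ c ∈ F, M.Adj a b → M.Adj b c → M.Adj a c → F = {a, b, c}) ∧
  (∀ F F', IsFace M U F → IsFace M U F' → ∀ a b, a ∈ F → b ∈ F → a ∈ F' → b ∈ F' → a ≠ b → ¬ M.Adj a b → F = F') ∧
  (∀ F F', IsFace M U F → IsFace M U F' → ∀ a b c, a ∈ F → b ∈ F → c ∈ F → a ∈ F' → b ∈ F' → c ∈ F' → a ≠ b → b ≠ c → a ≠ c → F = F') ∧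
  (∀ a ∈ U, ∀ b ∈ U, M.Adj a b → Cof M U a b)

/-- EDG.  An edge can be added exactly if its ends are cofacial.
Proof.  (←) `ae M x y` on `U` is a minor of the planar graph `plus M U` (StPLS; branch sets `{inl x, inr F}` for `x`, `{inl a}` for the other vertices; StPTR).  (→) If `M.Adj x y`: StEDF.
Otherwise `M' = ae M x y` is 3-connected on `U` (more edges) and planar, so by StEDF there is a face `F'` of `M'` containing `x`, `y`; let `w` be a third element of `F'` (StFAX (1)).  `plus M' U` is planar (StPLS);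
`add (rst M U) o {x, y, w}` is a minor of it (`o ↦ {inr F'}`; `o ∉ U` by hypothesis), so planar, and StTUT with the new vertex `o` and `N = {x, y, w}` gives a face of `M` containing `x`, `y`. -/
def StEDG : Prop := ∀ (V : Type) [Finite V] (M : SimpleGraph V) (U : Set V) (x y o : V), Pn M U → x ∈ U → y ∈ U → x ≠ y → o ∉ U →
  (Planar (rst (ae M x y) U) ↔ Cof M U x y)

/-- MRG.  The faces after the deletion of `x` (`M` on `U ∖ {x}` still 3-connected): the faces of `M` which do not contain `x`, and one more, the set of all vertices cofacial with `x`.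
Proof.  Let `S = {t | t ≠ x ∧ Cof M U x t}`; it contains the at least three neighbours of `x` (StFNB (6), StKCA (3)).  (a) The graph `add (rst M (U ∖ {x})) x S` is planar: it is a minor of `plus M U` (StPLS; `x ↦ {inl x} ∪ {inr F | x ∈ F}`), so by StTUT
(new vertex `x`) `S` lies in a face `F₀` of `M` on `U ∖ {x}`.  By StFDL either `F₀` is a face of `M` on `U`: then `U ∖ F₀` is connected, contains `x`, and all neighbours of `x` are in `S ⊆ F₀`, so `U ∖ F₀ = {x}` and `M` on `U ∖ {x} = F₀` is an induced cycle with at least 4 vertices (Kc 3 has more than 3 vertices), not 3-connected (delete two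
nonadjacent vertices), contradiction; or all its elements are cofacial with `x`, `F₀ ⊆ S`.  So `F₀ = S`.  (b) If `F` is a face of `M` with `x ∉ F`: `add (rst M (U ∖ {x})) x F` is planar (subgraph of `plus M U`:
`x ↦ {inr F}`), so `F ⊆ F'` for a face `F'` of `M` on `U ∖ {x}` (StTUT), and `F = F'` by StFAX (4).  (c) A face of `M` on `U ∖ {x}` is a face of `M` (then it does not contain `x`) or is contained in `S = F₀` (StFDL), so equal to it (StFAX (4)). -/
def StMRG : Prop := ∀ (V : Type) [Finite V] (M : SimpleGraph V) (U : Set V) (x : V), Pn M U → x ∈ U → Kc 3 M (U \ {x}) →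
  IsFace M (U \ {x}) {t | t ≠ x ∧ Cof M U x t} ∧
  (∀ F, IsFace M (U \ {x}) F → (IsFace M U F ∧ x ∉ F) ∨ F = {t | t ≠ x ∧ Cof M U x t}) ∧
  (∀ F, IsFace M U F → x ∉ F → IsFace M (U \ {x}) F)

/-- FUE.  An edge `x y` through a deleted vertex `u` (cofacial with `x` and with `y`).  `M' = ae M x y` on `U ∖ {u}`.
Proof.  Let `Φ₁ ∋ u, x`, `Φ₂ ∋ u, y` be faces of `M`.  (a) `M'` is a minor of `plus M U` (`x ↦ {inl x, inr Φ₁, inl u, inr Φ₂}`): planar.  (b) Let `F` be a face of `M`, `u ∉ F`; `F ≠ Φ₁, Φ₂`.  With the same branch sets and `{inr F}` for the new vertex: the graph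
`add (rst M' (U ∖ {u})) u F` is planar, so by StTUT `F ⊆ F'` for a face `F'` of `M'` on `U ∖ {u}`; `F` is a cycle of `M`, so every element has two neighbours in `F`, and `F = F'` by StFAX (4).  (c) Let `F'` be a face of `M'` on `U ∖ {u}` and `t ∈ F'` not cofacial with `u` in `M`.  `t ≠ x, y`.  Let `t'` be a
neighbour of `t` in `F'`; `t t'` is an edge of `M`, it lies in two faces `F₁ ≠ F₂` of `M` (StEDF), which do not contain `u` and so are faces of `M'` by (b).  `F'` is a third face containing the edge unless it is one of them (StFPA (3)).  So `F'` is a face of `M`. -/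
def StFUE : Prop := ∀ (V : Type) [Finite V] (M : SimpleGraph V) (U : Set V) (u x y : V), Pn M U → u ∈ U → x ∈ U → y ∈ U →
  u ≠ x → u ≠ y → x ≠ y → ¬ Cof M U x y → Cof M U u x → Cof M U u y → Kc 3 (ae M x y) (U \ {u}) →
  Planar (rst (ae M x y) (U \ {u})) ∧
  (∀ F, IsFace M U F → u ∉ F → IsFace (ae M x y) (U \ {u}) F) ∧
  (∀ F, IsFace (ae M x y) (U \ {u}) F → (IsFace M U F ∧ u ∉ F) ∨ ∀ t ∈ F, Cof M U u t)

/-- EFL.  Flipping an edge.  The edge `a b` lies in the faces `F ∋ c` and `F' ∋ d`; then it can be replaced by `c d`.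
Proof (rotation systems, PM/NK).  StKUR: `R : Rot (rst M U)`.  `d₀ = (a, b)`.  `F` and `F'` are `fac R d₀` and `fac R d₀.symm` in some order: these two are different faces containing `a`, `b` (StFCY, StPER; see the proof of StEDF), and there are not three (StFPA (3)).
Delete the edge: `PMap.exists_rot` applied to `R.map` gives a rotation system `R'` of `dl (rst M U) a b` (`r' d` = the first of `r d, r (r d)` which is not one of the two deleted darts; all degrees are ≥ 3), in which the face cycles of `d₀` and `d₀.symm` are merged into one: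
`φ' = φ` except that the dart before `d₀` goes to `φ (d₀.symm)` and the dart before `d₀.symm` goes to `φ d₀`.  So there is one face cycle of `R'` with darts starting at `c` and at `d`.  Insert the edge `c d` in this face (`Pl.insEdge` in PM/Fix.lean; see StINT and its proof
`Pool/Agent/Helper90/NK/M_INT.lean`).  (`M.Adj c d` impossible or harmless: if `c d` is already an edge there is nothing to insert.)  Conclude with StRPW. -/
def StEFL : Prop := ∀ (V : Type) [Finite V] (M : SimpleGraph V) (U : Set V) (a b c d : V) (F F' : Set V), Pn M U → M.Adj a b →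
  IsFace M U F → IsFace M U F' → F ≠ F' → a ∈ F → b ∈ F → a ∈ F' → b ∈ F' → c ∈ F → c ≠ a → c ≠ b → d ∈ F' → d ≠ a → d ≠ b →
  Planar (rst (ae (dl M a b) c d) U)

/-- EFZ.  A new vertex in the union of two faces with the common edge `p q` removed.
Proof.  `M₁ = add (rst M U) z {p, q, r}` on `U₁ = insert z U`: 3-connected (StKCB (2)), planar (StINS, subgraph).  `F'` is a face of `M₁`: StMRG for `M₁`, `z` (`M₁` and `M` agree on `U`: the faces of `M` on `U` are the faces of `M₁` not containing `z` and the set `S` of the vertices cofacial with `z`; `S ⊇ {p, q, r}`,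
and `F' ∌ r` by StFPA (1), so `F' ≠ S`).  The edge `z p` lies in two faces of `M₁`, each contains one more neighbour of `z`, `q` or `r`, and they are not both `r` (StFPA (1)): so there is a face `D ∋ z, p, q`, `D ≠ F'`.  StEFL for `M₁`, the edge `p q`, `z ∈ D`, `r' ∈ F'`: the result contains (is) the wanted graph. -/
def StEFZ : Prop := ∀ (V : Type) [Finite V] (M : SimpleGraph V) (U : Set V) (z p q r r' : V) (F F' : Set V), Pn M U → z ∉ U → M.Adj p q →
  IsFace M U F → IsFace M U F' → F ≠ F' → p ∈ F → q ∈ F → p ∈ F' → q ∈ F' → r ∈ F → r ≠ p → r ≠ q → r' ∈ F' → r' ≠ p → r' ≠ q →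
  Planar (add (rst (dl M p q) U) z {p, q, r, r'})

/-- DGT.  Three faces which pairwise share an edge at `w 3`: then `w 3` has degree 3.
Proof.  Let `t ∈ U` be another neighbour of `w 3`.  `C` = the component of `U ∖ {w 0, w 1, w 2, w 3}` containing `t`.  It touches at least three of the `w i` (otherwise at most two vertices separate it from the other `w`'s, Kc 3), and it touches `w 3`; so it touches `w 3`, `w i`, `w j` with `{i, j, k} = {0, 1, 2}`.
In `plus M U` (StPLS): `{w 3}, {w i}, {w j}` and `C`, `{F k}`, `{F i, w k, F j}` form a `K₃,₃` minor (StMNR): `F k` contains `w i, w j, w 3`; `F i ∋ w j, w k, w 3`; `F j ∋ w i, w k, w 3`. -/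
def StDGT : Prop := ∀ (V : Type) [Finite V] (M : SimpleGraph V) (U : Set V) (w : Fin 4 → V) (F : Fin 3 → Set V), Pn M U →
  Function.Injective w → (∀ i, w i ∈ U) → Function.Injective F → (∀ i, IsFace M U (F i)) →
  (∀ i : Fin 3, ∀ j : Fin 4, (j : ℕ) ≠ (i : ℕ) → w j ∈ F i) → ∀ t ∈ U, M.Adj (w 3) t → ∃ i : Fin 4, t = w i

/-- LNV.  Around a vertex `b`: if a set `A` separates the two neighbours `a₁ ∈ A`, `a₂ ∉ A` of `b` on a face `f`, then there is another face at `b` whose two neighbours of `b` are separated by `A`.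
Proof.  StKUR: `R`.  `R.trans`: the darts from `b` form one cycle of `r`.  For a dart `d = (b, n)` the face of `d.symm = (n, b)` continues with `φ (d.symm) = r d = (b, n')`; so consecutive neighbours `n, n'` (`(b, n') = r (b, n)`) lie with `b` in a common face, `fac R d.symm` (a face by StFCY, StPER).  `f = fac R e` for a dart `e`
(StFAC); as `b ∈ f` it passes `n₀, b, n₀'` with `{n₀, n₀'} = {a₁, a₂}` (StFAX (2)), `(b, n₀') = r (b, n₀)`.  Going around from `n₀'` to `n₀` we meet a first change between `A` and its complement, at consecutive `n, n'`, `(n, n') ≠ (n₀, n₀')`; their face is not `f`: `f` contains only the neighbours `a₁, a₂` of `b`, and if `{n, n'} = {a₁, a₂}` then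
`n = n₀'`, `n' = n₀` and `b` has only two neighbours, impossible.  The two vertices, in the right order, are `c ∈ A`, `d ∉ A`. -/
def StLNV : Prop := ∀ (V : Type) [Finite V] (M : SimpleGraph V) (U : Set V) (b : V) (f A : Set V) (a₁ a₂ : V), Pn M U →
  IsFace M U f → b ∈ f → a₁ ∈ f → a₂ ∈ f → M.Adj b a₁ → M.Adj b a₂ → a₁ ∈ A → a₂ ∉ A →
  ∃ F, IsFace M U F ∧ F ≠ f ∧ b ∈ F ∧ ∃ c ∈ F, ∃ d ∈ F, M.Adj b c ∧ M.Adj b d ∧ c ∈ A ∧ d ∉ A

/-- WHE.  A wheel with hub `z`: two disjoint connected sets which cross on the rim give a `K₅` minor.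
Proof.  Positions: `c 0, ..., c (m-1)` after a rotation (`i = 0`).  `K` avoids `L`.  The rim points in `L` cut the rim into open arcs; `c i` and `c (i + s)` are points of `K` in different arcs.  Take a path in `K` (induced graph connected) from `c i` to `c (i + s)`; on it there are two consecutive rim visits `x`, `y` (no rim vertex
strictly between them on the path) in different arcs; let `K°` be the set of the vertices of the path strictly between them (connected or empty, off the rim; if empty then `x`, `y` are adjacent).  So `L` has rim points in both open intervals of the rim between `x` and `y`.  In the same way a path in `L` from one interval to the other has two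
consecutive rim visits `x' ∈ (x, y)`, `y' ∈ (y, x)` with `L°` between them.  Now `x, x', y, y'` is the cyclic order; partition the rim in four consecutive arcs containing them: `A₁ ∋ x, A₂ ∋ x', A₃ ∋ y, A₄ ∋ y'`.  `{z}, A₁ ∪ K°, A₂ ∪ L°, A₃, A₄` is a `K₅` minor (StMNR). -/
def StWHE : Prop := ∀ (α : Type) (H : SimpleGraph α) (m : ℕ) (c : ZMod m → α) (z : α) (K L : Set α), Planar H → 4 ≤ m →
  Function.Injective c → (∀ i, c i ≠ z) → (∀ i, H.Adj (c i) (c (i + 1))) → (∀ i, H.Adj z (c i)) → Con H K → Con H L →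
  Disjoint K L → z ∉ K → z ∉ L →
  ¬ ∃ (i : ZMod m) (r s t : ℕ), 0 < r ∧ r < s ∧ s < t ∧ t < m ∧ c i ∈ K ∧ c (i + r) ∈ L ∧ c (i + s) ∈ K ∧ c (i + t) ∈ L

/-- PCL.  Calculus of connected sets in `plus M U`.  (1) A connected set of vertices inside `U`.  (2) one face.  (3) union of two touching ones.  (4) a set of faces through a vertex, with the vertex.  (5), (6) `K₅` and `K₃,₃` in a planar `plus M U` (StPLS, StMNR).
All are direct (`mk M U A T ∪ mk M U B S = mk M U (A ∪ B) (T ∪ S)`; `mk` of disjoint data are disjoint; `PT` gives `Tch (plus M U)`). -/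
def StPCL : Prop := ∀ (V : Type) [Finite V] (M : SimpleGraph V) (U : Set V),
  (∀ A ⊆ U, Con M A → PC M U A ∅) ∧
  (∀ F, IsFace M U F → PC M U ∅ {F}) ∧
  (∀ A B T S, PC M U A T → PC M U B S → PT M U A T B S → PC M U (A ∪ B) (T ∪ S)) ∧
  (∀ (x : V) (T : Set (Set V)), x ∈ U → (∀ F ∈ T, x ∈ F) → PC M U {x} T) ∧
  (Pn M U → ∀ (A : Fin 5 → Set V) (T : Fin 5 → Set (Set V)), (∀ i, PC M U (A i) (T i)) → (∀ i j, i ≠ j → Disjoint (A i) (A j)) →
    (∀ i j, i ≠ j → Disjoint (T i) (T j)) → (∀ i j, i < j → PT M U (A i) (T i) (A j) (T j)) → False) ∧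
  (Pn M U → ∀ (A B : Fin 3 → Set V) (T S : Fin 3 → Set (Set V)), (∀ i, PC M U (A i) (T i)) → (∀ i, PC M U (B i) (S i)) →
    (∀ i j, i ≠ j → Disjoint (A i) (A j)) → (∀ i j, i ≠ j → Disjoint (B i) (B j)) → (∀ i j, Disjoint (A i) (B j)) →
    (∀ i j, i ≠ j → Disjoint (T i) (T j)) → (∀ i j, i ≠ j → Disjoint (S i) (S j)) → (∀ i j, Disjoint (T i) (S j)) →
    (∀ i j, PT M U (A i) (T i) (B j) (S j)) → False)

end Pool.Agent.Helper12.MA
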