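import Pool.Agent.Helper12.MA.StA

/-!
# Project MA, part B: a double server and its faces

`P` always denotes the graph `dl G p q` on `{v}ᶜ` (3-connected and planar), `H` the graph `G` on `{z, v}ᶜ`, `G_t` the graph `G` on `{t, v}ᶜ`.
Picture: `z` in the middle of the outer face, the disc below it has on its boundary `p` (top left), `r` (top right), `q` (bottom right), `r'` (bottom left);
`f1` is the top, `f2` the right, `f3` the bottom, `f4` the left side.  Everything is symmetric under the rotation `p ↔ q, r ↔ r', f1 ↔ f3, f2 ↔ f4` and the reflection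
`r ↔ r', f1 ↔ f4, f2 ↔ f3` (StSYM).
-/

set_option autoImplicit false

namespace Pool.Agent.Helper12.MA

open Pool.Agent.Helper51.AJ (IsMinor Planar Apex ExMinor Con Tch)
open Pool.Agent.Helper12.NK (rst Kc add cnt Pcy IsFace Cof plus)

/-- BAS.  Consequences of `Bh`.
Proofs.  (1)-(3): `{s}ᶜ ∖ X = ({s} ∪ X)ᶜ`, at most 4 vertices deleted; `|V| ≥ 8`.  (4) If `x` has at most 4 neighbours delete them: the rest is connected, contains `x` and another vertex, but `x` is isolated.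
(5) Let `|X| < 3`.  `W = {s}ᶜ ∖ X` is connected in `G`, also after the deletion of one more vertex.  If `W` were not connected in `dl G x y` then `x, y ∈ W` are in the two parts; one part has a second vertex (`|W| ≥ 5`), delete `x` (if the part of `x` has one; otherwise `y`): `W ∖ {x} = ({s, x} ∪ X)ᶜ` is connected in `G`, and
`dl G x y` has the same edges there, contradiction.  (6) `(Nb G A)ᶜ` is connected, contains `A`, and no edge leaves `A` in it.  (7) If cofacial then `ae (dl G x y) x y` (which is `G`) would be planar on `{s}ᶜ` (StEDG), contradiction to `hn s`. -/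
def StBAS : Prop := ∀ (V : Type) [Finite V] (G : SimpleGraph V), Bh G →
  (∀ s, Kc 4 G {s}ᶜ) ∧ (∀ s t, Kc 3 G {s, t}ᶜ) ∧ (∀ s t u, Kc 2 G {s, t, u}ᶜ) ∧ (∀ x, 5 ≤ {a | G.Adj x a}.ncard) ∧
  (∀ s x y, Kc 3 (dl G x y) {s}ᶜ) ∧ (∀ A : Set V, A.Nonempty → (Nb G A).ncard ≤ 4 → A ∪ Nb G A = Set.univ) ∧
  (∀ s x y, G.Adj x y → Srv G s x y → ¬ Cof (dl G x y) {s}ᶜ x y)

/-- SVF.  Faces and servers.
(1) If `G_t` is planar then `N(v) ∖ {t}` is in no face of `G_t` (otherwise `G - t` is planar by StINS, as `rst G {t}ᶜ = add (rst G {t, v}ᶜ) v (N(v) ∖ {t})`, contradiction to `hn t`).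
(2) If `t` serves `v w` then `G_t` is planar and `N(v) ∖ {w, t}` (at least 3 elements) lies in a face (StTUT), which by (1) does not contain `w`. -/
def StSVF : Prop := ∀ (V : Type) [Finite V] (G : SimpleGraph V), Bh G →
  (∀ v t, t ≠ v → Planar (rst G {t, v}ᶜ) → ∀ F, IsFace G {t, v}ᶜ F → ¬ ({a | G.Adj v a} \ {t} ⊆ F)) ∧
  (∀ v w t, G.Adj v w → Srv G t v w → Planar (rst G {t, v}ᶜ) ∧
    ∃ F, IsFace G {t, v}ᶜ F ∧ {a | G.Adj v a} \ {w, t} ⊆ F ∧ w ∉ F)

/-- SPB.  Basic facts on `Sep`.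
Proof.  `Nb G L ⊆ Q ∪ {y}`.  A connected component `C` of `L` (maximal connected subset) not containing `x` has `Nb G C ⊆ Q`, so `C ∪ Nb G C = univ` (StBAS (6)), but `y` is in neither.  So `L` is connected; same for `R`.  (4) `A = L ∖ {x}` is nonempty, `Nb G A ⊆ Q ∪ {x}`, `y ∉ A ∪ Nb G A`, so `|Nb G A| ≥ 5` and
`Nb G A = Q ∪ {x}`.  (5) `Nb G {x} ⊆ Q ∪ {y}` and `x` has at least 5 neighbours. -/
def StSPB : Prop := ∀ (V : Type) [Finite V] (G : SimpleGraph V) (Q L R : Set V) (x y : V), Bh G → Sep G Q x y L R →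
  Con G L ∧ Con G R ∧ Sep G Q y x R L ∧ (L ≠ {x} → Nb G (L \ {x}) = insert x Q) ∧ (L = {x} → ∀ c, G.Adj x c ↔ c = y ∨ c ∈ Q)

/-- CFG.  The four faces at `z`.
Proof.  `P` is `Pn` (StBAS (5), `ds.pl`).  `z` has in `P` exactly the neighbours `p, q, r, r'`.  `npq`: StBAS (7).  By StFNB (1), (2) the edge `z p` lies in exactly two faces, each contains exactly one more neighbour of `z`, not `q` (`npq`), and not both the same one (StFNB (5)): `f1 ∋ p, r` and `f4 ∋ p, r'`.  Same for `q`: `f2 ∋ q, r`, `f3 ∋ q, r'`.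
A face containing `z` contains two neighbours of `z` (StFAX (2)), not `p` and `q`; if it contains neither `p` nor `q` it contains `r`, `r'`: but the edge `z r` is already in the two different faces `f1`, `f2`, so it is one of them, contradiction.  So `all`.  Intersections: `f1 ∩ f2 ∋ z, r` and no third (StFNB (5)); if
`t ∈ f1 ∩ f3`, `t ≠ z`, then `t` is adjacent to `z` (StFNB (4)), so `t ∈ {p, r}` and `t ∈ {q, r'}`, impossible. -/
def StCFG : Prop := ∀ (V : Type) [Finite V] (G : SimpleGraph V) (z v p q r r' : V), Bh G → DSc G z v p q r r' →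
  ∃ f1 f2 f3 f4, Cfg G z v p q r r' f1 f2 f3 f4

/-- SYM.  Symmetries.  (`dl G q p = dl G p q`.)  For `Cut`: the rotation exchanges `X`, `Y` (`Sep` with the sides exchanged: StSPB (3)). -/
def StSYM : Prop := ∀ (V : Type) [Finite V] (G : SimpleGraph V) (z v p q r r' : V) (f1 f2 f3 f4 : Set V),
  Cfg G z v p q r r' f1 f2 f3 f4 →
  Cfg G z v q p r' r f3 f4 f1 f2 ∧ Cfg G z v p q r' r f4 f3 f2 f1 ∧
  (∀ t Γ, Ng G z v p q r r' t Γ → Ng G z v q p r' r t Γ ∧ Ng G z v p q r' r t Γ) ∧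
  (∀ σ b X Y, Cut G z v p q r r' f1 f3 σ b X Y → Cut G z v q p r' r f3 f1 b σ Y X)

/-- RIM.  Two disjoint connected sets of vertices and faces of `P`, without `z`, do not cross around `z`.
Proof.  StWHE for the planar graph `plus P` (StPLS), hub `inl z`, rim `p, f1, r, f2, q, f3, r', f4` (`m = 8`, different, consecutive ones adjacent because the vertex lies on the face; all adjacent to `z`), `K`, `L` the sets `mk` of the two pairs. -/
def StRIM : Prop := ∀ (V : Type) [Finite V] (G : SimpleGraph V) (z v p q r r' : V) (f1 f2 f3 f4 : Set V),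
  Cfg G z v p q r r' f1 f2 f3 f4 → ∀ (A B : Set V) (T S : Set (Set V)), PC (dl G p q) {v}ᶜ A T → PC (dl G p q) {v}ᶜ B S →
  Disjoint A B → Disjoint T S → z ∉ A → z ∉ B → ∀ i j k l : Fin 8, i < j → j < k → k < l →
  on p q r r' f1 f2 f3 f4 A T i → on p q r r' f1 f2 f3 f4 B S j → on p q r r' f1 f2 f3 f4 A T k → on p q r r' f1 f2 f3 f4 B S l → False

/-- CRN.  Corners.  (1) `t` on the top or the right side... : only `r`, `r'` are on a side and cofacial with both `p` and `q`.  (2) A vertex of the top and one of the right side are not cofacial.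
Proof.  (1) Let `t ∈ f1`, `t ≠ z, r`, `F ∋ q, t`; `t ≠ p` (`npq`).  `F ≠ f1` and `z ∉ F` (`z ∈ F` would give `F = f2` or `f3` and `t ∈ f1 ∩ f2 = {z, r}`, ...).  `({v, t, q, z})ᶜ` is connected in `G` (`kc`), so also in `P` (`q` is deleted); call it `L ∋ r, p`.  `K` = the vertices `t, q` and the faces `f1, F`: connected.  RIM: `K` has the
positions 1 (`f1`), 4 (`q`); `L` has 0 (`p`), 2 (`r`); order 0, 1, 2, 4.  Contradiction.  The other three by symmetry (StSYM).  (2) `a ∈ f1`, `c ∈ f2`, `F ∋ a, c`; `z ∉ F` (the intersections).  Not both `a = p` and `c = q`.  `W = ({v, a, c, z})ᶜ` is connected in `G`.  Some connected set `L` in `P` inside `W` contains `r` and one of `p`, `q`: if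
`a = p` or `c = q` take `W` itself; otherwise the component of `r` in `W` for `P`: if it contained neither `p` nor `q` then `W` would not be connected in `G`.  `K` = `a, c` and the faces `f1, F, f2`: positions 1 and 3; `L`: 2 and (0 or 4).  RIM. -/
def StCRN : Prop := ∀ (V : Type) [Finite V] (G : SimpleGraph V) (z v p q r r' : V) (f1 f2 f3 f4 : Set V),
  Cfg G z v p q r r' f1 f2 f3 f4 →
  (∀ t ∈ f1, t ≠ z → Cof (dl G p q) {v}ᶜ q t → t = r) ∧ (∀ t ∈ f2, t ≠ z → Cof (dl G p q) {v}ᶜ p t → t = r) ∧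
  (∀ t ∈ f3, t ≠ z → Cof (dl G p q) {v}ᶜ p t → t = r') ∧ (∀ t ∈ f4, t ≠ z → Cof (dl G p q) {v}ᶜ q t → t = r') ∧
  (∀ a ∈ f1, ∀ c ∈ f2, a ≠ z → a ≠ r → c ≠ z → c ≠ r → ¬ Cof (dl G p q) {v}ᶜ a c) ∧
  (∀ a ∈ f3, ∀ c ∈ f4, a ≠ z → a ≠ r' → c ≠ z → c ≠ r' → ¬ Cof (dl G p q) {v}ᶜ a c)

/-- HFA.  The faces of `H` = `G` on `{z, v}ᶜ`: the right and top together, the bottom and left together, and the faces of `P` which do not contain `z`.
Proof.  `H` is 3-connected (StBAS (2)).  StFUE with `M = dl G p q`, `U = {v}ᶜ`, `u = z`, `x = p`, `y = q` (`ae (dl G p q) p q = G`): `H` is planar, the faces of `P` without `z` are faces of `H`, the other faces of `H` consist of vertices cofacial with `z`.  The edge `z r'` lies in `f3 ∋ q` and `f4 ∋ p`, so by StEFL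
`ae (dl (dl G p q) z r') p q` is planar on `{v}ᶜ`: this is `H` with the vertex `z` joined to `p, q, r`.  By StTUT `p, q, r` are in a face `F'` of `H`.  `r' ∉ F'` (otherwise `add (rst G {z,v}ᶜ) z {p,q,r,r'}` is planar by StINS, this is `G - v`).  `F'` is no face of `P` (`npq`).  Claim: `f1 ∖ {z} ⊆ F'`.  Let `t ∈ f1 ∖ F'`, `t ≠ z`.
`{z, v}ᶜ ∖ F'` is connected in `G`, also in `P` (`p ∈ F'`); `L` = this set with the face `f1`, positions 1 (`f1 ∋ t`) and 6 (`r'`).  `K = F'`: connected in `P` (StFAX: the induced cycle `F'` contains the edge `p q`, without this edge it is a path), positions 0 and 2.  RIM: 0, 1, 2, 6.  In the same way `f2 ∖ {z} ⊆ F'` (positions of `L`: 3 and 6, of `K`: 2 and 4).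
`C = (f1 ∪ f2) ∖ {z}`: every element has two neighbours in `C` in `H` (on the paths `f1 ∖ {z}`, `f2 ∖ {z}` which meet in `r`; `p` and `q` are adjacent), so `F' = C` (StFAX (4)).  Symmetrically for `f3, f4` (reflection).  Let `F` be a face of `H`, not these two, and not a face of `P`.  All its elements are cofacial with `z`.  Take an edge `t t'` of `F`; not `p q`
(its two faces are the two described; StFNB (1)).  In `P` it lies in two faces; if both avoid `z` they are faces of `H` and `F` is one of them; not both contain `z` (StFNB (5)); so one is some `fi ∋ z` and the other, `F₂`, is a face of `H`.  The face of `H` containing `fi ∖ {z}` also contains `t, t'` and is not `F₂`; so `F` is this face or `F₂`.  Contradiction. -/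
def StHFA : Prop := ∀ (V : Type) [Finite V] (G : SimpleGraph V) (z v p q r r' : V) (f1 f2 f3 f4 : Set V),
  Cfg G z v p q r r' f1 f2 f3 f4 →
  Pn G {z, v}ᶜ ∧ IsFace G {z, v}ᶜ ((f1 ∪ f2) \ {z}) ∧ IsFace G {z, v}ᶜ ((f3 ∪ f4) \ {z}) ∧
  (∀ F, IsFace (dl G p q) {v}ᶜ F → z ∉ F → IsFace G {z, v}ᶜ F) ∧
  (∀ F, IsFace G {z, v}ᶜ F → F = (f1 ∪ f2) \ {z} ∨ F = (f3 ∪ f4) \ {z} ∨ (IsFace (dl G p q) {v}ᶜ F ∧ z ∉ F))

/-- PAI.  A face `Γ` of `G_t` through `z`, where `t ≠ v, z, p, q` and `G_t` is planar.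
Proof.  `Γ` is an induced cycle of `G`, it contains exactly two neighbours of `z` (StFAX (2)), among `p, q, r, r'`.  If these are `p, q` then `Γ = {z, p, q}` (StFNB (3)).  Otherwise not both `p, q ∈ Γ`.  Case `p, r`: let `x ∈ f1`, `x ≠ z, t`, `x ∉ Γ`.  `{t, v}ᶜ ∖ Γ` is connected in `G`, also in `P` (`p ∈ Γ`), and contains `x`, `q`; `L` = this set with the
face `f1`: positions 1 and 4; `K = Γ ∖ {z}` connected (StFAY), positions 0 and 2 (`p, r`): RIM 0, 1, 2, 4.  So `f1 ∖ {t} ⊆ Γ`, and if `t ∉ f1` then `f1 = Γ` by StFAX (4).  The cases `r, q`; `q, r'`; `r', p` by symmetry (StSYM). -/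
def StPAI : Prop := ∀ (V : Type) [Finite V] (G : SimpleGraph V) (z v p q r r' : V) (f1 f2 f3 f4 : Set V),
  Cfg G z v p q r r' f1 f2 f3 f4 → ∀ (t : V) (Γ : Set V), t ≠ v → t ≠ z → t ≠ p → t ≠ q → Planar (rst G {t, v}ᶜ) →
  IsFace G {t, v}ᶜ Γ → z ∈ Γ →
  (p ∈ Γ ∧ q ∈ Γ ∧ Γ = {z, p, q}) ∨
  (p ∈ Γ ∧ r ∈ Γ ∧ q ∉ Γ ∧ r' ∉ Γ ∧ f1 \ {t} ⊆ Γ ∧ (t ∉ f1 → Γ = f1)) ∨
  (q ∈ Γ ∧ r ∈ Γ ∧ p ∉ Γ ∧ r' ∉ Γ ∧ f2 \ {t} ⊆ Γ ∧ (t ∉ f2 → Γ = f2)) ∨
  (q ∈ Γ ∧ r' ∈ Γ ∧ p ∉ Γ ∧ r ∉ Γ ∧ f3 \ {t} ⊆ Γ ∧ (t ∉ f3 → Γ = f3)) ∨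
  (p ∈ Γ ∧ r' ∈ Γ ∧ q ∉ Γ ∧ r ∉ Γ ∧ f4 \ {t} ⊆ Γ ∧ (t ∉ f4 → Γ = f4)) ∨
  (r ∈ Γ ∧ r' ∈ Γ ∧ p ∉ Γ ∧ q ∉ Γ)

/-- OTY.  `G_t` planar: `t` is cofacial with both `p` and `q`, or there is a cut through `t` and `z`.
Proof.  If `P` without `t` is 3-connected then, as `G_t = ae (dl G p q) p q` on `{t, v}ᶜ` is planar, StEDG gives a face of `P - t` containing `p` and `q`; StFDL: it is a face of `P` (contradiction to `npq`) or all its elements are cofacial with `t`.  Otherwise there is a set `X₀`, `|X₀| ≤ 2`, with `W = ({v, t} ∪ X₀)ᶜ` not connected in `dl G p q`,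
`p, q ∉ X₀`, `|X₀| = 2` (`P` is 3-connected).  `W` is connected in `G`.  So `W` has exactly two components in `dl G p q`, `X ∋ p` and `Y ∋ q`.  `z` is adjacent to both `p` and `q`, so `z ∈ X₀`, `X₀ = {z, b}`. -/
def StOTY : Prop := ∀ (V : Type) [Finite V] (G : SimpleGraph V) (z v p q r r' : V) (f1 f2 f3 f4 : Set V),
  Cfg G z v p q r r' f1 f2 f3 f4 → ∀ t, t ≠ v → t ≠ z → t ≠ p → t ≠ q → Planar (rst G {t, v}ᶜ) →
  (Cof (dl G p q) {v}ᶜ p t ∧ Cof (dl G p q) {v}ᶜ q t) ∨ ∃ b X Y, Sep G {v, z, t, b} p q X Y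

/-- OTS.  The position of the vertices of a cut `{t, z, b}` of `P`.
Proof.  Suppose `X ≠ {p}`, `Y ≠ {q}`.  By StSPB (4) `z` has a neighbour in `X ∖ {p}` and one in `Y ∖ {q}`: these are `r` and `r'`.  Case `r' ∈ X`, `r ∈ Y`.  `f1 ∖ {z}` is connected in `P` (StFAY), contains `p ∈ X` and `r ∈ Y`, there are no edges of `P` between `X` and `Y`, so it contains `t` or `b`.  Same for `f3 ∖ {z}` (`q ∈ Y`, `r' ∈ X`).  `f1 ∩ f3 = {z}`.
So one of `t, b` is in `f1` and the other in `f3`.  Case `r ∈ X`, `r' ∈ Y`: reflected. -/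
def StOTS : Prop := ∀ (V : Type) [Finite V] (G : SimpleGraph V) (z v p q r r' : V) (f1 f2 f3 f4 : Set V),
  Cfg G z v p q r r' f1 f2 f3 f4 → ∀ (t b : V) (X Y : Set V), Sep G {v, z, t, b} p q X Y →
  X = {p} ∨ Y = {q} ∨ Cut G z v p q r r' f1 f3 t b X Y ∨ Cut G z v p q r r' f1 f3 b t X Y ∨
  Cut G z v p q r' r f4 f2 t b X Y ∨ Cut G z v p q r' r f4 f2 b t X Y

/-- ROT.  For a cut of the first kind `{t, z, b}` with `G_t` planar: no face of `G_t` contains `z, p, r`, and none contains `z, q, r'`.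
Proof.  `t ≠ r, r'` (they are in `Y`, `X`), so `z` has in `G_t` exactly the neighbours `p, q, r, r'`.  `z` and `b` are not adjacent.  A face `Γ ∋ z` of `G_t` containing `p ∈ X`, `r ∈ Y` and (then) not `q` contains `b`: `Γ ∖ {z}` is connected, has no edge `p q`, so it meets `{t, b}` (all edges of `G` between `X` and `Y` are `p q`).  Same for a face containing `q, r'`.
Each edge `z a`, `a ∈ {p, q, r, r'}`, is in exactly two faces (StFNB), each face at `z` contains exactly two of the four: so the faces at `z` give a 4-cycle on `{p, q, r, r'}`, and if `{p, r}` is one of its edges then so is `{q, r'}`, and conversely (a 4-cycle contains a pair exactly if it contains the complementary pair).  Then both faces contain `z` and `b`, not adjacent,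
so they are equal (StFNB (4)), contradiction. -/
def StROT : Prop := ∀ (V : Type) [Finite V] (G : SimpleGraph V) (z v p q r r' : V) (f1 f2 f3 f4 : Set V),
  Cfg G z v p q r r' f1 f2 f3 f4 → ∀ (t b : V) (X Y : Set V), Sep G {v, z, t, b} p q X Y → r' ∈ X → r ∈ Y →
  Planar (rst G {t, v}ᶜ) → ∀ Γ, IsFace G {t, v}ᶜ Γ → z ∈ Γ → ¬ (p ∈ Γ ∧ r ∈ Γ) ∧ ¬ (q ∈ Γ ∧ r' ∈ Γ)

/-- the vertex `x` has exactly the neighbours `y, s, σ, a, b`, `a b` is an edge and `y, a, b` are in a face of `G - x - s` -/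
def Dg {V : Type} (G : SimpleGraph V) (s σ x y : V) : Prop :=
  ∃ a b, (∀ c, G.Adj x c ↔ c = y ∨ c = s ∨ c = σ ∨ c = a ∨ c = b) ∧ G.Adj a b ∧ a ≠ y ∧ a ≠ s ∧ a ≠ σ ∧ b ≠ y ∧ b ≠ s ∧ b ≠ σ ∧
    ∃ F, IsFace G {x, s}ᶜ F ∧ y ∈ F ∧ a ∈ F ∧ b ∈ F

/-- DEG.  All cuts through `t` and `z` are trivial (StTOR gives `Dg`): excluded pairs.
Proof.  `Dg G v t p q`: `N(p) = {q, v, t, a, b}`; `z` is a neighbour of `p`, `z ≠ q, v, t`, so `z ∈ {a, b}`, say `z = a`, and `b` is adjacent to `z`, `b ≠ q, v`, `b ≠ p`: `b ∈ {r, r'}`.  Case `b = r'`.  In `P` the neighbours of `p` are `z, t, r'`; `f4 ∋ z, p, r'` is a triangle (StFNB (3)); `f1` contains `z, p` and a further neighbour of `p`, not `r'`: `t ∈ f1`.  `t ≠ r`, because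
otherwise (`r = t ∈ f1`)... `t ≠ r, r'` is assumed.  In `G_t` the neighbours of `p` are `q, z, r'`, and the two faces containing the edge `p z` contain `q` resp. `r'`, so they are `{z, p, q}` and `{z, p, r'}`.  So the 4-cycle of the faces at `z` (see StROT) contains the pairs `p q` and `p r'`, hence `{q, r}` and `{r, r'}`, and not `{p, r}`, `{q, r'}`.  Case `b = r`: reflected.
`Dg G v t q p`: rotated. -/
def StDEG : Prop := ∀ (V : Type) [Finite V] (G : SimpleGraph V) (z v p q r r' : V) (f1 f2 f3 f4 : Set V),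
  Cfg G z v p q r r' f1 f2 f3 f4 → ∀ t, t ≠ v → t ≠ z → t ≠ p → t ≠ q → t ≠ r → t ≠ r' → Planar (rst G {t, v}ᶜ) →
  (Dg G v t p q ∨ Dg G v t q p) →
  ((t ∈ f1 ∨ t ∈ f3) ∧ ∀ Γ, IsFace G {t, v}ᶜ Γ → z ∈ Γ → ¬ (p ∈ Γ ∧ r ∈ Γ) ∧ ¬ (q ∈ Γ ∧ r' ∈ Γ)) ∨
  ((t ∈ f2 ∨ t ∈ f4) ∧ ∀ Γ, IsFace G {t, v}ᶜ Γ → z ∈ Γ → ¬ (p ∈ Γ ∧ r' ∈ Γ) ∧ ¬ (q ∈ Γ ∧ r ∈ Γ))

/-- TOR.  (general edge `x y` with server `s`, `P = dl G x y` on `{s}ᶜ`; no `z` here)  If `G - s - σ` is planar, `σ` is not cofacial with both `x`, `y` in `P`, and all `Sep` through `s, σ` are trivial then `Dg` holds at `x` or at `y`.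
Proof: assembly of StTOA, StTOB, StTOC (part D). -/
def StTOR : Prop := ∀ (V : Type) [Finite V] (G : SimpleGraph V) (s x y σ : V), Bh G → G.Adj x y → Srv G s x y →
  σ ≠ s → σ ≠ x → σ ≠ y → Planar (rst G {s, σ}ᶜ) → ¬ (Cof (dl G x y) {s}ᶜ x σ ∧ Cof (dl G x y) {s}ᶜ y σ) →
  (∀ a b L R, Sep G {s, σ, a, b} x y L R → L = {x} ∨ R = {y}) → Dg G s σ x y ∨ Dg G s σ y x

/-- OTT.  The three possibilities for `t` (assembly of StOTY, StOTS, StROT, StTOR, StDEG).
Proof.  StOTY: first possibility, or there is a `Sep` through `t, z`.  Suppose `t` is not cofacial with both `p, q`; then `t ≠ r, r'` (they are: `f1, f2`, resp. `f3, f4`).  If some `Sep G {v, z, t, b} p q X Y` is nontrivial then StOTS gives `t ∈ f1 ∪ f3`, `r' ∈ X`, `r ∈ Y` or the reflected situation: StROT (for the reflected one StROT applied to the reflected configuration, StSYM).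
Otherwise all are trivial (a `Sep G {v, t, a, b}`: `z ∈ {a, b}` because `z` is adjacent to `p` and `q`, which are on different sides), so StTOR with `s = v`, `σ = t`, and StDEG. -/
def StOTT : Prop := ∀ (V : Type) [Finite V] (G : SimpleGraph V) (z v p q r r' : V) (f1 f2 f3 f4 : Set V),
  Cfg G z v p q r r' f1 f2 f3 f4 → ∀ t, t ≠ v → t ≠ z → t ≠ p → t ≠ q → Planar (rst G {t, v}ᶜ) →
  (Cof (dl G p q) {v}ᶜ p t ∧ Cof (dl G p q) {v}ᶜ q t) ∨
  ((t ∈ f1 ∨ t ∈ f3) ∧ ∀ Γ, IsFace G {t, v}ᶜ Γ → z ∈ Γ → ¬ (p ∈ Γ ∧ r ∈ Γ) ∧ ¬ (q ∈ Γ ∧ r' ∈ Γ)) ∨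
  ((t ∈ f2 ∨ t ∈ f4) ∧ ∀ Γ, IsFace G {t, v}ᶜ Γ → z ∈ Γ → ¬ (p ∈ Γ ∧ r' ∈ Γ) ∧ ¬ (q ∈ Γ ∧ r ∈ Γ))

/-- TGA.  `t ≠ r, r'` cofacial with `p` and `q`: then no face of `G_t` contains `z, r, r'`, and `{z, p, q}` is no face of `G_t`.
Proof.  Faces `F ∋ p, t`, `F' ∋ q, t` of `P`.  By StCRN `t` is in none of `f1, ..., f4` (and `t ≠ z`, `p`, `q`), so `F, F'` are none of them.  `K` = the vertices `p, t, q` and the faces `F, F'`: connected, positions 0 and 4.  If `Γ ∋ z, r, r'` is a face of `G_t` (so `p, q ∉ Γ`): `L = Γ ∖ {z}` connected in `P`, positions 2 and 6, disjoint from `K`: RIM 0, 2, 4, 6.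
If `{z, p, q}` is a face of `G_t` then `{t, v, z, p, q}ᶜ` is connected in `G` and `P`, contains `r, r'`: the same contradiction. -/
def StTGA : Prop := ∀ (V : Type) [Finite V] (G : SimpleGraph V) (z v p q r r' : V) (f1 f2 f3 f4 : Set V),
  Cfg G z v p q r r' f1 f2 f3 f4 → ∀ t, t ≠ v → t ≠ z → t ≠ r → t ≠ r' →
  Cof (dl G p q) {v}ᶜ p t → Cof (dl G p q) {v}ᶜ q t → ∀ Γ, IsFace G {t, v}ᶜ Γ → z ∈ Γ → ¬ (r ∈ Γ ∧ r' ∈ Γ) ∧ Γ ≠ {z, p, q}

/-- the neighbours of `v` without `z` and `w` are in a face of `H` -/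
def TH {V : Type} (G : SimpleGraph V) (z v w : V) (F : Set V) : Prop := IsFace G {z, v}ᶜ F ∧ {a | G.Adj v a} \ {z, w} ⊆ F

/-- the neighbours of `v` without `z` and `w` are `p` or cofacial with `p` -/
def TP {V : Type} (G : SimpleGraph V) (z v p q w : V) : Prop :=
  {a | G.Adj v a} \ {z, w} ⊆ {t | t = p ∨ Cof (dl G p q) {v}ᶜ p t}

/-- the neighbours of `v` without `z` and `w` are `q` or cofacial with `q` -/
def TQ {V : Type} (G : SimpleGraph V) (z v p q w : V) : Prop :=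
  {a | G.Adj v a} \ {z, w} ⊆ {t | t = q ∨ Cof (dl G p q) {v}ᶜ q t}

/-- type N: the server of `v w` is `t`, and `N(v) ∖ {w, t}` is in the face `Γ` of `G_t` with `r, r'` next to `z` -/
def TN {V : Type} (G : SimpleGraph V) (z v p q r r' w t : V) (Γ : Set V) : Prop :=
  Ng G z v p q r r' t Γ ∧ t ≠ w ∧ w ∉ Γ ∧ {a | G.Adj v a} \ {w, t} ⊆ Γ

/-- CLS.  Classification of the neighbours `w ≠ z` of `v`; and `N(v) ∖ {z}` itself is in no face of `H`, etc.
Proof.  Second part: a face of `H`: StSVF (1) for `t = z`.  `{p} ∪ Cof(p)`: `Cof(p)` (without `p`) is a face of `G` on `{p, v}ᶜ` (StMRG for `P`, `x = p`; on `{v}ᶜ ∖ {p} = {p, v}ᶜ` the graphs `dl G p q` and `G` agree; 3-connected by StBAS (2)), it contains `z`, so StSVF (1) for `t = p` (that `G` on `{p, v}ᶜ` is planar: subgraph of `P`).  Same for `q`.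
First part: `bh.hd v w` gives a server `t` of `v w`; StSVF (2): face `Γ` of `G_t` with `N(v) ∖ {w, t} ⊆ Γ`, `w ∉ Γ`.  `t = z`: TH.  Otherwise `z ∈ Γ`.  `t = p`: StMRG: `Γ` is a face of `P` without `p`, so `f2` or `f3` (`all`), and TH with `(f1 ∪ f2) ∖ {z} ∋ p` or `(f3 ∪ f4) ∖ {z}`; or `Γ = Cof(p)`: TP.  Same for `t = q` (`f1`, `f4`, or TQ).
`t ≠ v, z, p, q`: StPAI and StOTT.  `Γ = {z, p, q}`: if `t` is cofacial with `p` and `q` then `t = r` or `r'` (StTGA); in all cases `t` is in one of the `fi`, and `{t, p, q}` is in `(f1 ∪ f2) ∖ {z}` or in `(f3 ∪ f4) ∖ {z}`: TH.  Pair `p, r` (so `t ≠ r`): if `t` cofacial with `p, q`: `t ∉ f1` (StCRN), `Γ = f1`, TP.  Second possibility of StOTT: excluded.  Third: `t ∉ f1` (`f1 ∩ f2 = {z, r}`,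
`f1 ∩ f4 = {z, p}`), `Γ = f1`; `t ∈ f2`: TH with `(f1 ∪ f2) ∖ {z}`; `t ∈ f4`: TP.  The pairs `q r`, `q r'`, `p r'` by symmetry (TH or TP or TQ).  Pair `r, r'`: TN. -/
def StCLS : Prop := ∀ (V : Type) [Finite V] (G : SimpleGraph V) (z v p q r r' : V) (f1 f2 f3 f4 : Set V),
  Cfg G z v p q r r' f1 f2 f3 f4 →
  (∀ w, G.Adj v w → w ≠ z → (∃ F, TH G z v w F) ∨ TP G z v p q w ∨ TQ G z v p q w ∨ ∃ t Γ, TN G z v p q r r' w t Γ) ∧
  (∀ F, IsFace G {z, v}ᶜ F → ¬ ({a | G.Adj v a} \ {z} ⊆ F)) ∧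
  ¬ ({a | G.Adj v a} \ {z} ⊆ {t | t = p ∨ Cof (dl G p q) {v}ᶜ p t}) ∧
  ¬ ({a | G.Adj v a} \ {z} ⊆ {t | t = q ∨ Cof (dl G p q) {v}ᶜ q t})

end Pool.Agent.Helper12.MA
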