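import Pool.Agent.Helper12.MA.StB

/-!
# Project MA, part C: from a double server to `W8`

Notation of part B.  `W' = {a | G.Adj v a} ∖ {z}` has at least 4 elements.
-/

set_option autoImplicit false

namespace Pool.Agent.Helper12.MA

open Pool.Agent.Helper51.AJ (IsMinor Planar Apex ExMinor Con Tch)
open Pool.Agent.Helper12.NK (rst Kc add cnt Pcy IsFace Cof plus)

/-- HTR.  No three elements of `W'` have type TH.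
Proof.  Let `w₁, w₂, w₃ ∈ W'` be different, `W' ∖ {wᵢ} ⊆ Fᵢ`, faces of `H` (`Pn`, StHFA); `wᵢ ∉ Fᵢ` (StCLS, second part), so the `Fᵢ` are different.  `F₁ ∩ F₂ ⊇ W' ∖ {w₁, w₂}` has at most two elements (StFNB (5)), so `|W'| = 4`, `W' = {w₁, w₂, w₃, w₄}`.  StDGT: the neighbours of `w₄` in `H` are among `w₁, w₂, w₃`.  So
`Nb G {v, w₄} ⊆ {z, w₁, w₂, w₃}`, and `{v, w₄} ∪ Nb` has at most 6 < 8 elements, contradiction to StBAS (6). -/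
def StHTR : Prop := ∀ (V : Type) [Finite V] (G : SimpleGraph V) (z v p q r r' : V) (f1 f2 f3 f4 : Set V),
  Cfg G z v p q r r' f1 f2 f3 f4 → ∀ (w₁ w₂ w₃ : V) (F₁ F₂ F₃ : Set V), G.Adj v w₁ → G.Adj v w₂ → G.Adj v w₃ → w₁ ≠ z → w₂ ≠ z → w₃ ≠ z →
  w₁ ≠ w₂ → w₂ ≠ w₃ → w₁ ≠ w₃ → TH G z v w₁ F₁ → TH G z v w₂ F₂ → TH G z v w₃ F₃ → False

/-- PVA.  If `v` is adjacent to `p` then `N(v) = {z, p, q, w₁, w₂}` with `w₁ ∈ f4`, `w₂ ∈ f1`, and `q` has type TP.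
Proof.  For `w ∈ W' ∖ {p}`: StCLS; TQ is impossible (`p` is in the set, `p ≠ q`, `npq`), TN too (`p ∉ Γ`, `p ≠ t`).  At most one such `w` has type TP (two different ones would give `W' ⊆ {p} ∪ Cof(p)`, StCLS), at most two have type TH (StHTR).  `|W'| ≥ 4`.  So `|W'| = 4`, `W' = {p, w₁, w₂, w₃}`, `w₃` of type TP, `w₁, w₂` of type TH with faces `F₁ ∌ w₁`, `F₂ ∌ w₂`
(StCLS), `F₁ ≠ F₂`, both contain `p, w₃`: so `G.Adj p w₃` (StFNB (4) for `H`).  `w₃ ≠ p` is not cofacial with `p` in `P` (otherwise `W' ⊆ {p} ∪ Cof(p)`), so it is not adjacent to `p` in `P` (StFNB (6)): `w₃ = q`.  `F₁`, `F₂` contain `p`, `q`, so they are `(f1 ∪ f2) ∖ {z}` and `(f3 ∪ f4) ∖ {z}` (StHFA, `npq`); rename so that `F₁ = (f1 ∪ f2) ∖ {z} ∋ w₂`, `F₂ ∋ w₁`.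
By TP for `q`, `w₁, w₂` are cofacial with `p` (they are not `p`).  If `w₂ ∈ f2` then `w₂ = r ∈ f1` (StCRN (2)); so `w₂ ∈ f1`.  Same: `w₁ ∈ f4`. -/
def StPVA : Prop := ∀ (V : Type) [Finite V] (G : SimpleGraph V) (z v p q r r' : V) (f1 f2 f3 f4 : Set V),
  Cfg G z v p q r r' f1 f2 f3 f4 → G.Adj v p → ∃ w₁ ∈ f4, ∃ w₂ ∈ f1, w₁ ≠ z ∧ w₂ ≠ z ∧ (∀ a, G.Adj v a ↔ a = z ∨ a = p ∨ a = q ∨ a = w₁ ∨ a = w₂) ∧
    TP G z v p q q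

/-- PVB.  `v` is not adjacent to `p` and not to `q`.
Proof.  If `v ~ p`: StPVA; then `v ~ q` and StPVA for the rotated configuration (`p ↔ q, r ↔ r'`, f3 f4 f1 f2): TQ for `p` (`TP` of the rotated one for its `q`, which is `p`; `dl G q p = dl G p q`).  So `w₂ ∈ f1` is cofacial with `q` (it is `≠ p, q, z`, in the set; `w₂ ≠ q` as `q ∉ f1`... if `w₂ = p` use that `N(v)` has at least 5 elements), `w₂ = r` (StCRN (1)), and `w₁ = r'`.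
`N(v) = {z, p, q, r, r'}`, `Nb G {v, z} ⊆ {p, q, r, r'}`, at most 6 < 8 vertices, contradiction to StBAS (6).  If `v ~ q`: the rotated configuration. -/
def StPVB : Prop := ∀ (V : Type) [Finite V] (G : SimpleGraph V) (z v p q r r' : V) (f1 f2 f3 f4 : Set V),
  Cfg G z v p q r r' f1 f2 f3 f4 → ¬ G.Adj v p ∧ ¬ G.Adj v q

/-- OTC.  `Ng` at `t` gives a cut through `t` of the first or of the second (reflected) kind.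
Proof.  `t` is not cofacial with both `p, q` (StTGA).  StOTY: a `Sep`; StOTS: `X = {p}` would give (StSPB (5)) `N(p) = {q} ∪ {v, z, t, b}`, but `v` is not adjacent to `p` (StPVB); same for `q`. -/
def StOTC : Prop := ∀ (V : Type) [Finite V] (G : SimpleGraph V) (z v p q r r' : V) (f1 f2 f3 f4 : Set V),
  Cfg G z v p q r r' f1 f2 f3 f4 → ∀ t Γ, Ng G z v p q r r' t Γ →
  ∃ b X Y, Cut G z v p q r r' f1 f3 t b X Y ∨ Cut G z v p q r r' f1 f3 b t X Y ∨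
    Cut G z v p q r' r f4 f2 t b X Y ∨ Cut G z v p q r' r f4 f2 b t X Y

/-- CUA.  Basic facts on a cut (first kind).
Proofs.  (1) `F` connected (cycle) in `P`, even `F ∖ {σ}` and `F ∖ {b}` are (StFAY), no edges of `P` between `X` and `Y`, `z, v ∉ F`.  (2) `f2 ∖ {z}` is connected in `P`, contains `r, q ∈ Y`; `σ, b ∉ f2` (`σ ∈ f1`, `f1 ∩ f2 = {z, r}`, `σ ≠ r` as `r ∈ Y`; `b ∈ f3`, `f2 ∩ f3 = {z, q}`).  (3) StFAY (2) for `f1`, `z`, `t = σ`, `a = p`, `b = r`: `f1 ∖ {z, σ} = A ∪ B`, `A ∋ p` connected and in `X`,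
`B ∋ r` in `Y`.  (4) `t ∈ Y`, `F ∋ p, t`; if `z ∉ F` then `b ∈ F` by (1), so `b` is cofacial with `p`, `b = r'` (StCRN (3)), but `r' ∈ X`.  So `F = f1` or `f4`, `f4 ⊆ X ∪ {z}`.  (5) For the nonempty set `X ∖ {p, r'}`: first `X ≠ {p, r'}`: otherwise `Nb G {p} ⊆ {q, z, r', σ, b}` (`v` not adjacent to `p`, StPVB), so (at least 5) `p` is adjacent to `b`, cofacial, `b = r'` by StCRN, contradiction.
`A = X ∖ {p, r'}`: `Nb G A ⊆ {p, r', σ, b, v}` (`z` has only the neighbours `v, p, q, r, r'`; `q` is adjacent to `p` only), `q ∉ A ∪ Nb G A`; if `v ∉ Nb G A` then at most 4, contradiction to StBAS (6). -/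
def StCUA : Prop := ∀ (V : Type) [Finite V] (G : SimpleGraph V) (z v p q r r' : V) (f1 f2 f3 f4 : Set V),
  Cfg G z v p q r r' f1 f2 f3 f4 → ∀ (σ b : V) (X Y : Set V), Cut G z v p q r r' f1 f3 σ b X Y →
  (∀ F, IsFace (dl G p q) {v}ᶜ F → z ∉ F → (F ∩ X).Nonempty → (F ∩ Y).Nonempty → σ ∈ F ∧ b ∈ F) ∧
  (f2 ⊆ insert z Y ∧ f4 ⊆ insert z X) ∧
  (f1 ⊆ X ∪ Y ∪ {z, σ} ∧ Con (dl G p q) (f1 ∩ X) ∧ Con (dl G p q) (f1 ∩ Y) ∧ (∃ a ∈ f1 ∩ X, G.Adj σ a) ∧ (∃ a ∈ f1 ∩ Y, G.Adj σ a) ∧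
    f3 ⊆ X ∪ Y ∪ {z, b} ∧ Con (dl G p q) (f3 ∩ X) ∧ Con (dl G p q) (f3 ∩ Y) ∧ (∃ a ∈ f3 ∩ X, G.Adj b a) ∧ (∃ a ∈ f3 ∩ Y, G.Adj b a)) ∧
  ((∀ t ∈ Y, Cof (dl G p q) {v}ᶜ p t → t ∈ f1) ∧ (∀ t ∈ X, Cof (dl G p q) {v}ᶜ q t → t ∈ f3)) ∧
  ((∃ x ∈ X, x ≠ p ∧ x ≠ r' ∧ G.Adj v x) ∧ (∃ y ∈ Y, y ≠ q ∧ y ≠ r ∧ G.Adj v y))

/-- CUM.  Opposite cofacial vertices form a cut.
Proof.  `F ∋ a, c`, `z ∉ F` (otherwise `F` is some `fi` and the intersections give a contradiction).  `K` = the vertices `a, c` and the faces `f1, F, f3` (positions 1, 5).  By RIM no connected set of `P` in `W = ({v, z, a, c})ᶜ` contains one of `p, r'` and one of `r, q` (positions 0, 6 and 2, 4).  `W` is connected in `G`, so it has in `P` exactly two components `X ∋ p`, `Y ∋ q`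
(two components not containing an end of the edge `p q` are impossible).  `r' ∈ W`, so `r' ∈ X`; `r ∈ Y`. -/
def StCUM : Prop := ∀ (V : Type) [Finite V] (G : SimpleGraph V) (z v p q r r' : V) (f1 f2 f3 f4 : Set V),
  Cfg G z v p q r r' f1 f2 f3 f4 → ∀ a ∈ f1, ∀ c ∈ f3, a ≠ z → a ≠ p → a ≠ r → c ≠ z → c ≠ q → c ≠ r' →
  Cof (dl G p q) {v}ᶜ a c → ∃ X Y, Cut G z v p q r r' f1 f3 a c X Y

/-- CUN.  There are not cuts of both kinds.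
Proof.  First kind `σ ∈ f1, b ∈ f3`, `X ∋ p, r'`, `Y ∋ q, r`; second kind `σ' ∈ f4, b' ∈ f2`, `X' ∋ p, r`, `Y' ∋ q, r'`.  By StCUA (2): `f2 ⊆ insert z Y`, `f4 ⊆ insert z X`, so `b' ∈ Y`, `σ' ∈ X`; for the reflected configuration: `σ ∈ X'`, `b ∈ Y'`.  `D = X ∩ X' ∋ p`.  `A = D ∖ {p}`: `Nb G A ⊆ {p, v, σ, σ'}` (not `z`: its neighbours `r ∈ Y`, `r' ∈ Y'`; `b ∈ Y'` and `b' ∈ Y` have
no neighbours in `A`: the only edge between `X` and `Y` is `p q`).  `q ∉ A ∪ Nb G A`, so by StBAS (6) `A = ∅`, and `N(p) ⊆ {q, v, z, σ, σ'}`, five neighbours, so `v ~ p`, contradiction to StPVB. -/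
def StCUN : Prop := ∀ (V : Type) [Finite V] (G : SimpleGraph V) (z v p q r r' : V) (f1 f2 f3 f4 : Set V),
  Cfg G z v p q r r' f1 f2 f3 f4 → ∀ (σ b σ' b' : V) (X Y X' Y' : Set V), Cut G z v p q r r' f1 f3 σ b X Y →
  Cut G z v p q r' r f4 f2 σ' b' X' Y' → False

/-- UNX.  Two cuts.
Proof.  `D = X ∩ Y'`, nonempty.  `z` is not adjacent to `D` (its neighbours: `p, r' ∈ X'`, `q, r ∈ Y`, `v`).  Let `n ∈ Nb G D`, adjacent to `a ∈ D`, `a ≠ p` (`p ∈ X'`), `a ≠ q`.  If `n ∉ X`: `n ∉ Y` (only `p q` between `X` and `Y`), so `n ∈ {v, σ, b}`; and `n ∉ X'`.  If `n ∈ X`, then `n ∉ Y'`, `n ∉ X'`, `n ∈ {σ', b', v}`.  So `Nb G D ⊆ {v} ∪ ({σ, b} ∖ X') ∪ ({σ', b'} ∩ X)`.  `p ∉ D ∪ Nb G D`, so `|Nb G D| ≥ 5`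
(StBAS (6)): all four are there and different: `σ', b' ∈ X`, `σ, b ∉ X'`, `σ, b ∉ {z, v, σ', b'}`, so `σ, b ∈ Y'`. -/
def StUNX : Prop := ∀ (V : Type) [Finite V] (G : SimpleGraph V) (z v p q r r' : V) (f1 f2 f3 f4 : Set V),
  Cfg G z v p q r r' f1 f2 f3 f4 → ∀ (σ b σ' b' : V) (X Y X' Y' : Set V), Cut G z v p q r r' f1 f3 σ b X Y →
  Cut G z v p q r r' f1 f3 σ' b' X' Y' → (X ∩ Y').Nonempty → σ ∈ Y' ∧ b ∈ Y' ∧ σ' ∈ X ∧ b' ∈ X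

/-- ORD.  The order on the bottom and on the top side, and exchange.  `(σ, b, X, Y)`, `(σ', b', X', Y')` cuts.
(1) `b ∈ X'` implies `b' ∈ Y`: `f3 ∩ Y'` is connected in `P`, contains `q ∈ Y`, avoids `b` (`b ∈ X'`), `σ`, `z`, `v`, so it is in `Y`; `b'` has a neighbour in it (StCUA (3)), `b' ≠ b`, `b' ∉ X` (the only edge between `X` and `Y` is `p q`, `b' ≠ p`), `b' ≠ σ` (`f1 ∩ f3 = {z}`).  (2) the same on the top: `σ ∈ X'` implies `σ' ∈ Y`.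
(3) If `b ∈ X'` and `σ' ∈ X` then `(σ', b)` is a cut with left side `X ∩ X'`: `σ ∈ Y'` ((2) with exchanged roles), `b' ∈ Y`; a neighbour `n ∉ X ∩ X'` of `a ∈ X ∩ X'`: if `n ∉ X` then `n ∈ {v, z, σ, b}` or `(a, n) = (p, q)`; `n ≠ σ` unless `a = p, n = q` since `σ ∈ Y'`, `a ∈ X'`; if `n ∈ X ∖ X'` then `n ∈ {σ', b', z, v}` (`n ∈ Y'` is impossible), `n ≠ b'`.
So `Sep G {v, z, σ', b} p q (X ∩ X') R` with `R` the rest (`∋ q, r`). -/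
def StORD : Prop := ∀ (V : Type) [Finite V] (G : SimpleGraph V) (z v p q r r' : V) (f1 f2 f3 f4 : Set V),
  Cfg G z v p q r r' f1 f2 f3 f4 → ∀ (σ b σ' b' : V) (X Y X' Y' : Set V), Cut G z v p q r r' f1 f3 σ b X Y →
  Cut G z v p q r r' f1 f3 σ' b' X' Y' →
  (b ∈ X' → b' ∈ Y) ∧ (σ ∈ X' → σ' ∈ Y) ∧ (b ∈ X' → σ' ∈ X → ∃ X₁ Y₁, Cut G z v p q r r' f1 f3 σ' b X₁ Y₁ ∧ X₁ ⊆ X ∩ X')

/-- MIN.  The leftmost cut.
Proof.  Take a cut `(σ, b, X, Y)` with `|X|` minimal, and let `(σ', b', X', Y')` be a cut, suppose not `X ⊆ X'`.  Case A: `X ∩ Y' ≠ ∅`.  StUNX: `σ, b ∈ Y'`, `σ', b' ∈ X`.  Then `X' ∩ Y = ∅` (StUNX with exchanged roles would give `σ ∈ X'`), and `σ, b ∉ X'`, so `X' ⊆ X`, `σ' ∈ X ∖ X'`: `|X'| < |X|`, contradiction.  Case B: `X ∩ Y' = ∅`, so `σ' ∈ X` or `b' ∈ X` (`z, v ∉ X`).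
B1: `σ' ∈ X` and `b' ∈ X`: then `X'' = X ∩ X'` is a side of `{v, z, σ', b'}`: by StORD (1), (2) (exchanged roles) `σ, b ∈ Y'`; a neighbour `n ∉ X''` of `a ∈ X''`: `n ∉ X`: `n ∈ {v, z, σ, b}` or `(p, q)`; `n = σ, b ∈ Y'` impossible; `n ∈ X ∖ X' ⊆ {σ', b'}`.  So a cut with `|X''| < |X|` (`σ' ∉ X''`).  B2: `σ' ∈ X`, `b' ∉ X`: `σ ∈ Y'`.  `X'' = X ∩ X'`, the same computation: `n ∉ X`: `n ∈ {v, z, b}`
or `(p, q)`; `n ∈ X ∖ X' = {σ'}`: a side of `{v, z, σ', b}`, a cut (`b ∈ f3`, `r' ∈ X''`, `r` in the rest), `|X''| < |X|`.  B3: `b' ∈ X`, `σ' ∉ X`: symmetric, `{v, z, σ, b'}`. -/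
def StMIN : Prop := ∀ (V : Type) [Finite V] (G : SimpleGraph V) (z v p q r r' : V) (f1 f2 f3 f4 : Set V),
  Cfg G z v p q r r' f1 f2 f3 f4 → (∃ σ b X Y, Cut G z v p q r r' f1 f3 σ b X Y) →
  ∃ σ b X Y, Cut G z v p q r r' f1 f3 σ b X Y ∧ ∀ σ' b' X' Y', Cut G z v p q r r' f1 f3 σ' b' X' Y' → X ⊆ X'

/-- GAA.  The face `Γ` (`Ng`) for the deleted vertex `b` of a cut `(σ, b, X, Y)`.
Proof.  `Γ ⊆ {b, v}ᶜ`, `p, q ∉ Γ`.  `Γ ∖ {z}` is connected in `P`, contains `r' ∈ X`, `r ∈ Y`, so `σ ∈ Γ`.  `R = {b, v}ᶜ ∖ Γ` is connected in `G`, contained in `X ∪ Y` (`z, σ ∈ Γ`), contains `p` and `q`, and the only edge between `X` and `Y` is `p q`; so `R ∩ X = X ∖ Γ` is connected (contains `p`) and `R ∩ Y = Y ∖ Γ` is connected.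
(3) Let `t ∈ f3 ∩ X`, `t ∉ Γ`: `L` = `X ∖ Γ` with the face `f3`: positions 0 and 5; `K = Γ ∖ {z}`, positions 2 and 6: RIM 0, 2, 5, 6.  (2) `f1 ∩ Y ⊆ Γ`: `L` = `Y ∖ Γ` with `f1`, positions 1, 4; `K = Γ ∖ {z}`: 2, 6: RIM 1, 2, 4, 6.  Conversely: `Γ ∖ {z}` is a path `g 0 = r', ..., g k = r` (StFAX (3); or reversed), `σ = g j`; `{σ} ∪ (f1 ∩ Y)` is connected (StCUA (3)), contained in it, contains
`g j` and `g k`, so it contains all `g i`, `i ≥ j`; and `Γ ∩ Y ⊆ {g i | i > j}` (the part before `j` is connected, avoids `σ`, contains `r'`, so it is in `X`).  (5) `{g 0, ..., g j}` is connected and this is `(Γ ∩ X) ∪ {σ}`. -/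
def StGAA : Prop := ∀ (V : Type) [Finite V] (G : SimpleGraph V) (z v p q r r' : V) (f1 f2 f3 f4 : Set V),
  Cfg G z v p q r r' f1 f2 f3 f4 → ∀ (σ b : V) (X Y Γ : Set V), Cut G z v p q r r' f1 f3 σ b X Y → Ng G z v p q r r' b Γ →
  σ ∈ Γ ∧ Γ ∩ Y = f1 ∩ Y ∧ f3 ∩ X ⊆ Γ ∧ (Con (dl G p q) (X \ Γ) ∧ p ∈ X \ Γ) ∧ Con (dl G p q) ((Γ ∩ X) ∪ {σ}) ∧
  (∃ (k j : ℕ) (g : ℕ → V), j < k ∧ g 0 = r' ∧ g k = r ∧ g j = σ ∧ (∀ i i', i ≤ k → i' ≤ k → g i = g i' → i = i') ∧ Γ = insert z {x | ∃ i, i ≤ k ∧ x = g i} ∧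
    (∀ i i', i ≤ k → i' ≤ k → (G.Adj (g i) (g i') ↔ (i' = i + 1 ∨ i = i' + 1))) ∧ (∀ i, i < j → g i ∈ X) ∧ (∀ i, j < i → i ≤ k → g i ∈ Y))

/-- GAB.  In the left side, `Γ` consists exactly of the vertices cofacial with `b`.
Proof.  (→) Let `F ∋ b, t`, `t ∈ X`, `t ∉ Γ`.  `L` = the vertices `(X ∖ Γ) ∪ {b}` with the faces `F, f3` (connected by StGAA (4), `t ∈ F`, `b ∈ F, f3`): positions 0 (`p`), 5 (`f3`).  `K` = `(Γ ∩ X) ∪ {σ}` with the face `f1`: positions 6 (`r'`), 1 (`f1`).  `F ≠ f1` because `b ∉ f1`.  RIM 0, 1, 5, 6: contradiction.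
(←) Let `t = g i ∈ Γ ∩ X`, `i < j` (StGAA (6)), not cofacial with `b`.  `π₀ = {g 0, ..., g (i-1)}`.  `f3 ∩ X` is connected, contained in `Γ`, contains `r' = g 0` (so `t ≠ r'`), and avoids `t` (`b ∈ f3`), so it is in `π₀`.  StLNV for `b`, `f = f3`, `A = π₀`, `a₁` the neighbour of `b` in `f3 ∩ X`, `a₂` the one in `f3 ∩ Y` (StCUA (3)): a face `F ≠ f3` of `P`, `b, c, d ∈ F`, `c ∈ π₀`, `d ∉ π₀`, `c, d` neighbours of `b`.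
`z ∉ F` (the only `fi` containing `b` is `f3`), `t ∉ F`.  `F ∩ X ⊆ Γ` by (→).  `F ∖ {b}` is connected in `P`: there is an edge of `P` from `n ∈ π₀ ∩ F` to `n' ∈ F ∖ {b}`, `n' ∉ π₀`.  `n' ≠ z, v, b, t`.  `n' ∈ Γ ∩ X` is `g i'` with `i' > i`, not consecutive to `n`; `n' = σ = g j` neither (`n = g a`, `a < i < j`); `n' ∈ Y` is impossible (edge between `X` and `Y` in `P`).  Contradiction. -/
def StGAB : Prop := ∀ (V : Type) [Finite V] (G : SimpleGraph V) (z v p q r r' : V) (f1 f2 f3 f4 : Set V),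
  Cfg G z v p q r r' f1 f2 f3 f4 → ∀ (σ b : V) (X Y Γ : Set V), Cut G z v p q r r' f1 f3 σ b X Y → Ng G z v p q r r' b Γ →
  ∀ t ∈ X, (t ∈ Γ ↔ Cof (dl G p q) {v}ᶜ b t)

/-- the situation with cuts (first kind): `X₀` is contained in all left sides, `Y₀` in all right sides, `x ∈ X₀`, `y ∈ Y₀` are neighbours of `v` -/
structure Env {V : Type} (G : SimpleGraph V) (z v p q r r' : V) (f1 f2 f3 f4 X₀ Y₀ : Set V) (x y : V) : Prop where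
  cf : Cfg G z v p q r r' f1 f2 f3 f4
  cX : ∃ σ b Y, Cut G z v p q r r' f1 f3 σ b X₀ Y
  cY : ∃ σ b X, Cut G z v p q r r' f1 f3 σ b X Y₀
  mX : ∀ σ b X Y, Cut G z v p q r r' f1 f3 σ b X Y → X₀ ⊆ X ∧ Y₀ ⊆ Y
  xX : x ∈ X₀
  xp : x ≠ p
  xs : x ≠ r'
  vx : G.Adj v x
  yY : y ∈ Y₀
  yq : y ≠ q
  yr : y ≠ r
  vy : G.Adj v y

/-- ENS.  Symmetry of `Env` (rotation) and: a vertex of `X₀` is in no cut, nor is one of `Y₀`; a vertex of `f1 ∩ Y₀` or of `f3 ∩ X₀` other than the corners is in no cut; opposite vertices one of which is in `X₀ ∪ Y₀` are not cofacial.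
Proof.  (1) StSYM.  (2) `Cut σ b X Y`: `X₀ ⊆ X`, `σ, b ∉ X`.  (3) If `a ∈ f1`, `c ∈ f3` (not corners, not `z`) are cofacial then StCUM gives a cut `(a, c)`, so by (2) `a, c ∉ X₀ ∪ Y₀`.  (4) Types of `Ng`: StOTC and StCUN (the second kind is impossible). -/
def StENS : Prop := ∀ (V : Type) [Finite V] (G : SimpleGraph V) (z v p q r r' : V) (f1 f2 f3 f4 X₀ Y₀ : Set V) (x y : V),
  Env G z v p q r r' f1 f2 f3 f4 X₀ Y₀ x y →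
  Env G z v q p r' r f3 f4 f1 f2 Y₀ X₀ y x ∧
  (∀ σ b X Y, Cut G z v p q r r' f1 f3 σ b X Y → σ ∉ X₀ ∪ Y₀ ∧ b ∉ X₀ ∪ Y₀) ∧
  (∀ a ∈ f1, ∀ c ∈ f3, a ≠ z → a ≠ p → a ≠ r → c ≠ z → c ≠ q → c ≠ r' → (a ∈ X₀ ∪ Y₀ ∨ c ∈ X₀ ∪ Y₀) → ¬ Cof (dl G p q) {v}ᶜ a c) ∧
  (∀ t Γ, Ng G z v p q r r' t Γ → ∃ b X Y, Cut G z v p q r r' f1 f3 t b X Y ∨ Cut G z v p q r r' f1 f3 b t X Y)

/-- ENT.  What the types say about `x` and `y`, for `w ∈ W' ∖ {x, y}`.  Proofs.  For all of them `x, y` are in the set.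
TH: by StHFA the face is `(f1 ∪ f2) ∖ {z}` (then `x ∈ f1` because `f2 ⊆ insert z Y` for all cuts, StCUA (2); (b)), or `(f3 ∪ f4) ∖ {z}` (`y ∈ f3`; (c)), or a face of `P` without `z` (d): then it contains all `σ, b` (StCUA (1), `x ∈ X₀ ⊆ X`, `y ∈ Y₀ ⊆ Y`).
TP: `y ≠ p` cofacial with `p`, so `y ∈ f1` (StCUA (4)); `x` cofacial with `p`.  TQ: `x ∈ f3`, `y` cofacial with `q`.  TN with `t`: StENS (4): if `t = b` in a cut `(σ, b, X, Y)`: StGAA (2): `y ∈ Γ ∩ Y = f1 ∩ Y`; (g).  If `t = σ`: the rotated StGAA (for `Cut ... b σ Y X`, StSYM) gives `Γ ∩ X = f3 ∩ X ∋ x`. (f).  (`x, y ≠ t` by StENS (2).) -/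
def StENT : Prop := ∀ (V : Type) [Finite V] (G : SimpleGraph V) (z v p q r r' : V) (f1 f2 f3 f4 X₀ Y₀ : Set V) (x y : V),
  Env G z v p q r r' f1 f2 f3 f4 X₀ Y₀ x y →
  ∀ w, G.Adj v w → w ≠ z → w ≠ x → w ≠ y →
  (TH G z v w ((f1 ∪ f2) \ {z}) ∧ x ∈ f1 ∧ (y ∈ f1 ∨ y ∈ f2)) ∨
  (TH G z v w ((f3 ∪ f4) \ {z}) ∧ y ∈ f3 ∧ (x ∈ f3 ∨ x ∈ f4)) ∨
  (∃ F, TH G z v w F ∧ IsFace (dl G p q) {v}ᶜ F ∧ z ∉ F ∧ x ∈ F ∧ y ∈ F ∧ ∀ σ b X Y, Cut G z v p q r r' f1 f3 σ b X Y → σ ∈ F ∧ b ∈ F) ∨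
  (TP G z v p q w ∧ y ∈ f1 ∧ Cof (dl G p q) {v}ᶜ p x) ∨
  (TQ G z v p q w ∧ x ∈ f3 ∧ Cof (dl G p q) {v}ᶜ q y) ∨
  (∃ t b X Y Γ, Cut G z v p q r r' f1 f3 t b X Y ∧ TN G z v p q r r' w t Γ ∧ x ∈ f3 ∧ x ∈ Γ ∧ y ∈ Γ) ∨
  (∃ σ t X Y Γ, Cut G z v p q r r' f1 f3 σ t X Y ∧ TN G z v p q r r' w t Γ ∧ y ∈ f1 ∧ x ∈ Γ ∧ y ∈ Γ)

/-- MCA.  `x ∈ f3` or `y ∈ f1`.
Proof.  Suppose not.  `|W'| ≥ 4`, take `w₁ ≠ w₂` in `W' ∖ {x, y}`.  By StENT each has type (a) `TH` with `(f1 ∪ f2) ∖ {z}`, `x ∈ f1`, `y ∈ f2`, or (b) `TH` with `(f3 ∪ f4) ∖ {z}`, `y ∈ f3`, or (c) `TH` with a face `F ∋ x, y` of `P`.  (a) and (b) exclude each other (`f2 ∩ f3 = {z, q}`, `y ≠ q`, `y ≠ z`).  Two different `w` have different faces (`W' ⊄ F`, StCLS).  So both faces are faces of `H`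
containing `x` and `y`, different, so `x` and `y` are adjacent (StFNB (4) for `H`), but `x ∈ X`, `y ∈ Y`, `x ≠ p` for any cut. -/
def StMCA : Prop := ∀ (V : Type) [Finite V] (G : SimpleGraph V) (z v p q r r' : V) (f1 f2 f3 f4 X₀ Y₀ : Set V) (x y : V),
  Env G z v p q r r' f1 f2 f3 f4 X₀ Y₀ x y → x ∈ f3 ∨ y ∈ f1

/-- MCB.  `x ∉ f1` and `x ∉ f4`.
Proof.  Let `x ∈ f1` or `x ∈ f4`; then `x ∉ f3` (`f1 ∩ f3 = {z}`, `f3 ∩ f4 = {z, r'}`), so `y ∈ f1` by StMCA (and the same for every other `y' ∈ Y₀`, `y' ≠ q, r`, `G.Adj v y'`).  Types in StENT of the `w ∈ W' ∖ {x, y}`: not the second (`y ∉ f3`), not the fifth and sixth (`x ∉ f3`); not the third: `y ∈ f1`, `b ∈ f3` would be cofacial (`b` of any cut), StENS (3).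
The last: `x ∈ Γ`, `Γ` the face for the deleted `t` of a cut `(σ, t, X, Y)`.  If `x ∈ f1`: StGAB: `x` is cofacial with `t ∈ f3`, contradiction to StENS (3) (`x ∈ f1`, `x ≠ p, r, z`; `t ≠ q, r', z` since it is on no side).  If `x ∈ f4`: `f4` is a face of `G_t`: StPAI... simpler: `x` is cofacial with `t ∈ f3` (StGAB), contradiction to StCRN (6) (`a = t`, `c = x ≠ r', z`; `t ≠ z, r'`).
So all have type one (`x ∈ f1`) or four (TP).  If `x ∈ f4` (not in `f1`, as `f1 ∩ f4 = {z, p}`): all have type TP, but two different `w` of type TP give `W' ⊆ {p} ∪ Cof(p)` (StCLS): contradiction, there are at least two.  If `x ∈ f1`: at most one of type TP and at most one of type one (StCLS), so `W' = {x, y, w₁, w₂}`, `w₁` of type one, `w₂` of type TP; `w₂ ∈ (f1 ∪ f2) ∖ {z}` (type of `w₁`) and `w₂` is not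
`p` and not cofacial with `p` (StCLS), so `w₂ ∉ f1`, `w₂ ∈ f2`.  `w₂ ≠ r` (`r ∈ f1`), `w₂ ≠ q` (StPVB).  `f2 ⊆ insert z Y₀` (StCUA (2) for the cut with `Y₀`).  So `Env` holds with `w₂` instead of `y`, and StMCA gives `w₂ ∈ f1` (`x ∉ f3`): contradiction. -/
def StMCB : Prop := ∀ (V : Type) [Finite V] (G : SimpleGraph V) (z v p q r r' : V) (f1 f2 f3 f4 X₀ Y₀ : Set V) (x y : V),
  Env G z v p q r r' f1 f2 f3 f4 X₀ Y₀ x y → x ∉ f1 ∧ x ∉ f4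

/-- MCC.  The case `x ∉ f3`, first part: the structure.
Proof.  `y ∈ f1` (StMCA).  `x ∉ f1, f4` (StMCB), `x ∉ f2` (`f2 ⊆ insert z Y`).  As in StMCB the `w ∈ W' ∖ {x, y}` have type TP or the last type of StENT (TN with `t = b`): the first needs `x ∈ f1`.  The type of `y` (StCLS for `w = y`), all sets contain `x`: TH: not `(f1 ∪ f2) ∖ {z}`, `(f3 ∪ f4) ∖ {z}`, so a face of `P` without `z`.  TP: `y` itself is cofacial with `p` (`f1`), excluded (StCLS).  TQ: `x` cofacial with `q`, so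
`x ∈ f3` (StCUA (4)), no.  TN with `t = σ` (first member of a cut): `x ∈ Γ ∩ X = f3 ∩ X` (rotated StGAA), no.  TN with `t = b`: `y ∈ f1 ∩ Y = Γ ∩ Y` (StGAA (2)), but `y ∉ Γ`.  So (1).  (2) is what was said (with StGAB: `x` cofacial with `b`). -/
def StMCC : Prop := ∀ (V : Type) [Finite V] (G : SimpleGraph V) (z v p q r r' : V) (f1 f2 f3 f4 X₀ Y₀ : Set V) (x y : V),
  Env G z v p q r r' f1 f2 f3 f4 X₀ Y₀ x y → x ∉ f3 →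
  y ∈ f1 ∧ x ∉ f1 ∧ x ∉ f2 ∧ x ∉ f4 ∧
  (∃ Φ, TH G z v y Φ ∧ IsFace (dl G p q) {v}ᶜ Φ ∧ z ∉ Φ ∧ x ∈ Φ) ∧
  (∀ w, G.Adj v w → w ≠ z → w ≠ x → w ≠ y → (TP G z v p q w ∧ Cof (dl G p q) {v}ᶜ p x) ∨
    ∃ σ b X Y Γ, Cut G z v p q r r' f1 f3 σ b X Y ∧ TN G z v p q r r' w b Γ ∧ x ∈ Γ ∧ Cof (dl G p q) {v}ᶜ b x)

/-- MCD.  The case `x ∉ f3`: not two `w₁ ≠ w₂` of type TN.
Proof.  `w₁` with the cut `(σ, b, X, Y)`, `Γ`, `w₂` with `(σ', b', X', Y')`, `Γ'`.  `w₁ ∉ Γ`, `w₁ ≠ b`, `w₁ ∈ insert b' Γ'`; `w₂ ∉ Γ'`, `w₂ ≠ b'`, `w₂ ∈ insert b Γ`.  `b ≠ b'`: otherwise `w₁ ∈ Γ'`, and `Γ ≠ Γ'`...: if `b = b'` then `Γ = Γ'` (two faces of `G_b` containing `z, r, r'`: StFNB (5)), so `w₁ ∈ insert b Γ`, contradiction.  `b, b' ∈ f3`.  Say `b ∈ X'` (if `b ∉ X'` then `b ∈ Y'`, and StORD (1) rotated, or: `b' ∈ X` by the rotated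
StORD (1); exchange the names).  `b' ∈ Y` (StORD (1)).  By StUNX `X ∩ Y' = ∅` (`b ∉ Y'`).  `x ∈ X₀ ⊆ X ∩ X'` is cofacial with `b` and `b'`: a face `Ω ∋ x, b'`; `z ∉ Ω` (`x` is in no `fi`); `x ∈ X`, `b' ∈ Y`: so `σ, b ∈ Ω` (StCUA (1)).  So `(σ, b')` is a cut `(σ, b', X'', Y'')` (StCUM).  StUNX: `X'' ∩ Y = ∅` (it would need `σ ∈ Y`... (roles: `(σ, b', X'', Y'')`, `(σ, b, X, Y)`: `σ ∈ X''`), impossible) and
`X' ∩ Y'' = ∅` (needs `b' ∈ X'`), hence `X' ∩ Y = ∅` (`X' ∩ Y ⊆ (X'' ∩ Y) ∪ (X' ∩ Y'') ∪ {σ, b'}`, `σ ∉ Y`, `b' ∉ X'`).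
Case 1: `w₁ = b'`.  `Φ` (StMCC: `W' ∖ {y} ⊆ Φ`) contains `x, b', w₂`; `Φ = Ω` (else `x ~ b'` by StFNB (4), but `x ∈ X`, `b' ∈ Y`).  So `w₂ ∈ Ω`.  `w₂ ∈ X'`: `w₂ ∈ Γ'` by StGAB (`w₂, b' ∈ Ω`), contradiction.  `w₂ = σ' ∈ Γ'` (StGAA (1)), contradiction.  So `w₂ ∈ Y'`, `w₂ ≠ b` (`b ∈ X'`), so `w₂ ∈ Γ`, `w₂ ∉ X` (`X ∩ Y' = ∅`).  `w₂ ∈ Y`: `w₂ ∈ f1` (StGAA (2)), or `w₂ = σ ∈ f1`.  `w₂ ∈ f1`, `w₂ ≠ r` (`r ∈ Γ'`), `≠ z`, `≠ p` (StPVB):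
`w₂, b' ∈ Ω` cofacial, so by StCUM `(w₂, b')` is a cut and by StGAA (1) `w₂ ∈ Γ'`, contradiction.
Case 2: `w₁ ∈ Γ' ∖ Γ`, `w₁ ≠ b`, `w₁ ≠ σ` (StGAA).  2a: `w₁ ∈ Y`: `w₁ ∉ f1` (StGAA (2)), so `w₁ ∉ Y'` (`Γ' ∩ Y' = f1 ∩ Y'`), `w₁ ≠ σ'`, `w₁ ≠ b'`, `w₁ ≠ z`: `w₁ ∈ X'`, but `X' ∩ Y = ∅`.  2b: `w₁ ∈ X`; not in `Y'`.  If `w₁ = σ'`: StORD (3) (`b ∈ X'`, `σ' ∈ X`): `(σ', b)` is a cut, so `σ' ∈ Γ` (StGAA (1)), contradiction.  So `w₁ ∈ X'`, by StGAB cofacial with `b'`: a face `Ω' ∋ w₁, b'`.  If `z ∉ Ω'` then (`w₁ ∈ X`, `b' ∈ Y`) `b ∈ Ω'`,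
so `w₁ ∈ Γ` by StGAB, contradiction.  If `z ∈ Ω'` then `Ω' = f3` (contains `b'`), `w₁ ∈ f3 ∩ X ⊆ Γ`, contradiction. -/
def StMCD : Prop := ∀ (V : Type) [Finite V] (G : SimpleGraph V) (z v p q r r' : V) (f1 f2 f3 f4 X₀ Y₀ : Set V) (x y : V),
  Env G z v p q r r' f1 f2 f3 f4 X₀ Y₀ x y → x ∉ f3 → ∀ (w₁ w₂ σ b σ' b' : V) (X Y X' Y' Γ Γ' : Set V),
  G.Adj v w₁ → w₁ ≠ z → w₁ ≠ x → w₁ ≠ y → G.Adj v w₂ → w₂ ≠ z → w₂ ≠ x → w₂ ≠ y → w₁ ≠ w₂ →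
  Cut G z v p q r r' f1 f3 σ b X Y → TN G z v p q r r' w₁ b Γ → Cut G z v p q r r' f1 f3 σ' b' X' Y' → TN G z v p q r r' w₂ b' Γ' → False

/-- MCE.  The case `x ∉ f3` is impossible.
Proof.  By StMCC, StMCD and (at most one of type TP) (StCLS): `W' = {x, y, w₁, w₂}`, `w₁` of type TP, `w₂` of type TN with the cut `(σ, b, X, Y)`, `Γ`.  `w₁` is not `p`, not cofacial with `p`, `w₁ ∈ insert b Γ`; `w₂ ∉ Γ`, `w₂ ≠ b`, `w₂` is cofacial with `p` (`w₂ ≠ p`, StPVB).  `x` is cofacial with `p` (face `h`) and with `b` (face `g`), `z ∉ h, g`.  `Φ ∋ x, w₁, w₂`.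
`b` is not cofacial with `p` (StCRN (3), `b ≠ r'`).  `w₂ ∉ f3` (StCRN (3): else `w₂ = r' ∈ Γ`).
Let `C` be the component of `r'` in `({v, z, p, x, b})ᶜ` for `P`.  `K` = the vertices `p, x, b` and the faces `h, g, f3`: positions 0 and 5.  So by RIM `C` contains neither `r` nor `q` (6 and 2 or 4), and `C ∩ f1 = ∅` (otherwise `C` with `f1` has the positions 6 and 1).  Note `h, g ≠ f1`.  `Nb G C ⊆ {v, z, p, x, b}` (the edge `p q` does not matter: `p, q ∉ C`).  If `C = {r'}`: `r'` has at least 5 neighbours, so `v ~ r'`, `r' ∈ W'`;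
but `r'` is not `x`, `y` (`y ∈ f1`; `r' ∉ f1`), `w₁` (`r'` is cofacial with `p`), `w₂` (`r' ∈ Γ`).  In general `|Nb G C| ≥ 5` (StBAS (6), `q ∉`), so `v` has a neighbour in `C`: it is not `y ∈ f1`, not `x`; so `w₁ ∈ C` or `w₂ ∈ C`.
The type of `x` (StCLS for `w = x`; the set contains `y, w₁, w₂`).  TP: `w₁` no.  TQ: `y ∈ f1` cofacial with `q` gives `y = r`, no.  TH with `(f3 ∪ f4) ∖ {z}`: `y ∉` (`f1 ∩ f3`, `f1 ∩ f4`, `y ≠ p, z`).  TH with `(f1 ∪ f2) ∖ {z}`: `w₁ ∉ f1` (cofacial with `p`), so `w₁ ∈ f2 ⊆ insert z Y`, `w₁ ≠ b` (`b ∈ f3`, `b ≠ q`), `w₁ ∈ Γ ∩ Y = f1 ∩ Y`, contradiction.  TH with a face `F` of `P`, `z ∉ F`, `x ∉ F` (StCLS), `y ∈ F`, and `F` meets `C`: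
`y ∉ C`, `F` is a cycle, so it contains at least two vertices of `{z, p, x, b}` outside: `F` minus one vertex is connected; so `p, b ∈ F`, cofacial, contradiction.
TN with a cut `(σ', b', X', Y')` and `t = σ'`, `Γ'`: `Γ' ∩ X' = f3 ∩ X'` (rotated StGAA), `w₁, w₂ ∈ insert σ' Γ'`.  `w₂ ∉ f3`, so `w₂ ∉ X'`, `w₂ ≠ b'`; so `w₂ = σ'` or `w₂ ∈ Y'`, and then `w₂ ∈ f1` by StCUA (4).  In both cases `w₂ ∈ f1`; not in `Y` (`f1 ∩ Y ⊆ Γ`), not `σ`, so `w₂ ∈ X`.  Claim: `(σ', b)` is a cut: if `b' = b` clear.  `σ' ∈ X` or `σ' = w₂ ∈ X`: if `w₂ ∈ f1 ∩ Y'`: were `σ' ∈ Y` or `σ' = σ` then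
`f1 ∩ Y'` (connected, contains `r ∈ Y`, avoids `σ` resp. ...) ⊆ `Y`... precisely: StORD (2): if `σ' ∉ X` then `σ' = σ` or `σ' ∈ Y`, and `f1 ∩ Y'` is connected, contains `r`, and does not contain `σ` (if `σ ∈ Y'` then `σ' ∈ X` by the rotated StORD (2)), so `f1 ∩ Y' ⊆ Y`, contradiction to `w₂ ∈ X`.  So `σ' ∈ X`.  If `b ∈ X'`: StORD (3).  If `b ∈ Y'`: `x ∈ X₀ ⊆ X'`, `b ∈ Y'`, `g ∋ x, b`, so `σ' ∈ g` (StCUA (1)), `σ'` and `b` are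
cofacial, StCUM.  With the cut `(σ', b, X'', Y'')`: `σ' ∈ Γ` (StGAA (1)); if `w₂ = σ'` contradiction; if `w₂ ∈ f1 ∩ Y'`: `w₂ ∈ Y''` (`w₂ ≠ σ'`; `f1 ∩ Y'` is connected, contains `r ∈ Y''`, avoids `σ'`) so `w₂ ∈ f1 ∩ Y'' ⊆ Γ` (StGAA (2)), contradiction.
TN with a cut `(σ', b', X', Y')` and `t = b'`, `Γ'`: `x ∉ Γ'`, so `b' ≠ b` (two faces of `G_b` through `z, r, r'` are equal), and `x ∈ X'` is not cofacial with `b'` (StGAB).  If `b ∈ Y'` then `g ∋ x, b` contains `b'` (StCUA (1)), contradiction; so `b ∈ X'`, `b' ∈ Y`, `X ∩ Y' = ∅` (StUNX).  `w₂ ≠ b'` (`w₂ ∉ f3`), `w₂ ∈ Γ'`.  `w₂ ∈ Y'`: `w₂ ∈ f1`, so `w₂ ∉ Y ∪ {σ}` (StGAA), `w₂ ∈ X ∩ Y'`, contradiction.  `w₂ = σ'`: not in `Y ∪ {σ}`, so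
`σ' ∈ X`, StORD (3): `(σ', b)` is a cut, `σ' ∈ Γ`, contradiction.  `w₂ ∈ X'`: cofacial with `b'` (StGAB): `Ω' ∋ w₂, b'`, `z ∉ Ω'` (`w₂ ∉ f3`).  `w₂ ∈ Y`: cofacial with `p`, so `w₂ ∈ f1 ∩ Y ⊆ Γ`, no; `w₂ ≠ σ`; so `w₂ ∈ X`, `b' ∈ Y`: `b ∈ Ω'`, so `w₂ ∈ Γ` (StGAB), contradiction. -/
def StMCE : Prop := ∀ (V : Type) [Finite V] (G : SimpleGraph V) (z v p q r r' : V) (f1 f2 f3 f4 X₀ Y₀ : Set V) (x y : V),
  Env G z v p q r r' f1 f2 f3 f4 X₀ Y₀ x y → x ∈ f3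

/-- MCF.  The case `x ∈ f3`, `y ∈ f1` is impossible.
Proof.  This holds for all `x, y` (StMCE and its rotated form).  Types in StENT for `w ∈ W' ∖ {x, y}`: only the last two (TN): first: `x ∉ f1`; second: `y ∉ f3`; third: `y ∈ f1`, `x ∈ f3` would be cofacial (StENS (3)); TP: `x ∈ f3` cofacial with `p` gives `x = r'`; TQ: `y = r`.  In particular `w ≠ r, r'` (`r, r' ∈ Γ`).  If `w ∈ X₀` then `w ≠ p, r'`, so `w ∈ f3` (StMCE for `w`), and `w ∈ Γ` in both cases (StGAA (3); rotated StGAA (2)), contradiction.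
So `w ∉ X₀`, and `w ∉ Y₀` (rotated).  Let `M = W' ∖ {x, y}`, `|M| ≥ 2`, `M ∩ (X₀ ∪ Y₀) = ∅`.  Type of `x` (StCLS; the set contains `y` and `M`): TH with `(f3 ∪ f4) ∖ {z}`: `y` no.  TQ: `y` no.  TN: `x ∈ f3 ∩ X ⊆ Γ` in both cases, no.  TH with `(f1 ∪ f2) ∖ {z}` or TP: then `M ⊆ f1`: for the first: `f2 ⊆ insert z Y₀`; for TP: `w ∈ M` is cofacial with `p`; let `(σ, b, X₀, Y)` be the cut (`cX`): `w ∉ X₀`, `w ≠ b` (`b` is not cofacial with `p`), `w = σ ∈ f1` or `w ∈ Y`, `w ∈ f1` (StCUA (4)).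
Or TH with a face `Φ` of `P`, `z ∉ Φ`.  Rotated for `y`: `M ⊆ f3`, or TH with a face `Φ'` of `P`, `z ∉ Φ'`, `Φ' ⊇ M ∪ {x}`.  Not `M ⊆ f1` and `M ⊆ f3`.  If `M ⊆ f1` and `Φ' ⊇ M ∪ {x}`: `w ∈ M`, `w ∈ f1` (not `z, p, r`) and `x ∈ f3` are cofacial: StENS (3).  Rotated: the same.  So `Φ ⊇ M ∪ {y}`, `Φ' ⊇ M ∪ {x}`.  `w ∈ M` is not in `f1` (cofacial with `x`), not in `f3` (cofacial with `y`) by StENS (3).  With the cut `(σ, b, X₀, Y)`: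
`w ∉ X₀`, `w ≠ σ, b`, so `w ∈ Y`, `x ∈ X₀`, `Φ' ∋ x, w`: `σ ∈ Φ'` (StCUA (1)), so `σ ∈ f1` and `x ∈ f3` are cofacial: StENS (3), contradiction. -/
def StMCF : Prop := ∀ (V : Type) [Finite V] (G : SimpleGraph V) (z v p q r r' : V) (f1 f2 f3 f4 X₀ Y₀ : Set V) (x y : V),
  Env G z v p q r r' f1 f2 f3 f4 X₀ Y₀ x y → x ∈ f3 → y ∈ f1 → False

/-- NCU.  There are no cuts of the first kind (and, reflected, none of the second kind).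
Proof.  If there is one: StMIN gives `X₀`; StMIN for the rotated configuration gives `Y₀`; StCUA (5) gives `x`, `y` (for the cut with `X₀`, resp. `Y₀`): `Env`.  StMCE and its rotated form (StENS (1)): `x ∈ f3`, `y ∈ f1`, StMCF.  For the second kind: the reflected configuration (StSYM). -/
def StNCU : Prop := ∀ (V : Type) [Finite V] (G : SimpleGraph V) (z v p q r r' : V) (f1 f2 f3 f4 : Set V),
  Cfg G z v p q r r' f1 f2 f3 f4 → ∀ (σ b : V) (X Y : Set V), ¬ Cut G z v p q r r' f1 f3 σ b X Y ∧ ¬ Cut G z v p q r' r f4 f2 σ b X Y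

/-- WST.  The structure of `N(v)`.
Proof.  No `w ∈ W'` has type TN (StOTC, StNCU).  At most two have type TH (StHTR), at most one TP and at most one TQ (StCLS), `|W'| ≥ 4`: so `W' = {w', w, s, s'}` with `w'` of type TP, `w` of type TQ, `s, s'` of type TH with faces `F₁ ∌ s`, `F₂ ∌ s'`, different.  `p, q ∉ W'`.  So `s, s'` and `w` are cofacial with `p`, `w'` is not; `s, s'` and `w'` are cofacial with `q`, `w` is not.  `w, w' ∈ F₁ ∩ F₂`: adjacent (StFNB (4)).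
`F₁, F₂` are faces of `P` without `z`: otherwise (StHFA) one of them is `(f1 ∪ f2) ∖ {z}` or `(f3 ∪ f4) ∖ {z}`, say the first (the other case by symmetry): `w ∈ f1 ∪ f2`, `w ∈ f2` would give `w = r` (StCRN (2)), cofacial with `q`, no; so `w ∈ f1 ∖ {z, r}`, and `w' ∈ f2 ∖ {z, r}`; they are adjacent in `P`, so cofacial, contradiction to StCRN (5).  `p ∉ F₁` (`w' ∈ F₁` is not cofacial with `p`), etc. -/
def StWST : Prop := ∀ (V : Type) [Finite V] (G : SimpleGraph V) (z v p q r r' : V) (f1 f2 f3 f4 : Set V),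
  Cfg G z v p q r r' f1 f2 f3 f4 → ∃ w w' s s' F₁ F₂, (∀ a, G.Adj v a ↔ a = z ∨ a = w ∨ a = w' ∨ a = s ∨ a = s') ∧
    w ≠ w' ∧ s ≠ s' ∧ G.Adj w w' ∧ IsFace (dl G p q) {v}ᶜ F₁ ∧ IsFace (dl G p q) {v}ᶜ F₂ ∧ F₁ ≠ F₂ ∧ z ∉ F₁ ∧ z ∉ F₂ ∧
    w ∈ F₁ ∧ w' ∈ F₁ ∧ s' ∈ F₁ ∧ w ∈ F₂ ∧ w' ∈ F₂ ∧ s ∈ F₂ ∧ p ∉ F₁ ∧ q ∉ F₁ ∧ p ∉ F₂ ∧ q ∉ F₂ ∧
    (∀ a ∈ ({w, s, s'} : Set V), a ≠ p ∧ a ≠ z ∧ a ≠ v ∧ Cof (dl G p q) {v}ᶜ p a) ∧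
    (∀ a ∈ ({w', s, s'} : Set V), a ≠ q ∧ a ≠ z ∧ a ≠ v ∧ Cof (dl G p q) {v}ᶜ q a) ∧
    ¬ Cof (dl G p q) {v}ᶜ p w' ∧ ¬ Cof (dl G p q) {v}ᶜ q w

/-- WEM.  There are no other vertices.  (Situation of StWST.)
Proof.  Suppose `c ∉ {z, v, p, q, w, w', s, s'}`, `C` the component of `c` in the complement of this set for `G`.  `Nb G C ⊆ {z, p, q, w, w', s, s'}` (`v` has no other neighbours) and `v ∉ C ∪ Nb G C`, so `|Nb G C| ≥ 5` (StBAS (6)).  Faces of `P`: `g ∋ p, w`; `g' ∋ q, w'`; `h ∋ p, s`; `h' ∋ p, s'`; `k ∋ q, s`; `k' ∋ q, s'`; all different from `F₁, F₂`, and those containing `p` are different from those containing `q` (`npq`).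
In each of the following cases `{w}, {w'}, R` and `{F₁}, {F₂}, S` form a `K₃,₃` minor of `plus P` (StPCL (6)); always `w, w'` touch `F₁, F₂`, and `R` contains `s` and `s'`.
(s, s' both in `Nb G C`): `R = C ∪ {s, s'}`, `S` = `p, z, q` with `g, g', h` (`z ~ p, q`; `w ∈ g`, `w' ∈ g'`, `s ∈ h`).
(`w, w' ∈ Nb G C`): `S = C`; `R` = `s, s', p, z, q` with `h, h', k`; it touches `C` because `Nb G C` contains at least three of `z, p, q, s, s'`.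
(`p, w' ∈ Nb G C`): `S` = `C, p` with `g`; `R` = `s, s', q, z` with `k, k'` (touches `S`: `z ~ p`).  (`q, w ∈ Nb G C`): symmetric: `S` = `C, q` with `g'`; `R` = `s, s', p, z` with `h, h'`.
(`z, w ∈ Nb G C`): `S` = `C, z, q` with `g'`; `R` = `s, s', p` with `h, h'` (touches `S`: `p ~ z`).  (`z, w' ∈ Nb G C`): `S` = `C, z, p` with `g`; `R` = `s, s', q` with `k, k'`.
So `Nb G C` contains at most one of `s, s'`; if it contains `w` then not `w', z, q`: at most `w, p, s` or `s'`: 3; same for `w'`; otherwise at most `z, p, q` and one of `s, s'`: 4.  Contradiction. -/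
def StWEM : Prop := ∀ (V : Type) [Finite V] (G : SimpleGraph V) (z v p q r r' : V) (f1 f2 f3 f4 : Set V),
  Cfg G z v p q r r' f1 f2 f3 f4 → ∀ (w w' s s' : V) (F₁ F₂ : Set V), (∀ a, G.Adj v a ↔ a = z ∨ a = w ∨ a = w' ∨ a = s ∨ a = s') →
    w ≠ w' → s ≠ s' → G.Adj w w' → IsFace (dl G p q) {v}ᶜ F₁ → IsFace (dl G p q) {v}ᶜ F₂ → F₁ ≠ F₂ → z ∉ F₁ → z ∉ F₂ →
    w ∈ F₁ → w' ∈ F₁ → s' ∈ F₁ → w ∈ F₂ → w' ∈ F₂ → s ∈ F₂ → p ∉ F₁ → q ∉ F₁ → p ∉ F₂ → q ∉ F₂ →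
    (∀ a ∈ ({w, s, s'} : Set V), a ≠ p ∧ a ≠ z ∧ a ≠ v ∧ Cof (dl G p q) {v}ᶜ p a) →
    (∀ a ∈ ({w', s, s'} : Set V), a ≠ q ∧ a ≠ z ∧ a ≠ v ∧ Cof (dl G p q) {v}ᶜ q a) →
    ¬ Cof (dl G p q) {v}ᶜ p w' → ¬ Cof (dl G p q) {v}ᶜ q w →
    ∀ c, c = z ∨ c = v ∨ c = p ∨ c = q ∨ c = w ∨ c = w' ∨ c = s ∨ c = s'

/-- WIS.  A double server gives `W8`.
Proof.  StCFG, StWST, StWEM.  `r` is cofacial with `p` and `q` (`f1`, `f2`), so `r ≠ w, w'`, and `r ≠ z, v, p, q`: `r ∈ {s, s'}`; same for `r'`: `{s, s'} = {r, r'}`.  So `N(v) = {z, w, w', r, r'}`, `N(z) = {v, p, q, r, r'}`.  `p` is not adjacent to `v` (StPVB; or from `N(v)`), not to `w'` (not cofacial, `dl` = `G` there): at least 5 neighbours: `N(p) = {q, z, r, r', w}`; `N(q) = {p, z, r, r', w'}`; `w` is not adjacent to `z`, `q`: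
`N(w) = {v, w', p, r, r'}`, `N(w') = {v, w, q, r, r'}`.  `r` and `r'` are adjacent to `z, v, p, q, w, w'`, and not to each other: otherwise in `P`: `{r}, {r'}, {z}, {p, w}, {q, w'}` is a `K₅` minor (StMNR; `P` planar).  All eight are different (`w ≠ q`: `w` is cofacial with `p`, ...).  Isomorphism: `0 ↦ r, 1 ↦ r', 2 ↦ z, 3 ↦ p, 4 ↦ q, 5 ↦ v, 6 ↦ w, 7 ↦ w'`. -/
def StWIS : Prop := ∀ (V : Type) [Finite V] (G : SimpleGraph V) (z v p q r r' : V), Bh G → DSc G z v p q r r' → Nonempty (W8 ≃g G)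

end Pool.Agent.Helper12.MA
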