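import Pool.Agent.Helper12.MA.StC

/-!
# Project MA, part D: the existence of a double server, and the end

`P` denotes the graph `dl G x y` on `{s}ᶜ` for an edge `x y` and a server `s` of it (3-connected and planar, `x`, `y` not cofacial: StBAS).
These statements use only part A and StBAS, StSVF, StSPB of part B (and StTOR, whose proof is assembled from the modules here).
-/

set_option autoImplicit false

namespace Pool.Agent.Helper12.MA

open Pool.Agent.Helper51.AJ (IsMinor Planar Apex ExMinor Con Tch)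
open Pool.Agent.Helper12.NK (rst Kc add cnt Pcy IsFace Cof plus)

/-- FUX.  Supplement to StFUE: a face of `M' = ae M x y` on `U' = U ∖ {u}` which is not a face of `M` contains both `x` and `y`.
Proof.  `M'` on `U'` is planar (StFUE (1)).  Suppose not both are in `F = Set.range c` (`Pcy`).  Then `F` is an induced cycle of `M` too, `u ∉ F`.  (a) `u` has an `M`-neighbour in `U' ∖ F`: otherwise `N = {b ∈ U | M.Adj u b} ⊆ F`, StINS for `M'`, `U'`, `F`, the vertex `u`: `add (rst M' U') u N`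
is planar, it contains (is) `rst (ae M x y) U`, so `x`, `y` are cofacial in `M` (StEDG, the vertex `o`), contradiction.  (b) `U' ∖ F` is connected in `M'`.  If it is connected in `M`, so is `U ∖ F` by (a), and `F` is a face of `M`.  So it is not: `x, y ∈ U' ∖ F` and `U' ∖ F = K ∪ K'`, disjoint, connected in `M`, no `M`-edges between them, `x ∈ K`, `y ∈ K'`.
(c) If `u` touches both then `U ∖ F` is connected in `M`, `F` is a face of `M`.  So `u` touches exactly one of them, say `K` (the other case is symmetric: exchange `x`, `y`).  `C₂ = K ∪ {u}`, `C₁ = K'`; `U ∖ F = C₁ ∪ C₂`, no `M`-edges between them.  Let `h ∋ u, y` be a face of `M`.  (d) `A` = the elements of `F` with a neighbour in `C₁`, `B` = those with a neighbour in `C₂`.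
StCMB.  If `NCr m c A B` (with `i, k`) then the two vertices `c i`, `c (i + k)` separate `C₁ ∪ {c (i + t) | 0 < t < k}` from `C₂ ∪ {c (i + t) | k < t < m}` in `M` on `U` (the cycle is induced), contradiction to `Kc 3`.  If `Crs m c A B`: StCRX (1) in `plus M U` (planar: StPLS) with `S i = {inl (c i)}`, the sets `inl '' C₁ ∪ {inr h}` and `inl '' C₂`, which are adjacent (`u ∈ h`): contradiction. -/
def StFUX : Prop := ∀ (V : Type) [Finite V] (M : SimpleGraph V) (U : Set V) (u x y o : V), Pn M U → u ∈ U → x ∈ U → y ∈ U → o ∉ U →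
  u ≠ x → u ≠ y → x ≠ y → ¬ Cof M U x y → Cof M U u x → Cof M U u y → Kc 3 (ae M x y) (U \ {u}) →
  ∀ F, IsFace (ae M x y) (U \ {u}) F → ¬ IsFace M U F → x ∈ F ∧ y ∈ F

/-- TOZ.  General form of StOTY.
Proof.  If `P` without `σ` is 3-connected then, as `G = ae (dl G x y) x y` is planar on `{s, σ}ᶜ`, StEDG (with `o = s`) gives a face of `dl G x y` on `{s, σ}ᶜ` containing `x` and `y`; StFDL: it is a face of `P` (contradiction to StBAS (7)) or all its elements are cofacial with `σ`.  Otherwise there is a set `X₀`, `|X₀| ≤ 2`, such that `W = ({s, σ} ∪ X₀)ᶜ` is not connected in `dl G x y`.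
`W` is connected in `G` (`kc`).  So `x, y ∉ X₀`, `|X₀| = 2` (if `|X₀| ≤ 1` then `W` is connected by `Kc 3` for `P`, StBAS (5)), and `W` has exactly two components in `dl G x y`, `L ∋ x` and `R ∋ y`; `X₀ = {a, b}`. -/
def StTOZ : Prop := ∀ (V : Type) [Finite V] (G : SimpleGraph V) (s x y σ : V), Bh G → G.Adj x y → Srv G s x y →
  σ ≠ s → σ ≠ x → σ ≠ y → Planar (rst G {s, σ}ᶜ) →
  (Cof (dl G x y) {s}ᶜ x σ ∧ Cof (dl G x y) {s}ᶜ y σ) ∨ ∃ a b L R, Sep G {s, σ, a, b} x y L R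

/-- the situation of the modules TOA, TOB, TOC, TOD: `x` has exactly the neighbours `y, s, σ, a, b` -/
structure Lx {V : Type} (G : SimpleGraph V) (s x y σ a b : V) : Prop where
  bh : Bh G
  sv : Srv G s x y
  nb : ∀ c, G.Adj x c ↔ c = y ∨ c = s ∨ c = σ ∨ c = a ∨ c = b
  n1 : y ≠ s ∧ y ≠ σ ∧ y ≠ a ∧ y ≠ b ∧ s ≠ σ ∧ s ≠ a ∧ s ≠ b ∧ σ ≠ a ∧ σ ≠ b ∧ a ≠ b
  ps : Planar (rst G {s, σ}ᶜ)
  nc : ¬ Cof (dl G x y) {s}ᶜ y σ

/-- TOA.  Step 1: `T = ae G a b` on `{x, s, σ}ᶜ` is 3-connected.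
Proof.  Suppose `X' ` with `|X'| < 3` and `W' = {x, s, σ}ᶜ ∖ X'` not connected in `ae G a b`.  If `|X'| ≤ 1` then `W'` is connected in `G` (`kc`), contradiction.  So `X' = {c, d}`.  `W' = K₁ ∪ K₂`, nonempty, disjoint, no edges of `ae G a b` between them.  `({s, σ, c, d})ᶜ = {x} ∪ K₁ ∪ K₂` is connected in `G`, so `x` has neighbours in `K₁` and in `K₂`; these are among `y, a, b`, and `a, b` are not on
different sides.  So, after exchanging names, `y ∈ K₂`, `a, b ∉ K₂`, and one of `a, b` is in `K₁`.  Then `Sep G {s, σ, c, d} x y (insert x K₁) K₂`.  By hypothesis `insert x K₁ = {x}`, impossible, or `K₂ = {y}`: then (StSPB (5) for the exchanged `Sep`) `y` is adjacent to `σ`, also in `dl G x y`, so cofacial (StFNB (6)), contradiction to `nc`. -/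
def StTOA : Prop := ∀ (V : Type) [Finite V] (G : SimpleGraph V) (s x y σ a b : V), Lx G s x y σ a b →
  (∀ c d L R, Sep G {s, σ, c, d} x y L R → L = {x} ∨ R = {y}) → Kc 3 (ae G a b) {x, s, σ}ᶜ

/-- TOB.  Steps 2 and 3: two faces of `T = ae G a b` on `U₀ = {x, s, σ}ᶜ`.
Proof.  Step 2: `G` on `{s, σ}ᶜ` is `Pn` (StBAS (2), `ps`), `x` has there exactly the neighbours `y, a, b`.  The edge `x a` lies in two faces (StFNB (1)), each contains exactly one further neighbour of `x` (StFNB (2)), and these are different (StFNB (5)): one of the faces contains `b`.  So `a, b` are cofacial and `ae G a b` is planar on `{s, σ}ᶜ` (StEDG, `o = s`);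
restricted to `U₀` it is `T`, and `add (rst (ae G a b) U₀) x {y, a, b}` is a subgraph of it: StTUT gives the face `Γ₁`.
Step 3: `P` is `Pn` (StBAS (5)); `x` has in `P` exactly the neighbours `σ, a, b`.  In the same way `a, b` are cofacial in `P` and `ae (dl G x y) a b` is planar on `{s}ᶜ` (StEDG).  Contract `x σ`: the graph `add (rst (ae G a b) U₀) σ N`, `N = ({c | G.Adj σ c} ∖ {x, s}) ∪ {a, b}`, is a minor of it (StPTR, `σ ↦ {σ, x}`, the others single vertices): planar; StTUT (`|N| ≥ 3`) gives `Γ₂`. -/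
def StTOB : Prop := ∀ (V : Type) [Finite V] (G : SimpleGraph V) (s x y σ a b : V), Lx G s x y σ a b → Kc 3 (ae G a b) {x, s, σ}ᶜ →
  Planar (rst (ae G a b) {x, s, σ}ᶜ) ∧
  (∃ Γ, IsFace (ae G a b) {x, s, σ}ᶜ Γ ∧ a ∈ Γ ∧ b ∈ Γ ∧ y ∈ Γ) ∧
  Planar (add (rst (ae G a b) {x, s, σ}ᶜ) σ (({c | G.Adj σ c} \ {x, s}) ∪ {a, b})) ∧
  (∃ Γ, IsFace (ae G a b) {x, s, σ}ᶜ Γ ∧ ({c | G.Adj σ c} \ {x, s}) ∪ {a, b} ⊆ Γ)

/-- TOC.  Step 4, first case: one face contains everything.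
Proof.  `U₀ = {x, s, σ}ᶜ`, `T = ae G a b`.  By StINS `add (rst T U₀) σ Γ` is planar; StTUT (with `N = Γ`) gives a cycle `c` with `Γ ⊆ Set.range c`, and for `A = ({c | G.Adj σ c} ∖ {x, s}) ∪ {y}`, `B = {a, b}`: `a`, `b` are adjacent in `T` so consecutive on `c` (`Pcy`), so `NCr m c A B` (`B` on the closed arc of length 1 between them, `A` on the complementary closed arc of
length `m - 1`).  So `add (add (rst T U₀) σ A) x (insert σ {a, b})` is planar.  It contains `ae (dl G x y) σ y` on `{s}ᶜ` (`N(x) ∖ {s, y} = {σ, a, b}`).  StEDG for `P` (`o = s`): `y` and `σ` are cofacial in `P`, contradiction to `nc`. -/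
def StTOC : Prop := ∀ (V : Type) [Finite V] (G : SimpleGraph V) (s x y σ a b : V) (Γ : Set V), Lx G s x y σ a b →
  Kc 3 (ae G a b) {x, s, σ}ᶜ → Planar (rst (ae G a b) {x, s, σ}ᶜ) → IsFace (ae G a b) {x, s, σ}ᶜ Γ →
  y ∈ Γ → ({c | G.Adj σ c} \ {x, s}) ∪ {a, b} ⊆ Γ → False

/-- TOD.  Step 4, second case: two different faces.
Proof.  `U₀ = {x, s, σ}ᶜ`, `T = ae G a b`, `N = ({c | G.Adj σ c} ∖ {x, s}) ∪ {a, b}`; `N(σ) ∖ {x, s}` has at least 3 elements.  Case (i): `G.Adj a b`.  Then `T` is `G` on `U₀`.  `G` on `{x, s}ᶜ` is `Pn` (StBAS (2); subgraph of `P`).  StMRG for it and the vertex `σ` (`{x, s}ᶜ ∖ {σ} = U₀`): `Γ₁` is a face of `G` on `{x, s}ᶜ` and `Dg` holds (with `a, b`), or `Γ₁` is the set of the vertices cofacial with `σ`: it contains the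
neighbours of `σ` (StFNB (6)), at least three common vertices with `Γ₂`, so `Γ₁ = Γ₂` (StFNB (5)), contradiction.  Case (ii): `a`, `b` are not adjacent in `G`.  `M' = add (rst T U₀) σ N` on `{x, s}ᶜ = insert σ U₀`: planar by hypothesis, 3-connected (StKCB (2)); on `U₀` it agrees with `T`.  StMRG for `M'`, `σ`: the set `S` of the vertices cofacial with `σ` in `M'` is a face of `T`, contains `N`, so `S = Γ₂`
(StFNB (5)); `Γ₁ ≠ S`, so `Γ₁` is a face of `M'`.  The edge `a b` of `M'` lies in two faces of `M'`, `Γ₁` and `F''` (StFNB (1)).  Claim `σ ∈ F''`: otherwise `F''` is a face of `T` (StMRG (3)) containing `a, b`, not `Γ₁`, so `F'' = Γ₂` (StFNB (1) for `T`); but then `Γ₂ ⊇ N` is a face of `M'`, its complement is connected and contains `σ` whose neighbours are all in `Γ₂`, so `{x, s}ᶜ ∖ Γ₂ = {σ}`, `U₀ = Γ₂`,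
and `T` on `U₀` would be an induced cycle, not 3-connected (`Con` of `U₀ ∖ Γ₂ = ∅` is false).  So `a, b, σ ∈ F''`.  StEFZ for `M'`, the new vertex `x`, the edge `a b`, the faces `F'' ∋ σ` and `Γ₁ ∋ y`: `add (rst (dl M' a b) {x, s}ᶜ) x {a, b, σ, y}` is planar; it contains `rst G {s}ᶜ` (`N(x) ∖ {s} = {y, σ, a, b}`), contradiction to `hn s`. -/
def StTOD : Prop := ∀ (V : Type) [Finite V] (G : SimpleGraph V) (s x y σ a b : V) (Γ₁ Γ₂ : Set V), Lx G s x y σ a b →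
  Kc 3 (ae G a b) {x, s, σ}ᶜ → Planar (rst (ae G a b) {x, s, σ}ᶜ) →
  Planar (add (rst (ae G a b) {x, s, σ}ᶜ) σ (({c | G.Adj σ c} \ {x, s}) ∪ {a, b})) →
  IsFace (ae G a b) {x, s, σ}ᶜ Γ₁ → a ∈ Γ₁ → b ∈ Γ₁ → y ∈ Γ₁ →
  IsFace (ae G a b) {x, s, σ}ᶜ Γ₂ → ({c | G.Adj σ c} \ {x, s}) ∪ {a, b} ⊆ Γ₂ → Γ₁ ≠ Γ₂ → Dg G s σ x y

/-- CRT.  Two servers which coincide give a double server.
Proof.  `G` on `U = {σ, s}ᶜ` is `Pn` (StBAS (2)).  By StSVF (1) (`v = s`, `t = σ`) `r₁ ∉ Γ₁`, `r₂ ∉ Γ₂`; `r₂ ∈ Γ₁`, `r₁ ∈ Γ₂`, so `Γ₁ ≠ Γ₂`.  `Γ₁ ∩ Γ₂ ⊇ N(s) ∖ {σ, r₁, r₂}`, which has at most two elements (StFNB (5)); `N(s)` has at least 5: so `σ ∈ N(s)` and `N(s) = {σ, r₁, r₂, p, q}`.  `p`, `q` are adjacent (StFNB (4)).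
StEFZ with `M = G`, `z = s`, the edge `p q`, `Γ₁ ∋ r₂`, `Γ₂ ∋ r₁`: `add (rst (dl G p q) U) s {p, q, r₂, r₁}` is planar and contains `rst (dl G p q) {σ}ᶜ`. -/
def StCRT : Prop := ∀ (V : Type) [Finite V] (G : SimpleGraph V) (s σ r₁ r₂ : V) (Γ₁ Γ₂ : Set V), Bh G → σ ≠ s → Planar (rst G {σ, s}ᶜ) →
  G.Adj s r₁ → G.Adj s r₂ → r₁ ≠ σ → r₂ ≠ σ → r₁ ≠ r₂ → IsFace G {σ, s}ᶜ Γ₁ → IsFace G {σ, s}ᶜ Γ₂ →
  {a | G.Adj s a} \ {σ, r₁} ⊆ Γ₁ → {a | G.Adj s a} \ {σ, r₂} ⊆ Γ₂ → ∃ p q, DSc G s σ p q r₁ r₂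

/-- DGC.  `Dg` gives a double server.
Proof.  StCRT with its `s := x` and `σ := s`: `G` on `{s, x}ᶜ` is planar (subgraph of `P`).  `r₁ = σ`, `r₂ = y` (`σ ≠ y` because `N(x) = {y, s, σ, a, b}` has at least 5 elements), `Γ₁ = F ∋ y, a, b`; `Γ₂` = the set of the vertices cofacial with `x` in `P`: by StMRG (`M = dl G x y`, `U = {s}ᶜ`, vertex `x`) a face of `dl G x y` on `{s}ᶜ ∖ {x} = {s, x}ᶜ`, where `dl G x y` agrees with `G` (3-connected by StBAS (2));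
it contains the neighbours `σ, a, b` of `x` in `P` (StFNB (6)). -/
def StDGC : Prop := ∀ (V : Type) [Finite V] (G : SimpleGraph V) (s x y σ : V), Bh G → G.Adj x y → Srv G s x y → Dg G s σ x y →
  ∃ p q r r', DSc G x s p q r r'

/-- CNT.  Without double servers different edges at `s` have different servers.
Proof.  For a neighbour `w` of `s` let `f w` be a server of `s w` (`hd`) and `Γ w` the face of StSVF (2) (`v = s`, `t = f w`).  If `f w = f w' = σ`, `w ≠ w'`, then StCRT with `r₁ = w`, `r₂ = w'` gives a double server. -/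
def StCNT : Prop := ∀ (V : Type) [Finite V] (G : SimpleGraph V), Bh G → (∀ z v p q r r', ¬ DSc G z v p q r r') →
  ∀ s, ∃ (f : V → V) (Γ : V → Set V),
  (∀ w, G.Adj s w → f w ≠ s ∧ f w ≠ w ∧ Planar (rst G {f w, s}ᶜ) ∧ IsFace G {f w, s}ᶜ (Γ w) ∧
    {a | G.Adj s a} \ {w, f w} ⊆ Γ w ∧ w ∉ Γ w) ∧
  (∀ w w', G.Adj s w → G.Adj s w' → f w = f w' → w = w')

/-- the exceptional situation: `N(x) = {y, x', q₁, q₂, q₃}`, `N(x') = {x, q₁, q₂, q₃, q₄}` -/
structure Exc {V : Type} (G : SimpleGraph V) (x x' y q₁ q₂ q₃ q₄ : V) : Prop where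
  nx : ∀ c, G.Adj x c ↔ c = y ∨ c = x' ∨ c = q₁ ∨ c = q₂ ∨ c = q₃
  nx' : ∀ c, G.Adj x' c ↔ c = x ∨ c = q₁ ∨ c = q₂ ∨ c = q₃ ∨ c = q₄

/-- SUM.  Two nontrivial separations, the first one with the smallest possible side.
Proof.  Neighbourhoods: `A = L ∩ L' ∋ x`, `B = L ∩ R' ∋ x'`, `C = R ∩ R'`, `D = R ∩ L'`; `c = |Q ∩ Q'|`, `ql = |Q ∩ L'|`, `qr = |Q ∩ R'|`, `pl = |Q' ∩ L|`, `pr = |Q' ∩ R|`: `c + ql + qr = 4 = c + pl + pr`.  `∂A = (Q ∩ Q') ∪ (Q ∩ L') ∪ (Q' ∩ L)`, `∂B = (Q ∩ Q') ∪ (Q ∩ R') ∪ (Q' ∩ L)`, `∂C = (Q ∩ Q') ∪ (Q ∩ R') ∪ (Q' ∩ R)`, `∂D = (Q ∩ Q') ∪ (Q ∩ L') ∪ (Q' ∩ R)`.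
`y ∈ R`, `y ∉ R'` (the only edge between `L'` and `R'` is `x x'`).  (1) `Nb G B ⊆ insert x ∂B`, `y ∉ B ∪ Nb G B`: `|∂B| ≥ 4` (StBAS (6)).  (2) `Nb G (A ∖ {x}) ⊆ insert x ∂A`, `y ∉`: if `|∂A| ≤ 3` then `A = {x}`, and then `N(x) ⊆ ∂A ∪ {x', y}`, so (5 neighbours) `|∂A| = 3` and `N(x) = ∂A ∪ {x', y}`.  (3) `Nb G C ⊆ ∂C`, `x ∉`: if `C ≠ ∅` then `|∂C| ≥ 5`, `|∂A| ≤ 3` (`|∂A| + |∂C| = 8`).
(4) `D = ∅` is impossible: then `|L'| = |A| + ql`, `|L| = |A| + |B| + pl`, and `|L| ≤ |L'|` (hypothesis for `Q'`) gives `ql ≥ pl + 1`, but `|∂B| = c + qr + pl ≥ 4 = c + ql + qr` gives `pl ≥ ql`.  (5) `D ≠ ∅`: `Nb G D ⊆ insert x ∂D`, without `x` if `y ∉ D`; `x' ∉ D ∪ Nb G D`.  So `|Nb G D| ≥ 5`; as `|∂B| + |∂D| = 8` and `|∂B| ≥ 4`: `y ∈ D`, `|∂D| = |∂B| = 4`.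
`Sep G ∂B x' x B ((∂B ∪ B)ᶜ)`; if `B ≠ {x'}` it is nontrivial (`y` is on the other side), `|B| < |L|` (`x ∉ B`), contradiction.  So `B = {x'}` and `N(x') = insert x ∂B`.  (6) `|∂A| ≤ 3`: by (3) if `C ≠ ∅`.  If `C = ∅`: `|R'| = 1 + qr ≥ |L| = |A| + 1 + pl` (hypothesis for the exchanged `Q'`), `pl = ql` (as `|∂B| = 4`), `|∂A| = c + ql + pl = 4 - qr + pl ≤ 4 - |A| ≤ 3`.
(7) So `A = {x}`, `|∂A| = 3`, `pl = ql`, `qr = ql + 1`, `c + 2 ql = 3`: `(c, ql) = (3, 0)`: `Q ∩ Q' = {q₁, q₂, q₃}`, `Q ∩ R' = {q₄}`, first alternative.  `(c, ql) = (1, 1)`: `Q ∩ Q' = {c}`, `Q ∩ L' = {a}`, `Q ∩ R' = {b₁, b₂}`, `Q' ∩ L = {l}`, `L = {x, x', l}`; `a` has a neighbour in `{x', l}` (StSPB (4) for `Q`: `Nb G (L ∖ {x}) = insert x Q`), not `x'` (`a ∈ L'`); `a` is not adjacent to `b₁, b₂ ∈ R'`. -/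
def StSUM : Prop := ∀ (V : Type) [Finite V] (G : SimpleGraph V) (Q L R Q' L' R' : Set V) (x y x' : V), Bh G → Sep G Q x y L R →
  Sep G Q' x x' L' R' → x' ∈ L → L ≠ {x} → R ≠ {y} → L' ≠ {x} → R' ≠ {x'} →
  (∀ (Q₁ L₁ R₁ : Set V) (a b : V), Sep G Q₁ a b L₁ R₁ → L₁ ≠ {a} → R₁ ≠ {b} → L.ncard ≤ L₁.ncard) →
  (∃ q₁ q₂ q₃ q₄, Exc G x x' y q₁ q₂ q₃ q₄) ∨
  (∃ l c a b₁ b₂, (∀ t, G.Adj x t ↔ t = y ∨ t = x' ∨ t = l ∨ t = c ∨ t = a) ∧
    (∀ t, G.Adj x' t ↔ t = x ∨ t = l ∨ t = c ∨ t = b₁ ∨ t = b₂) ∧ G.Adj l a ∧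
    (∀ t, G.Adj l t → t = x ∨ t = x' ∨ t = c ∨ t = a ∨ t = b₁ ∨ t = b₂) ∧ ¬ G.Adj a b₁ ∧ ¬ G.Adj a b₂ ∧
    a ≠ b₁ ∧ a ≠ b₂ ∧ y ≠ b₁ ∧ y ≠ b₂)

/-- SUX.  The second alternative of StSUM is impossible if no edge is good.
Proof.  All of `x, x', l, y, c, a, b₁, b₂` are different (`N(x)`, `N(x')` have at least 5 elements; `x', a, y ∉ {b₁, b₂}`).  `Sep G Q₃ x' l L₃ R₃` nontrivial.  A common neighbour of `x'` and `l` is in `Q₃`: so `x ∈ Q₃`.  `N(l) ∖ {x, x', a}` has at least two elements in `{c, b₁, b₂}`.  `x'` has a neighbour in `L₃ ∖ {x'}` (StSPB (4)), so exactly two of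
`c, b₁, b₂` are adjacent to `l` (call them `e₁, e₂ ∈ Q₃`) and the third, `e₀`, is in `L₃`.  `l` has a neighbour in `R₃ ∖ {l}`: `a ∈ R₃`.  `Q₃ = {x, e₁, e₂, e}`.  Case `y ∉ R₃`: `A₂ = R₃ ∖ {l, a}`: `Nb G A₂ ⊆ {a, e₁, e₂, e}` (`x` and `l` have no neighbours in it), `x ∉`, so `A₂ = ∅` (StBAS (6)) and `N(a) ⊆ {l, x, e₁, e₂, e}`, and one of `e₁, e₂` is `b₁` or `b₂`, not adjacent
to `a`: at most 4 neighbours, contradiction (StBAS (4)).  Case `y ∈ R₃`: `A₁ = L₃ ∖ {x', e₀}`: `Nb G A₁ ⊆ {e₀, e₁, e₂, e}`, `x ∉`: `A₁ = ∅`; `N(e₀) ⊆ {x', x, e₁, e₂, e}`, all five are neighbours; `e₀` is adjacent to `x`, so `e₀ = c`, `{e₁, e₂} = {b₁, b₂}`: `c` is adjacent to `b₁` and `b₂`, `l` is adjacent to `b₁, b₂`, not to `c`.  `Sep G Q₂ x l L₂ R₂` nontrivial.  `x', a ∈ Q₂` (common neighbours).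
`x'` has a neighbour in `L₂ ∖ {x}` (StSPB (4)): among `l ∈ R₂`, `b₁`, `b₂` (adjacent to `l ∈ R₂`, so not in `L₂`), `c`: so `c ∈ L₂`.  `l` has a neighbour in `R₂ ∖ {l}`: among `x, x', a` no, so some `bᵢ ∈ R₂`, adjacent to `c ∈ L₂`, contradiction. -/
def StSUX : Prop := ∀ (V : Type) [Finite V] (G : SimpleGraph V) (x x' y l c a b₁ b₂ : V), Bh G → (∀ u v, G.Adj u v → ¬ Good G u v) →
  (∀ t, G.Adj x t ↔ t = y ∨ t = x' ∨ t = l ∨ t = c ∨ t = a) →
  (∀ t, G.Adj x' t ↔ t = x ∨ t = l ∨ t = c ∨ t = b₁ ∨ t = b₂) → G.Adj l a →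
  (∀ t, G.Adj l t → t = x ∨ t = x' ∨ t = c ∨ t = a ∨ t = b₁ ∨ t = b₂) → ¬ G.Adj a b₁ → ¬ G.Adj a b₂ →
  a ≠ b₁ → a ≠ b₂ → y ≠ b₁ → y ≠ b₂ → False

/-- SUB.  A good edge, or the exceptional situation.
Proof.  Suppose no edge is good.  There is an edge (StBAS (4)), so there is a nontrivial `Sep G Q x y L R`; take one with `|L|` minimal (`Sep G Q y x R L` is one too).  `x` has a neighbour `x' ∈ L ∖ {x}` (StSPB (4): `Nb G (L ∖ {x}) = insert x Q`).  `x x'` is not good: `Q'`.  StSUM; the second alternative is excluded by StSUX. -/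
def StSUB : Prop := ∀ (V : Type) [Finite V] (G : SimpleGraph V), Bh G →
  (∃ x y, G.Adj x y ∧ Good G x y) ∨ ∃ x x' y q₁ q₂ q₃ q₄, Exc G x x' y q₁ q₂ q₃ q₄

/-- EXA.  The exceptional situation, the server of `x x'` is none of `q₁, q₂, q₃`.
Proof.  `q₁, q₂, q₃` are different, different from `x, x'` (five neighbours).  `W = ({s, x, x', q₁, q₂, q₃})ᶜ` is nonempty (8 vertices).  Let `D` be a component of `W` in `G`.  `D` does not touch all three `qᵢ`: otherwise `{x}, {x'}, D` and `{q₁}, {q₂}, {q₃}` are a `K₃,₃` minor of `rst (dl G x x') {s}ᶜ` (StMNR).  So `|Nb G D| ≤ 5`, some `qᵢ ∉ D ∪ Nb G D`, so by StBAS (6)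
`Nb G D = {s, x, x', qⱼ, qₖ}`.  `x` has a neighbour in `D`, which can only be `y`; so `y ∈ D` for every component `D`: `D = W`.  So `N(qᵢ) ⊆ {s, x, x', qⱼ, qₖ}`, equality, and `DSc G qᵢ s x x' qⱼ qₖ`. -/
def StEXA : Prop := ∀ (V : Type) [Finite V] (G : SimpleGraph V) (x x' y q₁ q₂ q₃ q₄ s : V), Bh G → Exc G x x' y q₁ q₂ q₃ q₄ →
  Srv G s x x' → s ≠ q₁ → s ≠ q₂ → s ≠ q₃ → ∃ z v p q r r', DSc G z v p q r r'

/-- EXB.  The exceptional situation, the server of `x x'` is `q₃`.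
Proof.  `P' = dl G x x'` on `{q₃}ᶜ` is `Pn`, `x` and `x'` are not cofacial (StBAS (5), (7)).  In `P'` the vertex `x` has exactly the neighbours `y, q₁, q₂`; the edge `x q₁` lies in two faces, each contains exactly one further neighbour of `x`, not the same one (StFNB (1), (2), (5)): so a face `Φ ∋ x, q₁, q₂`.  In the same way a face `Φ' ∋ x', q₁, q₂` (`x'` has the neighbours `q₁, q₂, q₄`).
`Φ ≠ Φ'`, so `q₁`, `q₂` are adjacent (StFNB (4)).  StEFL for the edge `q₁ q₂`, `x ∈ Φ`, `x' ∈ Φ'`: `ae (dl (dl G x x') q₁ q₂) x x'` is planar on `{q₃}ᶜ`; this is `dl G q₁ q₂`.  So `DSc G x q₃ q₁ q₂ x' y`. -/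
def StEXB : Prop := ∀ (V : Type) [Finite V] (G : SimpleGraph V) (x x' y q₁ q₂ q₃ q₄ : V), Bh G → Exc G x x' y q₁ q₂ q₃ q₄ →
  Srv G q₃ x x' → ∃ z v p q r r', DSc G z v p q r r'

/-- the vertices cofacial with both ends of the edge `x y` -/
def US {V : Type} (G : SimpleGraph V) (s x y : V) : Set V :=
  {u | u ≠ x ∧ u ≠ y ∧ Cof (dl G x y) {s}ᶜ x u ∧ Cof (dl G x y) {s}ᶜ y u}

/-- a component `D` of the complement of `{s, x, y} ∪ US`, with neighbours `x, y, s, u, u'` -/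
structure Bl {V : Type} (G : SimpleGraph V) (s x y : V) (D : Set V) (u u' : V) : Prop where
  con : Con G D
  sub : D ⊆ ({s, x, y} ∪ US G s x y)ᶜ
  mu : u ∈ US G s x y
  mu' : u' ∈ US G s x y
  ne : u ≠ u'
  nb : Nb G D = {x, y, s, u, u'}

/-- UCA.  Two components.
Proof.  `Fx`, `Fy` = the sets of the faces of `P` containing `x`, resp. `y`: disjoint (StBAS (7)).  (a) A connected set `D ⊆ {s, x, y}ᶜ` does not touch three different elements `u₁, u₂, u₃ ∉ D` of `US`: `(D, ∅), ({x}, Fx), ({y}, Fy)` and `({u₁}, ∅), ({u₂}, ∅), ({u₃}, ∅)` would be a `K₃,₃` (StPCL (6), (4)).  (b) Let `D` be a component of `W = ({s, x, y} ∪ US)ᶜ` in `G`.  `Nb G D ⊆ {s, x, y} ∪ US`, at most two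
elements of `US`; some third `u''` is not in `D ∪ Nb G D`, so `|Nb G D| ≥ 5` (StBAS (6)): `Bl` holds.  (c) Every `u ∈ US` is touched by a component: otherwise `N(u) ⊆ {s, x, y} ∪ (US ∖ {u})`, by (a) for `D = {u}` at most two in `US`: `N(u) = {s, x, y, u', u''}` (five neighbours) and `DSc G u s x y u' u''`, contradiction.  (d) Let `D₁` be a component touching `u₁`; it touches only `u₁, u₁'`; let `u₃` be a third element of
`US` and `D₂` a component touching it: `D₁ ≠ D₂`, so disjoint. -/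
def StUCA : Prop := ∀ (V : Type) [Finite V] (G : SimpleGraph V) (s x y : V), Bh G → G.Adj x y → Srv G s x y →
  (∀ z v p q r r', ¬ DSc G z v p q r r') → 3 ≤ (US G s x y).ncard →
  ∃ D₁ D₂ u₁ u₁' u₂ u₂', Bl G s x y D₁ u₁ u₁' ∧ Bl G s x y D₂ u₂ u₂' ∧ Disjoint D₁ D₂

/-- UCB.  A face of `P` which meets both components contains `x` or `y`.
Proof.  Suppose not.  `u₂ ∈ Φ`: otherwise `Φ` without `u₂'` (or `Φ`) is connected in `P` (StFAY (1); or `Φ` is a cycle) and contains `w₂ ∈ D₂` and `w₁ ∉ D₂`, but no element of `Nb G D₂` (`x, y, s, u₂, u₂'`), contradiction.  `Fx`, `Fy` = the sets of the faces of `P` containing `x`, resp. `y`: disjoint (StBAS (7)), `Φ` is in neither.  `K₅` (StPCL (5)): `(D₁, {Φ})`, `(D₂, ∅)`, `({u₂}, ∅)`, `({x}, Fx)`, `({y, u₂'}, Fy)`.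
Touching: `Φ ∋ w₂, u₂`; `D₂` touches `u₂`; `D₁`, `D₂` touch `x` and `y`; `u₂` and `u₂'` are cofacial with `x`, and with `y`. -/
def StUCB : Prop := ∀ (V : Type) [Finite V] (G : SimpleGraph V) (s x y : V) (D₁ D₂ Φ : Set V) (u₁ u₁' u₂ u₂' w₁ w₂ : V), Bh G → G.Adj x y →
  Srv G s x y → Bl G s x y D₁ u₁ u₁' → Bl G s x y D₂ u₂ u₂' → Disjoint D₁ D₂ → IsFace (dl G x y) {s}ᶜ Φ →
  w₁ ∈ D₁ → w₁ ∈ Φ → w₂ ∈ D₂ → w₂ ∈ Φ → x ∈ Φ ∨ y ∈ Φ

/-- UCC.  A face of `G` on `{u, s}ᶜ`, `u ∈ US`, which meets both components is a face of `P`.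
Proof.  StFUE and StFUX for `M = dl G x y`, `U = {s}ᶜ`, `u`, `x`, `y`, `o = s` (`ae (dl G x y) x y = G`, `{s}ᶜ ∖ {u} = {u, s}ᶜ`; 3-connected by StBAS (2)): `G` on `{u, s}ᶜ` is planar, and if `Γ` is no face of `P` then `x, y ∈ Γ`.  `({s, x, y, u})ᶜ` is connected in `G` and contains `D₁`, `D₂`; let `E ⊇ D₁` be the component of `({s, x, y, u})ᶜ ∖ D₂` containing `D₁`: it touches `D₂`.
`K₅` in `plus G {u, s}ᶜ` (StPCL (5) for `M = G`): `({x}, ∅)`, `({y}, ∅)`, `(E, ∅)`, `(D₂, ∅)`, `(∅, {Γ})`. -/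
def StUCC : Prop := ∀ (V : Type) [Finite V] (G : SimpleGraph V) (s x y : V) (D₁ D₂ Γ : Set V) (u₁ u₁' u₂ u₂' w₁ w₂ u : V), Bh G → G.Adj x y →
  Srv G s x y → Bl G s x y D₁ u₁ u₁' → Bl G s x y D₂ u₂ u₂' → Disjoint D₁ D₂ → u ∈ US G s x y → IsFace G {u, s}ᶜ Γ →
  w₁ ∈ D₁ → w₁ ∈ Γ → w₂ ∈ D₂ → w₂ ∈ Γ → IsFace (dl G x y) {s}ᶜ Γ

/-- UCD.  A good edge is impossible without double servers.
Proof.  StCNT for `s`: `f`, `Γ`.  For a neighbour `w` of `s`: `f w ∈ {x, y} ∪ US`: otherwise `σ = f w` satisfies the hypotheses of StTOR (all `Sep` of a good edge are trivial), `Dg G s σ x y` or `Dg G s σ y x`, and StDGC gives a double server (for the second with `x`, `y` exchanged: `dl G y x = dl G x y`).  `s` has at least 5 neighbours, `f` is injective on them: `|US| ≥ 3`.  StUCA: `D₁, D₂`; `s ∈ Nb G Dᵢ`: neighbours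
`w₁ ∈ D₁`, `w₂ ∈ D₂` of `s`.  Let `w ∈ N(s) ∖ {w₁, w₂}` (at least three).  `f w ≠ w₁, w₂` (`Dᵢ` avoids `x, y`, `US`), so `w₁, w₂ ∈ Γ w`.  If `f w = x`: `Γ w` is a face of `G` on `{x, s}ᶜ`, i.e. of `dl G x y` on `{s}ᶜ ∖ {x}`; by StMRG it is a face of `P` or `Γ w = {t | t ≠ x ∧ Cof x t}` (type X).  Same for `f w = y` (type Y).  If `f w ∈ US`: a face of `P` (StUCC).  A face of `P` containing `w₁, w₂` (not adjacent:
`Nb G D₁` avoids `D₂`) is unique (StFNB (4)), call it `Φ₀`; by StUCB it contains `x` or `y`.  Types X and Y do not both occur: `w₁` would be cofacial with `x` and `y`, so in `US`.  At most one `w` has type X (`f` injective), same for Y.  If `Γ w = Γ w' = Φ₀`, `w ≠ w'`: `w, w' ∉ Φ₀`, so `w' = f w` and `w = f w'`; so at most two of this type.  Hence there are exactly three: say `w` of type X (type Y is symmetric), `w', w''` with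
`Γ w' = Γ w'' = Φ₀`, `f w' = w''`.  `w ∈ N(s) ∖ {w', f w'} ⊆ Φ₀`.  If `x ∈ Φ₀` then `w ≠ x` is cofacial with `x`, `w ∈ Γ w`, contradiction.  If `y ∈ Φ₀` then `w₁` is cofacial with `y`, and with `x` (type X): `w₁ ∈ US`, contradiction. -/
def StUCD : Prop := ∀ (V : Type) [Finite V] (G : SimpleGraph V) (s x y : V), Bh G → G.Adj x y → Good G x y → Srv G s x y →
  (∀ z v p q r r', ¬ DSc G z v p q r r') → False

/-- EXS.  There is a double server.
Proof.  StSUB.  Good edge: a server by `hd`, StUCD.  Exceptional: a server `s` of `x x'`; StEXA, or `s ∈ {q₁, q₂, q₃}` and StEXB (for `q₁`, `q₂` permute). -/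
def StEXS : Prop := ∀ (V : Type) [Finite V] (G : SimpleGraph V), Bh G → ∃ z v p q r r', DSc G z v p q r r'

/-- NSV.  Seven vertices.
Proof.  Every vertex has at least 5 neighbours (delete the neighbours), so at most one non-neighbour: the nonadjacent pairs are disjoint.  If there are three pairs `aᵢ, bᵢ` then for the seventh vertex `c` the graph `rst G {c}ᶜ` is the octahedron, planar, contradiction to `HN`: no `K₅` minor (five disjoint nonempty branch sets in six vertices: four of them single vertices, pairwise adjacent, but four vertices contain a pair), no `K₃,₃` minor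
(six single vertices; vertices of different sides are adjacent, so the three pairs lie inside the sides, which have three elements each, impossible).  (Branch sets do not contain `c`: it is isolated in `rst G {c}ᶜ`.)  If there are at most two pairs choose adjacent vertices `u, v`, such that all other vertices are pairwise adjacent and adjacent to `u` or `v` (`u` from the first pair, `v` from the second; `HK` for `u v`): `rst G {u, v}ᶜ` contains a `K₅`, and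
for `y ≠ u, v` the graph `add (rst G {u, v, y}ᶜ) u {b | (G.Adj u b ∨ G.Adj v b) ∧ b ≠ u ∧ b ≠ v ∧ b ≠ y}` contains a `K₅` (the four other vertices and `u`). -/
def StNSV : Prop := ∀ (V : Type) [Finite V] (G : SimpleGraph V), Nat.card V = 7 → (∀ X : Set V, X.ncard ≤ 4 → Con G Xᶜ) →
  Pool.Agent.Helper12.NK.HN G → Pool.Agent.Helper12.NK.HK G → False

/-- HDD.  Proof.  The graph in `HD` is `dl G x y` on `{s}ᶜ` (`s` is its `x`). -/
def StHDD : Prop := ∀ (V : Type) [Finite V] (G : SimpleGraph V), Pool.Agent.Helper12.NK.HD G → ∀ x y, G.Adj x y → ∃ s, Srv G s x y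

/-- CVA.  `W8` is 5-connected.
Proof.  `decide`-like or by hand: delete at most 4 vertices.  If one of `0, 1` is left, it is adjacent to everything except the other one; the prism has 6 vertices, at least 2 are left if `0, 1` are both left (or deleted ...), so the rest is connected: if `0` is left, all prism vertices left are joined to `0`, and `1`, if left, is adjacent to a prism vertex which is left (at least 2 of 6 are left).
If `0` and `1` are deleted then at most 2 vertices of the prism are deleted and the prism is 3-connected. -/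
def StCVA : Prop := ∀ X : Set (Fin 8), X.ncard ≤ 4 → (W8.induce Xᶜ).Preconnected

/-- CVN.  `W8` is not apex.
Proof.  `W8 - x` is nonplanar for every `x` (then so is `W8`).  `x ∈ {0, 1}`: with the other one, say `0`: the sets `{0}, {2}, {3}, {4}, {5, 6, 7}` form a `K₅` minor.  `x` a prism vertex: let `t` be a prism vertex not adjacent to `x`, `t ≠ x`, and `a, b, c` its three prism neighbours: `{0}, {1}, {t}` and `{a}, {b}, {c}` form a `K₃,₃` (for `x = 2`: `t = 6`, `{3}, {5}, {7}`). -/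
def StCVN : Prop := ¬ Apex W8

end Pool.Agent.Helper12.MA
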